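import Mathlib

/-!
# Exponentials of bounded operators
-/

set_option autoImplicit false

open Filter Topology
open scoped Nat

namespace Pool.Agent.Y726.Kc

variable {E : Type} [NormedAddCommGroup E] [NormedSpace ℝ E]

/-- the exponential of a bounded operator -/
noncomputable def expE (A : E →L[ℝ] E) : E →L[ℝ] E := NormedSpace.exp A

theorem expE_zero (A : E →L[ℝ] E) (f : E) : expE ((0 : ℝ) • A) f = f := by
  unfold expE
  rw [zero_smul, NormedSpace.exp_zero]
  rfl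

variable [CompleteSpace E]

theorem hasSum_expE (A : E →L[ℝ] E) (t : ℝ) (f : E) :
    HasSum (fun n : ℕ => ((n ! : ℝ)⁻¹ * t ^ n) • (A ^ n) f) (expE (t • A) f) := by
  have h := NormedSpace.exp_series_hasSum_exp' (𝕂 := ℝ) (t • A)
  have h2 := (ContinuousLinearMap.apply ℝ E f).hasSum h
  have e : (fun n : ℕ => ((n ! : ℝ)⁻¹ * t ^ n) • (A ^ n) f) =
      (fun n : ℕ => (ContinuousLinearMap.apply ℝ E f) ((n ! : ℝ)⁻¹ • (t • A) ^ n)) := by
    funext n
    rw [smul_pow, smul_smul]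
    rfl
  rw [e]
  exact h2

theorem expE_add (A : E →L[ℝ] E) (s t : ℝ) (f : E) :
    expE ((s + t) • A) f = expE (s • A) (expE (t • A) f) := by
  let _ : NormedAlgebra ℚ (E →L[ℝ] E) := NormedAlgebra.restrictScalars ℚ ℝ _
  unfold expE
  rw [add_smul, NormedSpace.exp_add_of_commute (((Commute.refl A).smul_left s).smul_right t)]
  rfl

theorem expE_shift (A : E →L[ℝ] E) (t c : ℝ) (f : E) :
    expE (t • A) f = Real.exp (-(t * c)) • expE (t • (A + c • (1 : E →L[ℝ] E))) f := by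
  let _ : NormedAlgebra ℚ (E →L[ℝ] E) := NormedAlgebra.restrictScalars ℚ ℝ _
  have h1 : t • A = algebraMap ℝ (E →L[ℝ] E) (-(t * c)) + t • (A + c • (1 : E →L[ℝ] E)) := by
    rw [Algebra.algebraMap_eq_smul_one, smul_add, smul_smul, neg_smul]
    abel
  unfold expE
  conv_lhs => rw [h1]
  rw [NormedSpace.exp_add_of_commute (Algebra.commutes _ _),
    ← NormedSpace.algebraMap_exp_comm (𝕂 := ℝ), ← Real.exp_eq_exp_ℝ,
    Algebra.algebraMap_eq_smul_one, smul_mul_assoc, one_mul]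
  rfl

theorem hasDerivAt_expE (A : E →L[ℝ] E) (t : ℝ) (f : E) :
    HasDerivAt (fun u : ℝ => expE (u • A) f) (expE (t • A) (A f)) t := by
  have h := hasDerivAt_exp_smul_const (𝕂 := ℝ) A t
  exact ((ContinuousLinearMap.apply ℝ E f).hasFDerivAt.comp_hasDerivAt t h)

theorem norm_expE_sub_le (A : E →L[ℝ] E) (hA : ∀ s : ℝ, 0 ≤ s → ∀ g, ‖expE (s • A) g‖ ≤ ‖g‖)
    (t : ℝ) (ht : 0 ≤ t) (f : E) : ‖expE (t • A) f - f‖ ≤ t * ‖A f‖ := by
  have h := norm_image_sub_le_of_norm_deriv_le_segment' (f := fun u : ℝ => expE (u • A) f)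
    (f' := fun u => expE (u • A) (A f)) (C := ‖A f‖) (a := 0) (b := t)
    (fun x _ => (hasDerivAt_expE A x f).hasDerivWithinAt)
    (fun x hx => hA x hx.1 (A f)) t ⟨ht, le_rfl⟩
  rw [expE_zero, sub_zero, mul_comm] at h
  exact h

theorem norm_expE_sub_sub_le (A : E →L[ℝ] E)
    (hA : ∀ s : ℝ, 0 ≤ s → ∀ g, ‖expE (s • A) g‖ ≤ ‖g‖)
    (t : ℝ) (ht : 0 ≤ t) (f : E) :
    ‖expE (t • A) f - f - t • A f‖ ≤ t * (t * ‖A (A f)‖) := by
  have h := norm_image_sub_le_of_norm_deriv_le_segment'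
    (f := fun u : ℝ => expE (u • A) f - u • A f)
    (f' := fun u => expE (u • A) (A f) - (1 : ℝ) • A f) (C := t * ‖A (A f)‖) (a := 0) (b := t)
    (fun x _ => ((hasDerivAt_expE A x f).sub
      ((hasDerivAt_id x).smul_const (A f))).hasDerivWithinAt)
    (fun x hx => by
      rw [one_smul]
      refine (norm_expE_sub_le A hA x hx.1 (A f)).trans ?_
      exact mul_le_mul_of_nonneg_right hx.2.le (norm_nonneg _)) t ⟨ht, le_rfl⟩
  rw [expE_zero, sub_zero, zero_smul, sub_zero, mul_comm _ t] at h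
  rw [sub_right_comm]
  exact h

end Pool.Agent.Y726.Kc
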