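import Mathlib

/-!
# Kinetically constrained models: definitions

Sites are the points of `ℤ ^ d`, configurations are the functions `η : ℤ ^ d → {0, 1}`; the value
`true` (`1`) means healthy (filled) and `false` (`0`) means infected (empty).
-/

set_option autoImplicit false

open MeasureTheory ProbabilityTheory Filter Topology unitInterval
open scoped NNReal ENNReal

namespace Pool.Agent.Y726.Kc

/-- The sites. -/
abbrev Site (d : ℕ) := Fin d → ℤ

/-- The configurations; `true` is `1` (healthy), `false` is `0` (infected). -/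
abbrev Config (d : ℕ) := Site d → Bool

/-- The configuration `η ^ x`, which is `η` flipped at `x`. -/
def flipAt {d : ℕ} (η : Config d) (x : Site d) : Config d := Function.update η x (!η x)

/-- A kinetically constrained model: rates `c_x ≥ 0` such that `c_x(η)` depends only on the `η_y`
with `0 < ‖y - x‖ ≤ r` (sup norm), for a fixed range `r`.  The rates are bounded (this is automatic
for translation invariant rates). -/
structure KCM (d : ℕ) where
  /-- the rates `c_x(η)` -/
  c : Site d → Config d → ℝ
  c_nonneg : ∀ x η, 0 ≤ c x η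
  /-- the range -/
  r : ℕ
  c_local : ∀ x η η', (∀ y, y ≠ x → ‖y - x‖ ≤ r → η y = η' y) → c x η = c x η'
  /-- a bound for the rates -/
  bound : ℝ
  c_le : ∀ x η, c x η ≤ bound

variable {d : ℕ}

/-- `f` is local: it depends on finitely many coordinates. -/
def IsLocal (f : Config d → ℝ) : Prop := ∃ D : Finset (Site d), DependsOn f (D : Set (Site d))

/-- The event `S` is local. -/
def IsLocalEvent (S : Set (Config d)) : Prop :=
  ∃ D : Finset (Site d), ∀ η η' : Config d, (∀ x ∈ D, η x = η' x) → (η ∈ S ↔ η' ∈ S)

/-- The generator `ℒ f (η) = ∑ₓ c_x(η) ((1 - η_x) p + η_x q) (f (η ^ x) - f (η))`, `p = 1 - q`, on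
local functions (the sum is finite for these). -/
noncomputable def gen (K : KCM d) (q : I) (f : Config d → ℝ) (η : Config d) : ℝ :=
  ∑ᶠ x : Site d, K.c x η * (if η x then (q : ℝ) else 1 - (q : ℝ)) * (f (flipAt η x) - f η)

/-- `P` is the Markov (Feller) semigroup of the model: a strongly continuous semigroup of positive
operators on `C(Ω)` which fix the constants, and whose generator is `ℒ` on local functions. -/
structure IsSemigroup (K : KCM d) (q : I) (P : ℝ≥0 → C(Config d, ℝ) →L[ℝ] C(Config d, ℝ)) :
    Prop where
  zero : P 0 = ContinuousLinearMap.id ℝ _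
  add : ∀ s t, P (s + t) = (P s).comp (P t)
  one : ∀ t, P t 1 = 1
  nonneg : ∀ t f, 0 ≤ f → 0 ≤ P t f
  cont : ∀ f, Tendsto (fun t => P t f) (𝓝 0) (𝓝 f)
  deriv : ∀ f g : C(Config d, ℝ), IsLocal f → (∀ η, g η = gen K q f η) →
    Tendsto (fun t : ℝ≥0 => (t : ℝ)⁻¹ • (P t f - f)) (𝓝[≠] 0) (𝓝 g)

/-- `μ` is a stationary measure: a probability measure with `μ P_t = μ` for all `t ≥ 0`. -/
def IsStationary (K : KCM d) (q : I) (μ : Measure (Config d)) : Prop :=
  IsProbabilityMeasure μ ∧ ∃ P, IsSemigroup K q P ∧ ∀ t (f : C(Config d, ℝ)),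
    ∫ η, P t f η ∂μ = ∫ η, f η ∂μ

/-- One step of the bootstrap percolation: every site whose constraint is satisfied is emptied. -/
noncomputable def step (K : KCM d) (η : Config d) : Config d :=
  open Classical in fun x => if 0 < K.c x η then false else η x

/-- The limit `[η]` of the bootstrap percolation started from `η`. -/
noncomputable def closure (K : KCM d) (η : Config d) : Config d :=
  open Classical in fun x => decide (∀ n : ℕ, (step K)^[n] η x = true)

/-- The box `Λ_L = {-L, …, L} ^ d`. -/
def box (d L : ℕ) : Set (Site d) := {x | ∀ i, |x i| ≤ (L : ℤ)}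

/-- The configuration `η` on `Λ`, filled outside. -/
noncomputable def fill (Λ : Set (Site d)) (η : Config d) : Config d :=
  open Classical in fun x => if x ∈ Λ then η x else true

/-- One step of the bootstrap percolation on `Λ`, with every site outside `Λ` kept filled. -/
noncomputable def stepIn (K : KCM d) (Λ : Set (Site d)) (η : Config d) : Config d :=
  fill Λ (step K η)

/-- `[η]_Λ`: the result of the iteration on `Λ` with every site outside `Λ` kept filled. -/
noncomputable def closureIn (K : KCM d) (Λ : Set (Site d)) (η : Config d) : Config d :=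
  open Classical in fun x => decide (∀ n : ℕ, (stepIn K Λ)^[n] (fill Λ η) x = true)

/-- The event `A_L(β)` that `[η]_{Λ_L} = β` on `Λ_L`. -/
def evA (K : KCM d) (β : Config d) (L : ℕ) : Set (Config d) :=
  {η | ∀ x ∈ box d L, closureIn K (box d L) η x = β x}

/-- The product measure `π`, with `π(η_x = 0) = q` and `π(η_x = 1) = 1 - q`. -/
noncomputable def prodπ (d : ℕ) (q : I) : Measure (Config d) :=
  Measure.infinitePi (fun _ : Site d => bernoulliMeasure false true q)

/-- `β` is admissible: `π(A_L(β)) > 0` for all large `L`, and `π(· ∣ A_L(β))` converges on every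
local event. -/
def Admissible (K : KCM d) (q : I) (β : Config d) : Prop :=
  (∀ᶠ L in atTop, 0 < prodπ d q (evA K β L)) ∧
  ∀ S : Set (Config d), IsLocalEvent S → ∃ l : ℝ,
    Tendsto (fun L => ((prodπ d q)[|evA K β L]).real S) atTop (𝓝 l)

/-- `π_β(f)`: the limit of the expectations of the local function `f` under `π(· ∣ A_L(β))`. -/
noncomputable def condπ (K : KCM d) (q : I) (β : Config d) (f : Config d → ℝ) : ℝ :=
  limUnder atTop (fun L => ∫ η, f η ∂((prodπ d q)[|evA K β L]))

/-- `μ` is a mixture of the measures `π_β`: there is a probability measure `μ_*` on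
`{β : [β] = β}`, concentrated on admissible `β`, such that `β ↦ π_β(f)` is `μ_*`-measurable and
`μ(f) = ∫ π_β(f) dμ_*(β)` for all local `f`. -/
def IsMixture (K : KCM d) (q : I) (μ : Measure (Config d)) : Prop :=
  ∃ M : Measure (Config d), IsProbabilityMeasure M ∧
    (∀ᵐ β ∂M, closure K β = β ∧ Admissible K q β) ∧
    ∀ f : Config d → ℝ, IsLocal f → AEMeasurable (fun β => condπ K q β f) M ∧
      ∫ η, f η ∂μ = ∫ β, condπ K q β f ∂M

/-- `μ` is a mixture of the measures `ν β`: here `ν` assigns one measure `ν β` to each closed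
configuration `β`, with `[η] = β` for `ν β`-almost every `η`. -/
def IsMixtureOf (K : KCM d) (ν : Config d → Measure (Config d)) (μ : Measure (Config d)) :
    Prop :=
  ∃ M : Measure (Config d), IsProbabilityMeasure M ∧
    (∀ᵐ β ∂M, IsProbabilityMeasure (ν β) ∧ ∀ᵐ η ∂(ν β), closure K η = β) ∧
    ∀ f : Config d → ℝ, IsLocal f → AEMeasurable (fun β => ∫ η, f η ∂(ν β)) M ∧
      ∫ η, f η ∂μ = ∫ β, ∫ η, f η ∂(ν β) ∂M

/-- The sites `x` and `y` are nearest neighbours. -/
def Near (x y : Site d) : Prop := ∑ i, |y i - x i| = 1

theorem Near.symm {x y : Site d} (h : Near x y) : Near y x := by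
  unfold Near at h ⊢
  rw [← h]
  exact Finset.sum_congr rfl fun i _ => abs_sub_comm _ _

theorem Near.ne {x y : Site d} (h : Near x y) : y ≠ x := by
  rintro rfl
  unfold Near at h
  simp at h

theorem Near.norm_le {x y : Site d} (h : Near x y) : ‖y - x‖ ≤ ((1 : ℕ) : ℝ) := by
  rw [pi_norm_le_iff_of_nonneg (by positivity)]
  intro i
  rw [Pi.sub_apply, Int.norm_eq_abs]
  have h1 : |y i - x i| ≤ ∑ i, |y i - x i| :=
    Finset.single_le_sum (f := fun i => |y i - x i|) (fun i _ => abs_nonneg _) (Finset.mem_univ i)
  rw [h] at h1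
  exact_mod_cast h1

/-- The model FA-`2d`f on `ℤ ^ d`: the constraint at `x` is that all nearest neighbours of `x` are
infected (empty); `c_x` is the indicator function of this event. -/
noncomputable def FA (d : ℕ) : KCM d where
  c x η := open Classical in if ∀ y, Near x y → η y = false then 1 else 0
  c_nonneg x η := by
    split_ifs <;> norm_num
  r := 1
  c_local x η η' h := by
    have : (∀ y, Near x y → η y = false) ↔ (∀ y, Near x y → η' y = false) := by
      constructor
      · intro h1 y hy
        rw [← h y hy.ne hy.norm_le]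
        exact h1 y hy
      · intro h1 y hy
        rw [h y hy.ne hy.norm_le]
        exact h1 y hy
    by_cases h1 : ∀ y, Near x y → η y = false
    · rw [if_pos h1, if_pos (this.1 h1)]
    · rw [if_neg h1, if_neg (mt this.2 h1)]
  bound := 1
  c_le x η := by
    split_ifs <;> norm_num

/-- The configuration `β₀` on `ℤ ^ 3` which is `1` on the sites with third coordinate `≤ -2` or
`≥ 3`, and `0` on the four layers between them. -/
def β₀ : Config 3 := fun x => decide (x 2 ≤ -2 ∨ 3 ≤ x 2)

end Pool.Agent.Y726.Kc
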