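import Pool.Agent.Y726.KCM.Inv

/-!
# Uniqueness of the semigroup
-/

set_option autoImplicit false

open MeasureTheory ProbabilityTheory Filter Topology unitInterval
open scoped NNReal ENNReal Nat

namespace Pool.Agent.Y726.Kc

variable {d : ℕ} {K : KCM d} {q : I} {P : ℝ≥0 → C(Config d, ℝ) →L[ℝ] C(Config d, ℝ)}

theorem IsSemigroup.nonneg' (hP : IsSemigroup K q P) (t : ℝ≥0) (f : C(Config d, ℝ))
    (hf : ∀ η, 0 ≤ f η) (η : Config d) : 0 ≤ P t f η :=
  hP.nonneg t f (fun ζ => hf ζ) η

theorem IsSemigroup.norm_le (hP : IsSemigroup K q P) (t : ℝ≥0) (f : C(Config d, ℝ)) :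
    ‖P t f‖ ≤ ‖f‖ := by
  rw [ContinuousMap.norm_le _ (norm_nonneg _)]
  intro η
  rw [Real.norm_eq_abs, abs_le]
  constructor
  · have h := hP.nonneg' t (‖f‖ • 1 + f) (fun ζ => by
      have := f.norm_coe_le_norm ζ
      rw [Real.norm_eq_abs, abs_le] at this
      simp only [ContinuousMap.add_apply, ContinuousMap.smul_apply, ContinuousMap.one_apply,
        smul_eq_mul, mul_one]
      linarith) η
    rw [map_add, map_smul, hP.one] at h
    simp only [ContinuousMap.add_apply, ContinuousMap.smul_apply, ContinuousMap.one_apply,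
        smul_eq_mul, mul_one] at h
    linarith
  · have h := hP.nonneg' t (‖f‖ • 1 - f) (fun ζ => by
      have := f.norm_coe_le_norm ζ
      rw [Real.norm_eq_abs, abs_le] at this
      simp only [ContinuousMap.sub_apply, ContinuousMap.smul_apply, ContinuousMap.one_apply,
        smul_eq_mul, mul_one]
      linarith) η
    rw [map_sub, map_smul, hP.one] at h
    simp only [ContinuousMap.sub_apply, ContinuousMap.smul_apply, ContinuousMap.one_apply,
        smul_eq_mul, mul_one] at h
    linarith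

theorem IsSemigroup.dist_le (hP : IsSemigroup K q P) {s t : ℝ≥0} (hst : s ≤ t)
    (f : C(Config d, ℝ)) : ‖P t f - P s f‖ ≤ ‖P (t - s) f - f‖ := by
  have h1 : t = s + (t - s) := (add_tsub_cancel_of_le hst).symm
  have h2 : P t f - P s f = P s (P (t - s) f - f) := by
    conv_lhs => rw [h1]
    rw [hP.add, ContinuousLinearMap.comp_apply, map_sub]
  rw [h2]
  exact hP.norm_le _ _

theorem toNNReal_sub_eq {a b : ℝ} (ha : 0 ≤ a) (hab : a ≤ b) :
    b.toNNReal - a.toNNReal = (b - a).toNNReal := by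
  apply NNReal.eq
  rw [NNReal.coe_sub (Real.toNNReal_le_toNNReal hab), Real.coe_toNNReal _ ha,
    Real.coe_toNNReal _ (ha.trans hab), Real.coe_toNNReal _ (by linarith)]

theorem IsSemigroup.dist_le' (hP : IsSemigroup K q P) {a b : ℝ} (ha : 0 ≤ a) (hab : a ≤ b)
    (f : C(Config d, ℝ)) :
    ‖P b.toNNReal f - P a.toNNReal f‖ ≤ ‖P (b - a).toNNReal f - f‖ := by
  rw [← toNNReal_sub_eq ha hab]
  exact hP.dist_le (Real.toNNReal_le_toNNReal hab) f

theorem IsSemigroup.continuousOn (hP : IsSemigroup K q P) (f : C(Config d, ℝ)) :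
    ContinuousOn (fun t : ℝ => P t.toNNReal f) (Set.Ici 0) := by
  intro t ht
  unfold ContinuousWithinAt
  rw [tendsto_iff_norm_sub_tendsto_zero]
  have h1 : Tendsto (fun s : ℝ => ‖P (|s - t|).toNNReal f - f‖) (𝓝 t) (𝓝 0) := by
    have h2 : Tendsto (fun s : ℝ => (|s - t|).toNNReal) (𝓝 t) (𝓝 0) := by
      have h3 : Continuous (fun s : ℝ => (|s - t|).toNNReal) := by fun_prop
      have h4 := h3.tendsto t
      simpa using h4
    have h5 := (hP.cont f).comp h2
    have h6 := (h5.sub_const f).norm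
    simpa using h6
  refine squeeze_zero' (Eventually.of_forall fun _ => norm_nonneg _) ?_
    (h1.mono_left nhdsWithin_le_nhds)
  filter_upwards [self_mem_nhdsWithin] with s hs
  rcases le_total s t with h | h
  · rw [norm_sub_rev, abs_sub_comm, abs_of_nonneg (by linarith)]
    exact hP.dist_le' hs h f
  · rw [abs_of_nonneg (by linarith)]
    exact hP.dist_le' ht h f

theorem IsSemigroup.hasDerivWithinAt (hP : IsSemigroup K q P) {D : Finset (Site d)}
    {f : C(Config d, ℝ)} (h : DependsOn f (D : Set (Site d))) {t : ℝ} (ht : 0 ≤ t) :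
    HasDerivWithinAt (fun t : ℝ => P t.toNNReal f) (P t.toNNReal (LF K q D f)) (Set.Ici t) t := by
  rw [← hasDerivWithinAt_Ioi_iff_Ici, hasDerivWithinAt_iff_tendsto_slope' (by simp)]
  have h1 : Tendsto (fun s : ℝ => (s - t).toNNReal) (𝓝[>] t) (𝓝[≠] 0) := by
    rw [tendsto_nhdsWithin_iff]
    constructor
    · have h3 : Continuous (fun s : ℝ => (s - t).toNNReal) := by fun_prop
      have h4 := (h3.tendsto t).mono_left (nhdsWithin_le_nhds (s := Set.Ioi t))
      simpa using h4
    · filter_upwards [self_mem_nhdsWithin] with s hs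
      have hs' : t < s := hs
      simp only [Set.mem_compl_iff, Set.mem_singleton_iff, Real.toNNReal_eq_zero, not_le]
      linarith
  have h2 := (hP.deriv f (LF K q D f) ⟨D, h⟩
    (fun η => (gen_eq_LF K q h (Finset.Subset.refl D) η).symm)).comp h1
  have h3 := ((P t.toNNReal).continuous.tendsto _).comp h2
  refine h3.congr' ?_
  filter_upwards [self_mem_nhdsWithin] with s hs
  have hs' : t < s := hs
  have e1 : s.toNNReal = t.toNNReal + (s - t).toNNReal := by
    rw [← Real.toNNReal_add ht (by linarith)]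
    congr 1
    ring
  simp only [Function.comp_apply, slope, vsub_eq_sub]
  rw [map_smul, map_sub, Real.coe_toNNReal _ (by linarith : (0 : ℝ) ≤ s - t), e1, hP.add]
  rfl

theorem Gn_succ (n : ℕ) {D : Finset (Site d)} {f : C(Config d, ℝ)}
    (h : DependsOn f (D : Set (Site d))) :
    Gn K q (n + 1) D f = Gn K q n (enl K D) (LF K q D f) := by
  unfold Gn
  rw [pow_succ, mul_apply_eq_comp, Function.iterate_succ_apply]
  have h3 := subset_enl_iter K (n + 1) D
  rw [Function.iterate_succ_apply] at h3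
  rw [LF_eq K q h h3]

/-- the Taylor polynomial of the semigroup -/
noncomputable def Tay (K : KCM d) (q : I) (n : ℕ) (D : Finset (Site d)) (f : C(Config d, ℝ))
    (t : ℝ) : C(Config d, ℝ) :=
  ∑ k ∈ Finset.range n, ((k ! : ℝ)⁻¹ * t ^ k) • Gn K q k D f

theorem hasDerivAt_Tay (n : ℕ) {D : Finset (Site d)} {f : C(Config d, ℝ)}
    (h : DependsOn f (D : Set (Site d))) (t : ℝ) :
    HasDerivAt (Tay K q (n + 1) D f) (Tay K q n (enl K D) (LF K q D f) t) t := by
  have e : Tay K q (n + 1) D f = fun t => Gn K q 0 D f +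
      ∑ k ∈ Finset.range n, (((k + 1) ! : ℝ)⁻¹ * t ^ (k + 1)) • Gn K q k (enl K D) (LF K q D f) := by
    funext u
    unfold Tay
    rw [Finset.sum_range_succ']
    rw [add_comm]
    congr 1
    · simp
    · apply Finset.sum_congr rfl
      intro k _
      rw [Gn_succ k h]
  rw [e]
  have h2 : HasDerivAt (fun u : ℝ => ∑ k ∈ Finset.range n,
      (((k + 1) ! : ℝ)⁻¹ * u ^ (k + 1)) • Gn K q k (enl K D) (LF K q D f))
      (∑ k ∈ Finset.range n, ((k ! : ℝ)⁻¹ * t ^ k) • Gn K q k (enl K D) (LF K q D f)) t := by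
    apply HasDerivAt.fun_sum
    intro k _
    have h5 : HasDerivAt (fun u : ℝ => ((k + 1) ! : ℝ)⁻¹ * u ^ (k + 1))
        ((k ! : ℝ)⁻¹ * t ^ k) t := by
      have h3 := (hasDerivAt_pow (k + 1) t).const_mul (((k + 1) ! : ℝ)⁻¹)
      refine h3.congr_deriv ?_
      rw [Nat.factorial_succ]
      have : (k ! : ℝ) ≠ 0 := by exact_mod_cast Nat.factorial_ne_zero k
      push_cast
      have h4 : (k : ℝ) + 1 ≠ 0 := by positivity
      try rw [Nat.add_sub_cancel]
      field_simp
    exact h5.smul_const (Gn K q k (enl K D) (LF K q D f))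
  exact h2.const_add _

theorem IsSemigroup.taylor (hP : IsSemigroup K q P) (n : ℕ) : ∀ {D : Finset (Site d)}
    {f : C(Config d, ℝ)}, DependsOn f (D : Set (Site d)) → ∀ t : ℝ, 0 ≤ t →
    ‖P t.toNNReal f - Tay K q n D f t‖ ≤ (n ! : ℝ)⁻¹ * t ^ n * ‖Gn K q n D f‖ := by
  induction n with
  | zero =>
    intro D f _ t _
    simp only [Tay, Finset.range_zero, Finset.sum_empty, sub_zero, Nat.factorial_zero,
      Nat.cast_one, inv_one, pow_zero, one_mul]
    refine (hP.norm_le _ f).trans (le_of_eq ?_)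
    simp [Gn]
  | succ n ih =>
    intro D f h T hT
    have key := image_norm_le_of_norm_deriv_right_le_deriv_boundary
      (f := fun t : ℝ => P t.toNNReal f - Tay K q (n + 1) D f t)
      (f' := fun t : ℝ => P t.toNNReal (LF K q D f) - Tay K q n (enl K D) (LF K q D f) t)
      (a := 0) (b := T)
      (B := fun t => ((n + 1) ! : ℝ)⁻¹ * t ^ (n + 1) * ‖Gn K q (n + 1) D f‖)
      (B' := fun t => (n ! : ℝ)⁻¹ * t ^ n * ‖Gn K q (n + 1) D f‖) ?_ ?_ ?_ ?_ ?_
    · exact key ⟨hT, le_rfl⟩
    · apply ContinuousOn.sub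
      · exact (hP.continuousOn f).mono Set.Icc_subset_Ici_self
      · intro x _
        exact (hasDerivAt_Tay n h x).continuousAt.continuousWithinAt
    · intro x hx
      exact (hP.hasDerivWithinAt h hx.1).sub (hasDerivAt_Tay n h x).hasDerivWithinAt
    · have e1 : Tay K q (n + 1) D f 0 = f := by
        unfold Tay
        rw [Finset.sum_range_succ']
        simp [Gn]
      rw [e1, Real.toNNReal_zero, hP.zero]
      simp
    · intro x
      apply HasDerivAt.mul_const
      have h3 := (hasDerivAt_pow (n + 1) x).const_mul (((n + 1) ! : ℝ)⁻¹)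
      refine h3.congr_deriv ?_
      rw [Nat.factorial_succ]
      have : (n ! : ℝ) ≠ 0 := by exact_mod_cast Nat.factorial_ne_zero n
      push_cast
      have h4 : (n : ℝ) + 1 ≠ 0 := by positivity
      try rw [Nat.add_sub_cancel]
      field_simp
    · intro x hx
      have := ih (LF_dependsOn K q h D) x hx.1
      rw [Gn_succ n h]
      exact this

theorem IsSemigroup.eq_small (hP : IsSemigroup K q P) {t : ℝ≥0} (hk : kap K * t ≤ 1 / 2)
    (f : C(Config d, ℝ)) : P t f = PS K q t f := by
  have hloc : ∀ {D : Finset (Site d)} {g : C(Config d, ℝ)}, DependsOn g (D : Set (Site d)) →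
      P t g = PS K q t g := by
    intro D g h
    rw [PS_eq_tsum K q hk h]
    have h1 := (hasSum_Gn K q t.2 hk h).tendsto_sum_nat
    refine tendsto_nhds_unique (f := fun n => Tay K q n D g t) (l := atTop) ?_ h1
    rw [tendsto_iff_norm_sub_tendsto_zero]
    have h2 : Tendsto (fun n : ℕ => 2 ^ D.card * ‖g‖ * (1 / 2 : ℝ) ^ n) atTop (𝓝 0) :=
      (summable_bound (2 ^ D.card * ‖g‖)).tendsto_atTop_zero
    refine squeeze_zero (fun _ => norm_nonneg _) (fun n => ?_) h2
    have h3 := hP.taylor n h t t.2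
    rw [Real.toNNReal_coe] at h3
    rw [norm_sub_rev]
    refine h3.trans ?_
    have h4 := bound_term K t t.2 hk n D g _ (norm_Gn_le K q n h)
    rw [norm_smul, Real.norm_eq_abs, abs_of_nonneg (by positivity)] at h4
    exact h4
  have h1 : ∀ ε > 0, ‖P t f - PS K q t f‖ ≤ ε := by
    intro ε hε
    obtain ⟨g, ⟨D, hD⟩, hg⟩ := exists_local_near f (show 0 < ε / 2 by positivity)
    have h3 : P t f - PS K q t f = P t (f - g) - PS K q t (f - g) := by
      rw [map_sub, map_sub, hloc hD]
      abel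
    rw [h3]
    have h4 := hP.norm_le t (f - g)
    have h5 := norm_PS_le K q t (f - g)
    have h6 := norm_sub_le (P t (f - g)) (PS K q t (f - g))
    linarith
  have h8 : ‖P t f - PS K q t f‖ ≤ 0 := le_of_forall_pos_le_add (by
    intro ε hε
    rw [zero_add]
    exact h1 ε hε)
  exact sub_eq_zero.1 (norm_le_zero_iff.1 h8)

/-- The semigroup of the model is unique. -/
theorem IsSemigroup.eq_PS (hP : IsSemigroup K q P) : P = PS K q := by
  funext t
  ext1 f
  obtain ⟨N, hN, hk⟩ := exists_small K t t.2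
  have hk' : kap K * ((t / N : ℝ≥0) : ℝ) ≤ 1 / 2 := by
    push_cast
    exact hk
  have h2 : ∀ n : ℕ, ∀ g : C(Config d, ℝ), P (n * (t / N)) g = PS K q (n * (t / N)) g := by
    intro n
    induction n with
    | zero =>
      intro g
      rw [Nat.cast_zero, zero_mul, (isSemigroup_PS K q).zero, hP.zero]
    | succ n ih =>
      intro g
      have e : ((n + 1 : ℕ) : ℝ≥0) * (t / N) = n * (t / N) + t / N := by
        push_cast
        ring
      rw [e, (isSemigroup_PS K q).add, hP.add, ContinuousLinearMap.comp_apply,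
        ContinuousLinearMap.comp_apply, hP.eq_small hk', ih]
  have h3 := h2 N f
  have hN' : (N : ℝ≥0) ≠ 0 := by exact_mod_cast hN.ne'
  rwa [mul_div_cancel₀ _ hN'] at h3

/-- Existence and uniqueness of the semigroup. -/
theorem existsUnique_semigroup (K : KCM d) (q : I) : ∃! P, IsSemigroup K q P :=
  ⟨PS K q, isSemigroup_PS K q, fun _ hP => IsSemigroup.eq_PS hP⟩

end Pool.Agent.Y726.Kc
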