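import Pool.Agent.Y726.KCM.Rep
import Pool.Agent.Y726.KCM.Uniq

/-!
# Two stationary measures on one closure class
-/

set_option autoImplicit false

open MeasureTheory ProbabilityTheory Filter Topology unitInterval
open scoped NNReal ENNReal Nat

namespace Pool.Agent.Y726.Kc

/-- The local constraints: `η` is `1` on the outer layers, `0` on the two boundary layers, and no
two neighbouring sites of the two middle layers are occupied. -/
def Loc (η : Config 3) : Prop :=
  (∀ x : Site 3, (x 2 ≤ -2 ∨ 3 ≤ x 2) → η x = true) ∧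
  (∀ x : Site 3, (x 2 = -1 ∨ x 2 = 2) → η x = false) ∧
  (∀ x y : Site 3, (x 2 = 0 ∨ x 2 = 1) → (y 2 = 0 ∨ y 2 = 1) → Near x y →
    ¬ (η x = true ∧ η y = true))

theorem closure_true_of_frozen {η : Config 3}
    (h : ∀ x : Site 3, (x 2 ≤ -2 ∨ 3 ≤ x 2) → η x = true) {x : Site 3}
    (hx : x 2 ≤ -2 ∨ 3 ≤ x 2) : closure (FA 3) η x = true := by
  classical
  unfold closure
  rw [decide_eq_true_iff]
  have key : ∀ n : ℕ, ∀ x : Site 3, (x 2 ≤ -2 ∨ 3 ≤ x 2) → (step (FA 3))^[n] η x = true := by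
    intro n
    induction n with
    | zero => exact h
    | succ n ih =>
      intro x hx
      rw [Function.iterate_succ_apply']
      generalize (step (FA 3))^[n] η = ζ at ih
      unfold step
      have hN : Near x ![x 0 + 1, x 1, x 2] := by
        rw [near_iff]
        left
        simp [cell, nb]
      rw [if_neg]
      · exact ih x hx
      · have h2 := ih ![x 0 + 1, x 1, x 2] (by simpa using hx)
        rw [show (FA 3).c x ζ = 0 from c_FA_zero hN h2]
        exact lt_irrefl 0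
  exact fun n => key n x hx

theorem closure_le {d : ℕ} (K : KCM d) (η : Config d) {x : Site d} (h : η x = false) :
    closure K η x = false := by
  classical
  unfold closure
  rw [decide_eq_false_iff_not]
  intro h2
  have h3 := h2 0
  rw [Function.iterate_zero, id_eq, h] at h3
  exact Bool.false_ne_true h3

/-- The local constraints force the closure. -/
theorem closure_eq_of_loc {η : Config 3} (h : Loc η) : closure (FA 3) η = β₀ := by
  classical
  obtain ⟨h1, h2, h3⟩ := h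
  funext x
  unfold β₀
  by_cases hx : x 2 ≤ -2 ∨ 3 ≤ x 2
  · rw [closure_true_of_frozen h1 hx, decide_eq_true hx]
  · rw [decide_eq_false hx]
    by_cases hx' : x 2 = -1 ∨ x 2 = 2
    · exact closure_le _ _ (h2 x hx')
    · have hx'' : x 2 = 0 ∨ x 2 = 1 := by omega
      by_cases hηx : η x = true
      · have hc : (FA 3).c x η = 1 := by
          apply c_FA_one
          intro y hy
          by_cases hy2 : y 2 = -1 ∨ y 2 = 2
          · exact h2 y hy2
          · have h4 := near_iff.1 hy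
            have hy3 : y 2 = 0 ∨ y 2 = 1 := by omega
            have h5 := h3 x y hx'' hy3 hy
            by_contra hcon
            rw [Bool.not_eq_false] at hcon
            exact h5 ⟨hηx, hcon⟩
        unfold closure
        rw [decide_eq_false_iff_not]
        intro h6
        have h7 := h6 1
        rw [Function.iterate_one] at h7
        unfold step at h7
        rw [if_pos (by rw [hc]; exact one_pos)] at h7
        exact Bool.false_ne_true h7
      · exact closure_le _ _ (by simpa using hηx)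

theorem ae_of_integral_one {μ : Measure (Config 3)} [IsProbabilityMeasure μ]
    {S : Set (Config 3)} (hS : IsLocalEvent S)
    (h : ∫ η, S.indicator (fun _ => (1 : ℝ)) η ∂μ = 1) : ∀ᵐ η ∂μ, η ∈ S := by
  have h1 : μ.real S = 1 := by
    rw [← h]
    exact (integral_indicator_one hS.measurableSet).symm
  have h2 : μ S = 1 := by
    rw [measureReal_def] at h1
    rw [← ENNReal.ofReal_toReal (measure_ne_top μ S), h1, ENNReal.ofReal_one]
  rw [ae_iff]
  exact (prob_compl_eq_zero_iff hS.measurableSet).2 h2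

theorem ae_of_integral_zero {μ : Measure (Config 3)} [IsProbabilityMeasure μ]
    {S : Set (Config 3)} (hS : IsLocalEvent S)
    (h : ∫ η, S.indicator (fun _ => (1 : ℝ)) η ∂μ = 0) : ∀ᵐ η ∂μ, η ∉ S := by
  have h1 : μ.real S = 0 := by
    rw [← h]
    exact (integral_indicator_one hS.measurableSet).symm
  have h2 : μ S = 0 := by
    rw [measureReal_def] at h1
    exact (ENNReal.toReal_eq_zero_iff _).1 h1 |>.resolve_right (measure_ne_top μ S)
  rw [ae_iff]
  simpa using h2

theorem ae_loc {μ : Measure (Config 3)} [IsProbabilityMeasure μ]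
    (h3 : ∀ x : Site 3, (x 2 ≤ -2 ∨ 3 ≤ x 2) → ∫ η, coord x η ∂μ = 1)
    (h4 : ∀ x : Site 3, (x 2 = -1 ∨ x 2 = 2) → ∫ η, coord x η ∂μ = 0)
    (h5 : ∀ x y : Site 3, (x 2 = 0 ∨ x 2 = 1) → (y 2 = 0 ∨ y 2 = 1) → Near x y →
        ∫ η, (coord x * coord y) η ∂μ = 0) : ∀ᵐ η ∂μ, Loc η := by
  have a3 : ∀ᵐ η ∂μ, ∀ x : Site 3, (x 2 ≤ -2 ∨ 3 ≤ x 2) → η x = true := by
    rw [ae_all_iff]
    intro x
    by_cases hx : x 2 ≤ -2 ∨ 3 ≤ x 2
    · have := h3 x hx
      rw [coord_eq] at this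
      filter_upwards [ae_of_integral_one (local_one x) this] with η hη _
      exact hη
    · exact Eventually.of_forall fun β hh => absurd hh hx
  have a4 : ∀ᵐ η ∂μ, ∀ x : Site 3, (x 2 = -1 ∨ x 2 = 2) → η x = false := by
    rw [ae_all_iff]
    intro x
    by_cases hx : x 2 = -1 ∨ x 2 = 2
    · have := h4 x hx
      rw [coord_eq] at this
      filter_upwards [ae_of_integral_zero (local_one x) this] with η hη _
      rw [Bool.not_eq_true] at hη
      exact hη
    · exact Eventually.of_forall fun β hh => absurd hh hx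
  have a5 : ∀ᵐ η ∂μ, ∀ x y : Site 3, (x 2 = 0 ∨ x 2 = 1) → (y 2 = 0 ∨ y 2 = 1) → Near x y →
      ¬ (η x = true ∧ η y = true) := by
    rw [ae_all_iff]
    intro x
    rw [ae_all_iff]
    intro y
    by_cases hx : (x 2 = 0 ∨ x 2 = 1) ∧ (y 2 = 0 ∨ y 2 = 1) ∧ Near x y
    · have := h5 x y hx.1 hx.2.1 hx.2.2
      rw [coord_mul_eq] at this
      filter_upwards [ae_of_integral_zero (local_two x y) this] with η hη _ _ _
      exact hη
    · exact Eventually.of_forall fun β hh hh' hh'' => absurd ⟨hh, hh', hh''⟩ hx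
  filter_upwards [a3, a4, a5] with η b3 b4 b5
  exact ⟨b3, b4, b5⟩

theorem integral_local_event_mem {μ : Measure (Config 3)} [IsProbabilityMeasure μ]
    {S : Set (Config 3)} (hS : IsLocalEvent S) :
    0 ≤ ∫ η, S.indicator (fun _ => (1 : ℝ)) η ∂μ ∧ ∫ η, S.indicator (fun _ => (1 : ℝ)) η ∂μ ≤ 1 := by
  have h1 : ∫ η, S.indicator (fun _ => (1 : ℝ)) η ∂μ = μ.real S :=
    integral_indicator_one hS.measurableSet
  rw [h1]
  exact ⟨measureReal_nonneg, measureReal_le_one⟩

/-- Mixtures of any choice of one measure per closed configuration. -/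
theorem mixtureOf_eq {ν : Config 3 → Measure (Config 3)} {μ : Measure (Config 3)}
    (h3 : ∀ x : Site 3, (x 2 ≤ -2 ∨ 3 ≤ x 2) → ∫ η, coord x η ∂μ = 1)
    (h4 : ∀ x : Site 3, (x 2 = -1 ∨ x 2 = 2) → ∫ η, coord x η ∂μ = 0)
    (h5 : ∀ x y : Site 3, (x 2 = 0 ∨ x 2 = 1) → (y 2 = 0 ∨ y 2 = 1) → Near x y →
        ∫ η, (coord x * coord y) η ∂μ = 0)
    (hmix : IsMixtureOf (FA 3) ν μ) (f : Config 3 → ℝ) (hfl : IsLocal f) :
    ∫ η, f η ∂μ = ∫ η, f η ∂(ν β₀) := by
  obtain ⟨M, hMp, hM, hf⟩ := hmix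
  have one : ∀ {S : Set (Config 3)}, IsLocalEvent S →
      ∫ η, S.indicator (fun _ => (1 : ℝ)) η ∂μ = 1 →
      ∀ᵐ β ∂M, ∫ η, S.indicator (fun _ => (1 : ℝ)) η ∂(ν β) = 1 := by
    intro S hS h1
    obtain ⟨hm, hi⟩ := hf _ hS.isLocal
    rw [h1] at hi
    have hb : ∀ᵐ β ∂M, 0 ≤ ∫ η, S.indicator (fun _ => (1 : ℝ)) η ∂(ν β) ∧
        ∫ η, S.indicator (fun _ => (1 : ℝ)) η ∂(ν β) ≤ 1 := by
      filter_upwards [hM] with β hβ
      have := hβ.1
      exact integral_local_event_mem hS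
    have hint : Integrable (fun β => ∫ η, S.indicator (fun _ => (1 : ℝ)) η ∂(ν β)) M := by
      refine Integrable.of_bound hm.aestronglyMeasurable 1 ?_
      filter_upwards [hb] with β hβ
      rw [Real.norm_eq_abs, abs_le]
      constructor <;> linarith [hβ.1, hβ.2]
    have h3 : ∫ β, (1 - ∫ η, S.indicator (fun _ => (1 : ℝ)) η ∂(ν β)) ∂M = 0 := by
      rw [integral_sub (integrable_const _) hint, ← hi]
      simp
    have h2 : ∀ᵐ β ∂M, 0 ≤ 1 - ∫ η, S.indicator (fun _ => (1 : ℝ)) η ∂(ν β) := by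
      filter_upwards [hb] with β hβ
      linarith [hβ.2]
    rw [integral_eq_zero_iff_of_nonneg_ae h2 ((integrable_const _).sub hint)] at h3
    filter_upwards [h3] with β hβ
    have : 1 - ∫ η, S.indicator (fun _ => (1 : ℝ)) η ∂(ν β) = 0 := hβ
    linarith
  have zer : ∀ {S : Set (Config 3)}, IsLocalEvent S →
      ∫ η, S.indicator (fun _ => (1 : ℝ)) η ∂μ = 0 →
      ∀ᵐ β ∂M, ∫ η, S.indicator (fun _ => (1 : ℝ)) η ∂(ν β) = 0 := by
    intro S hS h1
    obtain ⟨hm, hi⟩ := hf _ hS.isLocal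
    rw [h1] at hi
    have hb : ∀ᵐ β ∂M, 0 ≤ ∫ η, S.indicator (fun _ => (1 : ℝ)) η ∂(ν β) ∧
        ∫ η, S.indicator (fun _ => (1 : ℝ)) η ∂(ν β) ≤ 1 := by
      filter_upwards [hM] with β hβ
      have := hβ.1
      exact integral_local_event_mem hS
    have hint : Integrable (fun β => ∫ η, S.indicator (fun _ => (1 : ℝ)) η ∂(ν β)) M := by
      refine Integrable.of_bound hm.aestronglyMeasurable 1 ?_
      filter_upwards [hb] with β hβ
      rw [Real.norm_eq_abs, abs_le]
      constructor <;> linarith [hβ.1, hβ.2]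
    have h3 := hi.symm
    have h2 : ∀ᵐ β ∂M, 0 ≤ ∫ η, S.indicator (fun _ => (1 : ℝ)) η ∂(ν β) := by
      filter_upwards [hb] with β hβ
      exact hβ.1
    rw [integral_eq_zero_iff_of_nonneg_ae h2 hint] at h3
    filter_upwards [h3] with β hβ
    exact hβ
  have a3 : ∀ᵐ β ∂M, ∀ x : Site 3, (x 2 ≤ -2 ∨ 3 ≤ x 2) → ∫ η, coord x η ∂(ν β) = 1 := by
    rw [ae_all_iff]
    intro x
    by_cases hx : x 2 ≤ -2 ∨ 3 ≤ x 2
    · have := h3 x hx
      rw [coord_eq] at this
      filter_upwards [one (local_one x) this] with β hβ _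
      rw [coord_eq]
      exact hβ
    · exact Eventually.of_forall fun β hh => absurd hh hx
  have a4 : ∀ᵐ β ∂M, ∀ x : Site 3, (x 2 = -1 ∨ x 2 = 2) → ∫ η, coord x η ∂(ν β) = 0 := by
    rw [ae_all_iff]
    intro x
    by_cases hx : x 2 = -1 ∨ x 2 = 2
    · have := h4 x hx
      rw [coord_eq] at this
      filter_upwards [zer (local_one x) this] with β hβ _
      rw [coord_eq]
      exact hβ
    · exact Eventually.of_forall fun β hh => absurd hh hx
  have a5 : ∀ᵐ β ∂M, ∀ x y : Site 3, (x 2 = 0 ∨ x 2 = 1) → (y 2 = 0 ∨ y 2 = 1) → Near x y →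
      ∫ η, (coord x * coord y) η ∂(ν β) = 0 := by
    rw [ae_all_iff]
    intro x
    rw [ae_all_iff]
    intro y
    by_cases hx : (x 2 = 0 ∨ x 2 = 1) ∧ (y 2 = 0 ∨ y 2 = 1) ∧ Near x y
    · have := h5 x y hx.1 hx.2.1 hx.2.2
      rw [coord_mul_eq] at this
      filter_upwards [zer (local_two x y) this] with β hβ _ _ _
      rw [coord_mul_eq]
      exact hβ
    · exact Eventually.of_forall fun β hh hh' hh'' => absurd ⟨hh, hh', hh''⟩ hx
  have hβ : ∀ᵐ β ∂M, β = β₀ := by
    filter_upwards [hM, a3, a4, a5] with β hβM b3 b4 b5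
    have := hβM.1
    have h6 := ae_loc b3 b4 b5
    have h7 : ∀ᵐ η ∂(ν β), β = β₀ := by
      filter_upwards [h6, hβM.2] with η h8 h9
      rw [← h9, closure_eq_of_loc h8]
    exact h7.exists.choose_spec
  rw [(hf f hfl).2]
  rw [integral_congr_ae (g := fun _ => ∫ η, f η ∂(ν β₀))]
  · simp
  · filter_upwards [hβ] with β hb
    rw [hb]

theorem isLocal_coord (x : Site 3) : IsLocal (coord x) := by
  have h : (coord x : Config 3 → ℝ) = ({η : Config 3 | η x = true} : Set (Config 3)).indicator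
      (fun _ => (1 : ℝ)) := coord_eq x
  rw [h]
  exact (local_one x).isLocal

theorem main (q : I) (h0 : 0 < (q : ℝ)) (h1 : (q : ℝ) ≤ 1 / 2593) :
    ∃ μ₀ μ₁ : Measure (Config 3), IsStationary (FA 3) q μ₀ ∧ IsStationary (FA 3) q μ₁ ∧
      (∀ᵐ η ∂μ₀, closure (FA 3) η = β₀) ∧ (∀ᵐ η ∂μ₁, closure (FA 3) η = β₀) ∧
      80 / 81 ≤ μ₀.real {η | η 0 = true} ∧ μ₁.real {η | η 0 = true} ≤ 1 / 81 ∧
      ¬ (IsMixture (FA 3) q μ₀ ∧ IsMixture (FA 3) q μ₁) ∧
      ∀ ν : Config 3 → Measure (Config 3),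
        ¬ (IsMixtureOf (FA 3) ν μ₀ ∧ IsMixtureOf (FA 3) ν μ₁) := by
  have hlam : ((1 - (q : ℝ)) / q) * q = 1 - q := div_mul_cancel₀ _ h0.ne'
  have hl : 2592 ≤ (1 - (q : ℝ)) / q := by
    rw [le_div_iff₀ h0]
    linarith
  obtain ⟨μ₀, hp0, g0, a3, a4, a5, a6, -⟩ := exists_measure hl hlam 0 (Or.inl rfl)
  obtain ⟨μ₁, hp1, g1, b3, b4, b5, -, b7⟩ := exists_measure hl hlam 1 (Or.inr rfl)
  rw [sub_self] at b7
  have e0 : org 0 = 0 := by
    funext i
    fin_cases i <;> rfl
  rw [e0] at a6 b7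
  have r0 : ∀ μ : Measure (Config 3), ∫ η, coord 0 η ∂μ = μ.real {η | η 0 = true} := by
    intro μ
    rw [coord_eq]
    exact integral_indicator_one (local_one 0).measurableSet
  refine ⟨μ₀, μ₁, isStationary_of_gen _ _ _ g0, isStationary_of_gen _ _ _ g1, ?_, ?_, ?_, ?_, ?_,
    ?_⟩
  · filter_upwards [ae_loc a3 a4 a5] with η hη
    exact closure_eq_of_loc hη
  · filter_upwards [ae_loc b3 b4 b5] with η hη
    exact closure_eq_of_loc hη
  · rw [← r0]
    exact a6
  · rw [← r0]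
    exact b7
  · rintro ⟨m0, m1⟩
    have c0 := mixture_eq a3 a4 a5 m0 _ (isLocal_coord 0)
    have c1 := mixture_eq b3 b4 b5 m1 _ (isLocal_coord 0)
    rw [c0] at a6
    rw [c1] at b7
    linarith
  · rintro ν ⟨m0, m1⟩
    have c0 := mixtureOf_eq a3 a4 a5 m0 _ (isLocal_coord 0)
    have c1 := mixtureOf_eq b3 b4 b5 m1 _ (isLocal_coord 0)
    rw [c0] at a6
    rw [c1] at b7
    linarith

end Pool.Agent.Y726.Kc
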