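import Pool.Agent.Y726.KCM.Semi

/-!
# Invariant measures and uniqueness of the semigroup
-/

set_option autoImplicit false

open MeasureTheory ProbabilityTheory Filter Topology unitInterval
open scoped NNReal ENNReal Nat

namespace Pool.Agent.Y726.Kc

variable {d : ℕ}

theorem integrable_C (μ : Measure (Config d)) [IsProbabilityMeasure μ] (f : C(Config d, ℝ)) :
    Integrable f μ :=
  f.continuous.integrable_of_hasCompactSupport (HasCompactSupport.of_compactSpace f)

/-- the integral as a continuous functional -/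
noncomputable def intL (μ : Measure (Config d)) [IsProbabilityMeasure μ] :
    C(Config d, ℝ) →L[ℝ] ℝ :=
  LinearMap.mkContinuous
    { toFun := fun f => ∫ η, f η ∂μ
      map_add' := by
        intro f g
        simp only [ContinuousMap.add_apply]
        exact integral_add (integrable_C μ f) (integrable_C μ g)
      map_smul' := by
        intro a f
        simp only [ContinuousMap.smul_apply, smul_eq_mul, RingHom.id_apply]
        exact integral_const_mul a _ }
    1 (fun f => by
      simp only [LinearMap.coe_mk, AddHom.coe_mk]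
      have h := norm_integral_le_of_norm_le_const (μ := μ) (f := f) (C := ‖f‖)
        (Eventually.of_forall fun η => f.norm_coe_le_norm η)
      simpa using h)

theorem intL_apply (μ : Measure (Config d)) [IsProbabilityMeasure μ] (f : C(Config d, ℝ)) :
    intL μ f = ∫ η, f η ∂μ := rfl

theorem norm_intL_le (μ : Measure (Config d)) [IsProbabilityMeasure μ] (f : C(Config d, ℝ)) :
    |intL μ f| ≤ ‖f‖ := by
  have h := (intL μ).le_of_opNorm_le (LinearMap.mkContinuous_norm_le _ (by norm_num) _) f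
  rwa [one_mul, Real.norm_eq_abs] at h

variable (K : KCM d) (q : I)

theorem PS_eq_tsum {t : ℝ≥0} (hk : kap K * t ≤ 1 / 2) {D : Finset (Site d)}
    {f : C(Config d, ℝ)} (h : DependsOn f (D : Set (Site d))) :
    PS K q t f = ∑' n : ℕ, ((n ! : ℝ)⁻¹ * (t : ℝ) ^ n) • Gn K q n D f :=
  tendsto_nhds_unique (tendsto_PS K q t f) (tendsto_TF_local K q t.2 hk h)

theorem enl_iter_subset_succ (n : ℕ) (D : Finset (Site d)) :
    (enl K)^[n] D ⊆ (enl K)^[n + 1] D := by
  rw [Function.iterate_succ_apply']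
  exact subset_enl K _

theorem intL_Gn (μ : Measure (Config d)) [IsProbabilityMeasure μ]
    (hμ : ∀ f : C(Config d, ℝ), IsLocal f → ∫ η, gen K q f η ∂μ = 0) (n : ℕ)
    {D : Finset (Site d)} {f : C(Config d, ℝ)} (h : DependsOn f (D : Set (Site d))) :
    intL μ (Gn K q (n + 1) D f) = 0 := by
  unfold Gn
  rw [pow_succ', mul_apply_eq_comp, intL_apply]
  have h1 := LF_pow_dependsOn K q ((enl K)^[n + 1] D) n h
  have h2 := hμ _ (isLocal_coe h1)
  rw [← h2]
  apply integral_congr_ae
  refine Eventually.of_forall fun η => ?_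
  exact (gen_eq_LF K q h1 (enl_iter_subset_succ K n D) η).symm

theorem intL_PS_local (μ : Measure (Config d)) [IsProbabilityMeasure μ]
    (hμ : ∀ f : C(Config d, ℝ), IsLocal f → ∫ η, gen K q f η ∂μ = 0) {t : ℝ≥0}
    (hk : kap K * t ≤ 1 / 2) {D : Finset (Site d)} {f : C(Config d, ℝ)}
    (h : DependsOn f (D : Set (Site d))) : intL μ (PS K q t f) = intL μ f := by
  rw [PS_eq_tsum K q hk h]
  have h1 := (intL μ).hasSum (hasSum_Gn K q t.2 hk h)
  have h2 : HasSum (fun n : ℕ => intL μ (((n ! : ℝ)⁻¹ * (t : ℝ) ^ n) • Gn K q n D f))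
      (intL μ (((0 ! : ℝ)⁻¹ * (t : ℝ) ^ 0) • Gn K q 0 D f)) := by
    apply hasSum_single 0
    intro n hn
    obtain ⟨m, rfl⟩ := Nat.exists_eq_succ_of_ne_zero hn
    rw [map_smul, Nat.succ_eq_add_one, intL_Gn K q μ hμ m h, smul_zero]
  have h3 := h1.unique h2
  refine h3.trans ?_
  simp [Gn]

theorem intL_PS_small (μ : Measure (Config d)) [IsProbabilityMeasure μ]
    (hμ : ∀ f : C(Config d, ℝ), IsLocal f → ∫ η, gen K q f η ∂μ = 0) {t : ℝ≥0}
    (hk : kap K * t ≤ 1 / 2) (f : C(Config d, ℝ)) : intL μ (PS K q t f) = intL μ f := by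
  have h1 : ∀ ε > 0, |intL μ (PS K q t f) - intL μ f| ≤ ε := by
    intro ε hε
    obtain ⟨g, ⟨D, hD⟩, hg⟩ := exists_local_near f (show 0 < ε / 2 by positivity)
    have h2 := intL_PS_local K q μ hμ hk hD
    have h3 : intL μ (PS K q t f) - intL μ f = intL μ (PS K q t (f - g)) - intL μ (f - g) := by
      rw [map_sub, map_sub, map_sub, h2]
      ring
    rw [h3]
    have h4 := norm_intL_le μ (PS K q t (f - g))
    have h5 := norm_intL_le μ (f - g)
    have h6 := norm_PS_le K q t (f - g)
    have h7 := abs_sub (intL μ (PS K q t (f - g))) (intL μ (f - g))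
    linarith
  have h8 : |intL μ (PS K q t f) - intL μ f| ≤ 0 := le_of_forall_pos_le_add (by
    intro ε hε
    rw [zero_add]
    exact h1 ε hε)
  have h9 := abs_nonpos_iff.1 h8
  linarith

theorem intL_PS (μ : Measure (Config d)) [IsProbabilityMeasure μ]
    (hμ : ∀ f : C(Config d, ℝ), IsLocal f → ∫ η, gen K q f η ∂μ = 0) (t : ℝ≥0)
    (f : C(Config d, ℝ)) : ∫ η, PS K q t f η ∂μ = ∫ η, f η ∂μ := by
  rw [← intL_apply, ← intL_apply]
  obtain ⟨N, hN, hk⟩ := exists_small K t t.2
  have hk' : kap K * ((t / N : ℝ≥0) : ℝ) ≤ 1 / 2 := by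
    push_cast
    exact hk
  have h2 : ∀ n : ℕ, ∀ g : C(Config d, ℝ), intL μ (PS K q (n * (t / N)) g) = intL μ g := by
    intro n
    induction n with
    | zero =>
      intro g
      rw [Nat.cast_zero, zero_mul, (isSemigroup_PS K q).zero]
      rfl
    | succ n ih =>
      intro g
      have e : ((n + 1 : ℕ) : ℝ≥0) * (t / N) = n * (t / N) + t / N := by
        push_cast
        ring
      rw [e, (isSemigroup_PS K q).add, ContinuousLinearMap.comp_apply, ih,
        intL_PS_small K q μ hμ hk']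
  have h3 := h2 N f
  have hN' : (N : ℝ≥0) ≠ 0 := by exact_mod_cast hN.ne'
  rwa [mul_div_cancel₀ _ hN'] at h3

/-- A probability measure with `∫ ℒ f dμ = 0` for all local `f` is stationary. -/
theorem isStationary_of_gen (μ : Measure (Config d)) [IsProbabilityMeasure μ]
    (hμ : ∀ f : C(Config d, ℝ), IsLocal f → ∫ η, gen K q f η ∂μ = 0) : IsStationary K q μ :=
  ⟨inferInstance, PS K q, isSemigroup_PS K q, intL_PS K q μ hμ⟩

end Pool.Agent.Y726.Kc
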