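import Pool.Agent.Y726.KCM.Hier
import Pool.Agent.Y726.KCM.Inv

/-!
# Finite volume measures for FA-6f on `ℤ ^ 3`
-/

set_option autoImplicit false

open MeasureTheory ProbabilityTheory Filter Topology unitInterval
open scoped NNReal ENNReal Nat

namespace Pool.Agent.Y726.Kc

/-- the cell of a site -/
def cell (x : Site 3) : Cell := (x 0, x 1)

/-- the sites of the first type in the slab -/
def TA (s : ℤ) (x : Site 3) : Prop := (x 0 + x 1 + x 2 + s) % 2 = 0

instance (s : ℤ) (x : Site 3) : Decidable (TA s x) := by unfold TA; infer_instance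

/-- the configuration of the pair `(a, b)` -/
def conf (s : ℤ) (Λ : Finset Cell) (p : Finset Cell × Finset Cell) : Config 3 := fun x =>
  if x 2 ≤ -2 ∨ 3 ≤ x 2 then true
  else if x 2 = -1 ∨ x 2 = 2 then false
  else if TA s x then decide (cell x ∈ p.1 ∨ cell x ∉ Λ) else decide (cell x ∈ p.2)

/-- the admissible pairs -/
def VV (Λ : Finset Cell) : Finset (Finset Cell × Finset Cell) :=
  (Λ.powerset ×ˢ Λ.powerset).filter
    (fun p => ∀ c ∈ p.2, c ∉ p.1 ∧ ∀ e ∈ nb c, e ∉ p.1 ∧ e ∈ Λ)

theorem mem_VV {Λ : Finset Cell} {p : Finset Cell × Finset Cell} : p ∈ VV Λ ↔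
    (p.1 ⊆ Λ ∧ p.2 ⊆ Λ) ∧ ∀ c ∈ p.2, c ∉ p.1 ∧ ∀ e ∈ nb c, e ∉ p.1 ∧ e ∈ Λ := by
  simp [VV]

theorem near_iff {x y : Site 3} : Near x y ↔
    (y 2 = x 2 ∧ cell y ∈ nb (cell x)) ∨
      (cell y = cell x ∧ (y 2 = x 2 + 1 ∨ y 2 = x 2 - 1)) := by
  unfold Near cell
  rw [Fin.sum_univ_three, mem_nb]
  simp only [Prod.mk.injEq]
  rcases abs_cases (y 0 - x 0) with ⟨h0, h0'⟩ | ⟨h0, h0'⟩ <;>
  rcases abs_cases (y 1 - x 1) with ⟨h1, h1'⟩ | ⟨h1, h1'⟩ <;>
  rcases abs_cases (y 2 - x 2) with ⟨h2, h2'⟩ | ⟨h2, h2'⟩ <;>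
  rw [h0, h1, h2] <;> omega

theorem site_ext {x y : Site 3} (h : cell x = cell y) (h2 : x 2 = y 2) : x = y := by
  unfold cell at h
  rw [Prod.mk.injEq] at h
  funext i
  fin_cases i
  · exact h.1
  · exact h.2
  · exact h2

theorem cell_mk (e : Cell) (z : ℤ) : cell ![e.1, e.2, z] = e := by
  simp [cell]

theorem c_FA_one {x : Site 3} {η : Config 3} (h : ∀ y, Near x y → η y = false) :
    (FA 3).c x η = 1 := if_pos h

theorem c_FA_zero {x y : Site 3} {η : Config 3} (h : Near x y) (hy : η y = true) :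
    (FA 3).c x η = 0 := if_neg fun h' => by
  rw [h' y h] at hy
  exact Bool.false_ne_true hy

section conf

variable {s : ℤ} {Λ : Finset Cell} {p : Finset Cell × Finset Cell}

theorem conf_true {x : Site 3} (h : x 2 ≤ -2 ∨ 3 ≤ x 2) : conf s Λ p x = true := if_pos h

theorem conf_false {x : Site 3} (h : x 2 = -1 ∨ x 2 = 2) : conf s Λ p x = false := by
  unfold conf
  rw [if_neg (by omega), if_pos h]

theorem conf_A {x : Site 3} (h : x 2 = 0 ∨ x 2 = 1) (hA : TA s x) :
    conf s Λ p x = decide (cell x ∈ p.1 ∨ cell x ∉ Λ) := by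
  unfold conf
  rw [if_neg (by omega), if_neg (by omega), if_pos hA]

theorem conf_B {x : Site 3} (h : x 2 = 0 ∨ x 2 = 1) (hA : ¬ TA s x) :
    conf s Λ p x = decide (cell x ∈ p.2) := by
  unfold conf
  rw [if_neg (by omega), if_neg (by omega), if_neg hA]

theorem TA_near {x y : Site 3} (h : Near x y) : TA s y ↔ ¬ TA s x := by
  rw [near_iff, mem_nb] at h
  unfold cell at h
  simp only [Prod.mk.injEq] at h
  unfold TA
  omega

/-- outside of the two middle layers the constraint is not satisfied -/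
theorem c_frozen {x : Site 3} (h : ¬ (x 2 = 0 ∨ x 2 = 1)) : (FA 3).c x (conf s Λ p) = 0 := by
  by_cases h1 : x 2 ≤ -2 ∨ 3 ≤ x 2
  · refine c_FA_zero (y := ![x 0 + 1, x 1, x 2]) ?_ (conf_true (by simpa using h1))
    rw [near_iff]
    left
    simp [cell, nb]
  · by_cases h2 : x 2 = 2
    · refine c_FA_zero (y := ![x 0, x 1, 3]) ?_ (conf_true (by simp))
      rw [near_iff]
      right
      simp [cell, h2]
    · refine c_FA_zero (y := ![x 0, x 1, -2]) ?_ (conf_true (by simp))
      rw [near_iff]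
      right
      have : x 2 = -1 := by omega
      simp [cell, this]

theorem c_A_zero {x : Site 3} (h : x 2 = 0 ∨ x 2 = 1) (hA : TA s x)
    (hb : ¬ (cell x ∉ p.2 ∧ ∀ e ∈ nb (cell x), e ∉ p.2)) : (FA 3).c x (conf s Λ p) = 0 := by
  by_cases h1 : cell x ∈ p.2
  · have hN : Near x ![x 0, x 1, 1 - x 2] := by
      rw [near_iff]
      right
      refine ⟨by simp [cell], ?_⟩
      simp only [Matrix.cons_val]
      omega
    refine c_FA_zero hN ?_
    rw [conf_B (by simp only [Matrix.cons_val]; omega) (by rw [TA_near hN]; exact not_not.2 hA)]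
    have e : cell ![x 0, x 1, 1 - x 2] = cell x := by simp [cell]
    rw [e]
    exact decide_eq_true h1
  · have h2 : ∃ e ∈ nb (cell x), e ∈ p.2 := by
      by_contra hcon
      push Not at hcon
      exact hb ⟨h1, hcon⟩
    obtain ⟨e, he, hep⟩ := h2
    have hN : Near x ![e.1, e.2, x 2] := by
      rw [near_iff, cell_mk]
      left
      exact ⟨by simp, he⟩
    refine c_FA_zero hN ?_
    rw [conf_B (by simpa using h) (by rw [TA_near hN]; exact not_not.2 hA), cell_mk]
    exact decide_eq_true hep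

theorem c_A_one {x : Site 3} (h : x 2 = 0 ∨ x 2 = 1) (hA : TA s x)
    (hb : cell x ∉ p.2 ∧ ∀ e ∈ nb (cell x), e ∉ p.2) : (FA 3).c x (conf s Λ p) = 1 := by
  apply c_FA_one
  intro y hy
  have hB : ¬ TA s y := by rw [TA_near hy]; exact not_not.2 hA
  by_cases hz : y 2 = 0 ∨ y 2 = 1
  · rw [conf_B hz hB, decide_eq_false_iff_not]
    rw [near_iff] at hy
    rcases hy with hy | hy
    · exact hb.2 _ hy.2
    · rw [hy.1]
      exact hb.1
  · apply conf_false
    rw [near_iff] at hy
    omega

theorem c_B_zero {x : Site 3} (h : x 2 = 0 ∨ x 2 = 1) (hA : ¬ TA s x)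
    (hb : ¬ (cell x ∉ p.1 ∧ ∀ e ∈ nb (cell x), e ∉ p.1)) : (FA 3).c x (conf s Λ p) = 0 := by
  by_cases h1 : cell x ∈ p.1
  · have hN : Near x ![x 0, x 1, 1 - x 2] := by
      rw [near_iff]
      right
      refine ⟨by simp [cell], ?_⟩
      simp only [Matrix.cons_val]
      omega
    refine c_FA_zero hN ?_
    rw [conf_A (by simp only [Matrix.cons_val]; omega) (by rw [TA_near hN]; exact hA)]
    have e : cell ![x 0, x 1, 1 - x 2] = cell x := by simp [cell]
    rw [e]
    exact decide_eq_true (Or.inl h1)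
  · have h2 : ∃ e ∈ nb (cell x), e ∈ p.1 := by
      by_contra hcon
      push Not at hcon
      exact hb ⟨h1, hcon⟩
    obtain ⟨e, he, hep⟩ := h2
    have hN : Near x ![e.1, e.2, x 2] := by
      rw [near_iff, cell_mk]
      left
      exact ⟨by simp, he⟩
    refine c_FA_zero hN ?_
    rw [conf_A (by simpa using h) (by rw [TA_near hN]; exact hA), cell_mk]
    exact decide_eq_true (Or.inl hep)

theorem c_B_one {x : Site 3} (h : x 2 = 0 ∨ x 2 = 1) (hA : ¬ TA s x)
    (hc : cell x ∈ Λ) (hn : ∀ e ∈ nb (cell x), e ∈ Λ)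
    (hb : cell x ∉ p.1 ∧ ∀ e ∈ nb (cell x), e ∉ p.1) : (FA 3).c x (conf s Λ p) = 1 := by
  apply c_FA_one
  intro y hy
  have hB : TA s y := by rw [TA_near hy]; exact hA
  by_cases hz : y 2 = 0 ∨ y 2 = 1
  · rw [conf_A hz hB, decide_eq_false_iff_not]
    rw [near_iff] at hy
    push Not
    rcases hy with hy | hy
    · exact ⟨hb.2 _ hy.2, hn _ hy.2⟩
    · rw [hy.1]
      exact ⟨hb.1, hc⟩
  · apply conf_false
    rw [near_iff] at hy
    omega

end conf

/-- the weight of a pair -/
noncomputable def wgt (lam : ℝ) (p : Finset Cell × Finset Cell) : ℝ := lam ^ (p.1.card + p.2.card)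

theorem card_symmDiff_singleton {a : Finset Cell} {c : Cell} :
    (c ∉ a → (symmDiff a {c}).card = a.card + 1) ∧ (c ∈ a → (symmDiff a {c}).card + 1 = a.card) := by
  constructor
  · intro h
    have : symmDiff a {c} = insert c a := by
      ext y
      rw [Finset.mem_symmDiff, Finset.mem_insert, Finset.mem_singleton]
      by_cases hy : y = c
      · subst hy; tauto
      · tauto
    rw [this, Finset.card_insert_of_notMem h]
  · intro h
    have : symmDiff a {c} = a.erase c := by
      ext y
      rw [Finset.mem_symmDiff, Finset.mem_erase, Finset.mem_singleton]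
      by_cases hy : y = c
      · subst hy; tauto
      · tauto
    rw [this, Finset.card_erase_add_one h]

theorem mem_symmDiff_singleton {a : Finset Cell} {c y : Cell} :
    y ∈ symmDiff a {c} ↔ (if y = c then y ∉ a else y ∈ a) := by
  rw [Finset.mem_symmDiff, Finset.mem_singleton]
  split_ifs with h
  · subst h; tauto
  · tauto

theorem symmDiff_symmDiff (a : Finset Cell) (c : Cell) : symmDiff (symmDiff a {c}) {c} = a := by
  rw [symmDiff_assoc, symmDiff_self, symmDiff_bot]

section balance

variable {s : ℤ} {Λ : Finset Cell} {q : I} {lam : ℝ} (hlam : lam * q = 1 - q)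

include hlam

theorem wt_balance {c : Cell} {a : Finset Cell} (m : ℕ) {u v : ℝ}
    (hu : u = if c ∈ a then (q : ℝ) else 1 - q) (hv : v = if c ∈ a then 1 - (q : ℝ) else q) :
    lam ^ (a.card + m) * u = lam ^ ((symmDiff a {c}).card + m) * v := by
  by_cases h : c ∈ a
  · rw [hu, hv, if_pos h, if_pos h, ← card_symmDiff_singleton.2 h]
    rw [show (symmDiff a {c}).card + 1 + m = (symmDiff a {c}).card + m + 1 by ring, pow_succ,
      mul_assoc, hlam]
  · rw [hu, hv, if_neg h, if_neg h, card_symmDiff_singleton.1 h]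
    rw [show a.card + 1 + m = a.card + m + 1 by ring, pow_succ, mul_assoc, hlam]

theorem balance_A {x : Site 3} (h : x 2 = 0 ∨ x 2 = 1) (hA : TA s x) (hc : cell x ∈ Λ)
    (F : Config 3 → ℝ) :
    ∑ p ∈ VV Λ, wgt lam p * (wt (FA 3) q x (conf s Λ p) *
      (F (flipAt (conf s Λ p) x) - F (conf s Λ p))) = 0 := by
  classical
  rw [← Finset.sum_filter_of_ne (p := fun p => cell x ∉ p.2 ∧ ∀ e ∈ nb (cell x), e ∉ p.2)]
  swap
  · intro p _ hne
    by_contra hb
    apply hne
    unfold wt
    rw [c_A_zero h hA hb]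
    ring
  have hflip : ∀ p : Finset Cell × Finset Cell,
      conf s Λ (symmDiff p.1 {cell x}, p.2) = flipAt (conf s Λ p) x := by
    intro p
    funext y
    by_cases hy : y = x
    · subst hy
      rw [flipAt_self, conf_A h hA, conf_A h hA]
      rw [← decide_not, decide_eq_decide]
      dsimp only
      rw [mem_symmDiff_singleton, if_pos rfl]
      tauto
    · rw [flipAt_of_ne _ hy]
      unfold conf
      split_ifs with h1 h2 h3
      · rfl
      · rfl
      · rw [decide_eq_decide]
        dsimp only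
        have : cell y ≠ cell x := by
          intro hcell
          apply hy
          have e0 : y 0 = x 0 := congrArg Prod.fst hcell
          have e1 : y 1 = x 1 := congrArg Prod.snd hcell
          unfold TA at h3 hA
          exact site_ext hcell (by omega)
        rw [mem_symmDiff_singleton, if_neg this]
      · rfl
  apply Finset.sum_involution (fun p _ => (symmDiff p.1 {cell x}, p.2))
  · intro p hp
    rw [Finset.mem_filter] at hp
    obtain ⟨hp, hb⟩ := hp
    have e1 : (FA 3).c x (conf s Λ (symmDiff p.1 {cell x}, p.2)) = 1 := c_A_one h hA hb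
    unfold wt wgt
    rw [c_A_one h hA hb, e1, hflip, flipAt_flipAt]
    have e2 := wt_balance (c := cell x) (a := p.1) hlam p.2.card
      (u := if conf s Λ p x = true then (q : ℝ) else 1 - q)
      (v := if flipAt (conf s Λ p) x x = true then (q : ℝ) else 1 - q) (by
        rw [conf_A h hA]
        simp [hc]) (by
        rw [flipAt_self, conf_A h hA]
        simp only [decide_eq_true_eq, Bool.not_eq_true', decide_eq_false_iff_not, hc,
          not_true_eq_false, or_false]
        split_ifs <;> simp_all)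
    dsimp only at e2 ⊢
    linear_combination (F (flipAt (conf s Λ p) x) - F (conf s Λ p)) * e2
  · intro p hp _ heq
    have h1 : symmDiff p.1 {cell x} = p.1 := congrArg Prod.fst heq
    have h2 := card_symmDiff_singleton (a := p.1) (c := cell x)
    rw [h1] at h2
    by_cases h3 : cell x ∈ p.1
    · have := h2.2 h3; omega
    · have := h2.1 h3; omega
  · intro p hp
    dsimp only
    rw [symmDiff_symmDiff]
  · intro p hp
    rw [Finset.mem_filter, mem_VV] at hp ⊢
    obtain ⟨⟨⟨hp1, hp2⟩, hp3⟩, hb1, hb2⟩ := hp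
    refine ⟨⟨⟨?_, hp2⟩, ?_⟩, hb1, hb2⟩
    · intro y hy
      dsimp only at hy
      rw [mem_symmDiff_singleton] at hy
      split_ifs at hy with h1
      · rw [h1]; exact hc
      · exact hp1 hy
    · intro c' hc'
      dsimp only at hc' ⊢
      have hne : c' ≠ cell x := fun h1 => hb1 (h1 ▸ hc')
      refine ⟨?_, ?_⟩
      · rw [mem_symmDiff_singleton, if_neg hne]
        exact (hp3 c' hc').1
      · intro e he
        refine ⟨?_, ((hp3 c' hc').2 e he).2⟩
        have hne' : e ≠ cell x := by
          intro h1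
          rw [h1] at he
          exact hb2 c' (nb_comm.1 he) hc'
        rw [mem_symmDiff_singleton, if_neg hne']
        exact ((hp3 c' hc').2 e he).1

theorem balance_B {x : Site 3} (h : x 2 = 0 ∨ x 2 = 1) (hA : ¬ TA s x) (hc : cell x ∈ Λ)
    (hn : ∀ e ∈ nb (cell x), e ∈ Λ) (F : Config 3 → ℝ) :
    ∑ p ∈ VV Λ, wgt lam p * (wt (FA 3) q x (conf s Λ p) *
      (F (flipAt (conf s Λ p) x) - F (conf s Λ p))) = 0 := by
  classical
  rw [← Finset.sum_filter_of_ne (p := fun p => cell x ∉ p.1 ∧ ∀ e ∈ nb (cell x), e ∉ p.1)]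
  swap
  · intro p _ hne
    by_contra hb
    apply hne
    unfold wt
    rw [c_B_zero h hA hb]
    ring
  have hflip : ∀ p : Finset Cell × Finset Cell,
      conf s Λ (p.1, symmDiff p.2 {cell x}) = flipAt (conf s Λ p) x := by
    intro p
    funext y
    by_cases hy : y = x
    · subst hy
      rw [flipAt_self, conf_B h hA, conf_B h hA]
      rw [← decide_not, decide_eq_decide]
      dsimp only
      rw [mem_symmDiff_singleton, if_pos rfl]
    · rw [flipAt_of_ne _ hy]
      unfold conf
      split_ifs with h1 h2 h3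
      · rfl
      · rfl
      · rfl
      · rw [decide_eq_decide]
        dsimp only
        have : cell y ≠ cell x := by
          intro hcell
          apply hy
          have e0 : y 0 = x 0 := congrArg Prod.fst hcell
          have e1 : y 1 = x 1 := congrArg Prod.snd hcell
          unfold TA at h3 hA
          exact site_ext hcell (by omega)
        rw [mem_symmDiff_singleton, if_neg this]
  apply Finset.sum_involution (fun p _ => (p.1, symmDiff p.2 {cell x}))
  · intro p hp
    rw [Finset.mem_filter] at hp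
    obtain ⟨hp, hb⟩ := hp
    have e1 : (FA 3).c x (conf s Λ (p.1, symmDiff p.2 {cell x})) = 1 := c_B_one h hA hc hn hb
    unfold wt wgt
    rw [c_B_one h hA hc hn hb, e1, hflip, flipAt_flipAt]
    have e2 := wt_balance (c := cell x) (a := p.2) hlam p.1.card
      (u := if conf s Λ p x = true then (q : ℝ) else 1 - q)
      (v := if flipAt (conf s Λ p) x x = true then (q : ℝ) else 1 - q) (by
        rw [conf_B h hA]
        simp) (by
        rw [flipAt_self, conf_B h hA]
        simp only [decide_eq_true_eq, Bool.not_eq_true', decide_eq_false_iff_not]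
        split_ifs <;> simp_all)
    dsimp only at e2 ⊢
    rw [add_comm p.1.card, add_comm p.1.card]
    linear_combination (F (flipAt (conf s Λ p) x) - F (conf s Λ p)) * e2
  · intro p hp _ heq
    have h1 : symmDiff p.2 {cell x} = p.2 := congrArg Prod.snd heq
    have h2 := card_symmDiff_singleton (a := p.2) (c := cell x)
    rw [h1] at h2
    by_cases h3 : cell x ∈ p.2
    · have := h2.2 h3; omega
    · have := h2.1 h3; omega
  · intro p hp
    dsimp only
    rw [symmDiff_symmDiff]
  · intro p hp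
    rw [Finset.mem_filter, mem_VV] at hp ⊢
    obtain ⟨⟨⟨hp1, hp2⟩, hp3⟩, hb1, hb2⟩ := hp
    refine ⟨⟨⟨hp1, ?_⟩, ?_⟩, hb1, hb2⟩
    · intro y hy
      dsimp only at hy
      rw [mem_symmDiff_singleton] at hy
      split_ifs at hy with h1
      · rw [h1]; exact hc
      · exact hp2 hy
    · intro c' hc'
      dsimp only at hc' ⊢
      rw [mem_symmDiff_singleton] at hc'
      split_ifs at hc' with h1
      · rw [h1]
        exact ⟨hb1, fun e he => ⟨hb2 e he, hn e he⟩⟩
      · exact hp3 c' hc'

theorem balance (x : Site 3) (hc : cell x ∈ Λ) (hn : ∀ e ∈ nb (cell x), e ∈ Λ)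
    (F : Config 3 → ℝ) :
    ∑ p ∈ VV Λ, wgt lam p * (wt (FA 3) q x (conf s Λ p) *
      (F (flipAt (conf s Λ p) x) - F (conf s Λ p))) = 0 := by
  by_cases h : x 2 = 0 ∨ x 2 = 1
  · by_cases hA : TA s x
    · exact balance_A hlam h hA hc F
    · exact balance_B hlam h hA hc hn F
  · apply Finset.sum_eq_zero
    intro p _
    unfold wt
    rw [c_frozen h]
    ring

end balance

/-- sums over pairs and sums over colourings -/
theorem sum_VV (Λ : Finset Cell) (F : Finset Cell × Finset Cell → ℝ) :
    ∑ p ∈ VV Λ, F p = ∑ ω ∈ Λ.powerset, ∑ b ∈ Cl Λ ω, F (ω \ b, b) := by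
  classical
  rw [Finset.sum_sigma']
  refine Finset.sum_bij' (fun p _ => (⟨p.1 ∪ p.2, p.2⟩ : (_ : Finset Cell) × Finset Cell))
    (fun r _ => (r.1 \ r.2, r.2)) ?_ ?_ ?_ ?_ ?_
  · intro p hp
    rw [mem_VV] at hp
    rw [Finset.mem_sigma, Finset.mem_powerset, mem_Cl]
    dsimp only
    refine ⟨Finset.union_subset hp.1.1 hp.1.2, Finset.subset_union_right, ?_⟩
    intro c hc e he
    have h1 := (hp.2 c hc).2 e he
    refine ⟨h1.2, fun h2 => ?_⟩
    rw [Finset.mem_union] at h2
    rcases h2 with h2 | h2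
    · exact absurd h2 h1.1
    · exact h2
  · rintro ⟨ω, b⟩ hr
    rw [Finset.mem_sigma, Finset.mem_powerset, mem_Cl] at hr
    dsimp only at hr ⊢
    obtain ⟨h1, h2, h3⟩ := hr
    rw [mem_VV]
    dsimp only
    refine ⟨⟨Finset.sdiff_subset.trans h1, h2.trans h1⟩, ?_⟩
    intro c hc
    refine ⟨fun h4 => (Finset.mem_sdiff.1 h4).2 hc, ?_⟩
    intro e he
    refine ⟨fun h4 => ?_, (h3 c hc e he).1⟩
    rw [Finset.mem_sdiff] at h4
    exact h4.2 ((h3 c hc e he).2 h4.1)
  · intro p hp
    rw [mem_VV] at hp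
    dsimp only
    ext y
    · rw [Finset.mem_sdiff, Finset.mem_union]
      constructor
      · rintro ⟨h1 | h1, h2⟩
        · exact h1
        · exact absurd h1 h2
      · intro h1
        exact ⟨Or.inl h1, fun h2 => (hp.2 y h2).1 h1⟩
    · rfl
  · rintro ⟨ω, b⟩ hr
    rw [Finset.mem_sigma, Finset.mem_powerset, mem_Cl] at hr
    dsimp only at hr ⊢
    rw [Finset.sdiff_union_of_subset hr.2.1]
  · intro p hp
    rw [mem_VV] at hp
    dsimp only
    congr 1
    ext y
    · rw [Finset.mem_sdiff, Finset.mem_union]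
      constructor
      · intro h1
        exact ⟨Or.inl h1, fun h2 => (hp.2 y h2).1 h1⟩
      · rintro ⟨h1 | h1, h2⟩
        · exact h1
        · exact absurd h1 h2
    · rfl

theorem card_split {ω b : Finset Cell} (h : b ⊆ ω) : (ω \ b).card + b.card = ω.card :=
  Finset.card_sdiff_add_card_eq_card h

/-- the partition function -/
noncomputable def ZZ (lam : ℝ) (Λ : Finset Cell) : ℝ := ∑ p ∈ VV Λ, wgt lam p

theorem ZZ_eq (lam : ℝ) (Λ : Finset Cell) : ZZ lam Λ = Zw lam Λ ∅ := by
  classical
  unfold ZZ Zw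
  rw [sum_VV]
  have : Λ.powerset.filter (fun ω => Disjoint ∅ ω) = Λ.powerset := by
    apply Finset.filter_true_of_mem
    intro ω _
    exact Finset.disjoint_empty_left _
  rw [this]
  apply Finset.sum_congr rfl
  intro ω _
  rw [Finset.sum_congr rfl (g := fun _ => lam ^ ω.card)]
  · rw [Finset.sum_const, nsmul_eq_mul, mul_comm]
  · intro b hb
    unfold wgt
    dsimp only
    rw [card_split (mem_Cl.1 hb).1]

theorem ZZ_bad (lam : ℝ) (K : ℕ) :
    ∑ p ∈ VV (bx K) with (0 : Cell) ∉ p.1, wgt lam p = Zbad lam K := by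
  classical
  unfold Zbad
  rw [Finset.sum_filter, sum_VV]
  apply Finset.sum_congr rfl
  intro ω _
  rw [Finset.card_filter, Nat.cast_sum, Finset.mul_sum]
  apply Finset.sum_congr rfl
  intro b hb
  dsimp only
  by_cases h : (0 : Cell) ∈ ω ∧ (0 : Cell) ∉ b
  · rw [if_neg, if_neg (not_not.2 h)]
    · simp
    · rw [not_not, Finset.mem_sdiff]
      exact h
  · rw [if_pos, if_pos h]
    · unfold wgt
      dsimp only
      rw [card_split (mem_Cl.1 hb).1]
      simp
    · rw [Finset.mem_sdiff]
      exact h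

end Pool.Agent.Y726.Kc
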