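import Pool.Agent.Y726.KCM.WR

/-!
# Hierarchically good boxes

Boxes of level `k` have side length `3 ^ k`; the box of level `k + 1` with index `b` consists of the
nine boxes of level `k` with indices in `sub b`.  A cell is good if it is in `ω`, and a box of level
`k + 1` is good if at most one of its nine parts is not good.
-/

set_option autoImplicit false

namespace Pool.Agent.Y726.Kc

/-- The indices of the nine parts of a box. -/
def sub (b : Cell) : Finset Cell :=
  (({-1, 0, 1} : Finset ℤ) ×ˢ ({-1, 0, 1} : Finset ℤ)).image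
    (fun p => (3 * b.1 + p.1, 3 * b.2 + p.2))

theorem mem_sub {b s : Cell} : s ∈ sub b ↔
    (3 * b.1 - 1 ≤ s.1 ∧ s.1 ≤ 3 * b.1 + 1) ∧ (3 * b.2 - 1 ≤ s.2 ∧ s.2 ≤ 3 * b.2 + 1) := by
  rcases b with ⟨b1, b2⟩
  rcases s with ⟨s1, s2⟩
  simp only [sub, Finset.mem_image, Finset.mem_product, Finset.mem_insert, Finset.mem_singleton,
    Prod.exists, Prod.mk.injEq]
  constructor
  · rintro ⟨i, j, ⟨hi, hj⟩, h1, h2⟩
    omega
  · rintro ⟨h1, h2⟩
    exact ⟨s1 - 3 * b1, s2 - 3 * b2, by omega, by omega, by omega⟩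

theorem card_sub_le (b : Cell) : (sub b).card ≤ 9 := by
  unfold sub
  refine Finset.card_image_le.trans ?_
  rw [Finset.card_product]
  decide

/-- Good boxes. -/
def Good (ω : Finset Cell) : ℕ → Cell → Prop
  | 0, b => b ∈ ω
  | k + 1, b => ∀ s ∈ sub b, ∀ t ∈ sub b, ¬ Good ω k s → ¬ Good ω k t → s = t

/-- The core of a good box. -/
def Core (ω : Finset Cell) : ℕ → Cell → Cell → Prop
  | 0, b, x => x = b
  | k + 1, b, x => ∃ s ∈ sub b, Good ω k s ∧ Core ω k s x

theorem core_mem {ω : Finset Cell} : ∀ (k : ℕ) (b x : Cell), Good ω k b → Core ω k b x → x ∈ ω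
  | 0, b, x, hg, hc => by
    have hc' : x = b := hc
    rw [hc']
    exact hg
  | k + 1, b, x, _, hc => by
    obtain ⟨s, _, hs, hc'⟩ := hc
    exact core_mem k s x hs hc'

/-- A good box has a part of its core on its left side. -/
theorem core_left {ω : Finset Cell} : ∀ (k : ℕ) (b : Cell), Good ω k b →
    ∃ x, Core ω k b x ∧ 2 * x.1 = 2 * 3 ^ k * b.1 - 3 ^ k + 1
  | 0, b, _ => ⟨b, rfl, by ring⟩
  | k + 1, b, hg => by
    have key : ∃ s ∈ sub b, s.1 = 3 * b.1 - 1 ∧ Good ω k s := by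
      by_contra hcon
      push Not at hcon
      have h0 := hcon (3 * b.1 - 1, 3 * b.2) (by rw [mem_sub]; dsimp only; omega) rfl
      have h1 := hcon (3 * b.1 - 1, 3 * b.2 + 1) (by rw [mem_sub]; dsimp only; omega) rfl
      have h2 := hg _ (by rw [mem_sub]; dsimp only; omega) _ (by rw [mem_sub]; dsimp only; omega)
        h0 h1
      simp at h2
    obtain ⟨s, hs, hs1, hsg⟩ := key
    obtain ⟨x, hx, hx1⟩ := core_left k s hsg
    refine ⟨x, ⟨s, hs, hsg, hx⟩, ?_⟩
    rw [hx1, hs1, pow_succ]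
    ring

theorem core_nonempty {ω : Finset Cell} (k : ℕ) (b : Cell) (hg : Good ω k b) :
    ∃ x, Core ω k b x := by
  obtain ⟨x, hx, -⟩ := core_left k b hg
  exact ⟨x, hx⟩

/-- The three by three grid without one vertex is connected. -/
theorem grid (P R : ℤ → ℤ → Prop)
    (h1 : ∀ i j : ℤ, -1 ≤ i → i ≤ 0 → -1 ≤ j → j ≤ 1 → P i j → P (i + 1) j → (R i j ↔ R (i + 1) j))
    (h2 : ∀ i j : ℤ, -1 ≤ i → i ≤ 1 → -1 ≤ j → j ≤ 0 → P i j → P i (j + 1) → (R i j ↔ R i (j + 1)))
    (h3 : ∀ i j i' j' : ℤ, -1 ≤ i → i ≤ 1 → -1 ≤ j → j ≤ 1 → -1 ≤ i' → i' ≤ 1 → -1 ≤ j' → j' ≤ 1 →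
      ¬ P i j → ¬ P i' j' → i = i' ∧ j = j') :
    ∀ i j i' j' : ℤ, -1 ≤ i → i ≤ 1 → -1 ≤ j → j ≤ 1 → -1 ≤ i' → i' ≤ 1 → -1 ≤ j' → j' ≤ 1 →
      P i j → P i' j' → (R i j ↔ R i' j') := by
  have a1 := h1 (-1) (-1) (by norm_num) (by norm_num) (by norm_num) (by norm_num)
  have a2 := h1 (-1) 0 (by norm_num) (by norm_num) (by norm_num) (by norm_num)
  have a3 := h1 (-1) 1 (by norm_num) (by norm_num) (by norm_num) (by norm_num)
  have a4 := h1 0 (-1) (by norm_num) (by norm_num) (by norm_num) (by norm_num)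
  have a5 := h1 0 0 (by norm_num) (by norm_num) (by norm_num) (by norm_num)
  have a6 := h1 0 1 (by norm_num) (by norm_num) (by norm_num) (by norm_num)
  have b1 := h2 (-1) (-1) (by norm_num) (by norm_num) (by norm_num) (by norm_num)
  have b2 := h2 0 (-1) (by norm_num) (by norm_num) (by norm_num) (by norm_num)
  have b3 := h2 1 (-1) (by norm_num) (by norm_num) (by norm_num) (by norm_num)
  have b4 := h2 (-1) 0 (by norm_num) (by norm_num) (by norm_num) (by norm_num)
  have b5 := h2 0 0 (by norm_num) (by norm_num) (by norm_num) (by norm_num)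
  have b6 := h2 1 0 (by norm_num) (by norm_num) (by norm_num) (by norm_num)
  norm_num at a1 a2 a3 a4 a5 a6 b1 b2 b3 b4 b5 b6
  classical
  have key : ∀ i j : ℤ, -1 ≤ i → i ≤ 1 → -1 ≤ j → j ≤ 1 → P i j →
      (R i j ↔ (if P 0 0 then R 0 0 else R 1 1)) := by
    intro i j hi hi' hj hj' hP
    split_ifs with hc
    · -- centre good
      have e : (i = -1 ∨ i = 0 ∨ i = 1) ∧ (j = -1 ∨ j = 0 ∨ j = 1) := by omega
      obtain ⟨rfl | rfl | rfl, rfl | rfl | rfl⟩ := e
      · have h4 : P (-1) 0 ∨ P 0 (-1) := by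
          by_contra hcon
          push Not at hcon
          have := h3 (-1) 0 0 (-1) (by norm_num) (by norm_num) (by norm_num) (by norm_num)
            (by norm_num) (by norm_num) (by norm_num) (by norm_num) hcon.1 hcon.2
          norm_num at this
        rcases h4 with h | h
        · exact (b1 hP h).trans (a2 h hc)
        · exact (a1 hP h).trans (b2 h hc)
      · exact a2 hP hc
      · have h4 : P (-1) 0 ∨ P 0 1 := by
          by_contra hcon
          push Not at hcon
          have := h3 (-1) 0 0 1 (by norm_num) (by norm_num) (by norm_num) (by norm_num)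
            (by norm_num) (by norm_num) (by norm_num) (by norm_num) hcon.1 hcon.2
          norm_num at this
        rcases h4 with h | h
        · exact (b4 h hP).symm.trans (a2 h hc)
        · exact (a3 hP h).trans (b5 hc h).symm
      · exact b2 hP hc
      · exact Iff.rfl
      · exact (b5 hc hP).symm
      · have h4 : P 1 0 ∨ P 0 (-1) := by
          by_contra hcon
          push Not at hcon
          have := h3 1 0 0 (-1) (by norm_num) (by norm_num) (by norm_num) (by norm_num)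
            (by norm_num) (by norm_num) (by norm_num) (by norm_num) hcon.1 hcon.2
          norm_num at this
        rcases h4 with h | h
        · exact (b3 hP h).trans (a5 hc h).symm
        · exact (a4 h hP).symm.trans (b2 h hc)
      · exact (a5 hc hP).symm
      · have h4 : P 1 0 ∨ P 0 1 := by
          by_contra hcon
          push Not at hcon
          have := h3 1 0 0 1 (by norm_num) (by norm_num) (by norm_num) (by norm_num)
            (by norm_num) (by norm_num) (by norm_num) (by norm_num) hcon.1 hcon.2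
          norm_num at this
        rcases h4 with h | h
        · exact (b6 h hP).symm.trans (a5 hc h).symm
        · exact (a6 h hP).symm.trans (b5 hc h).symm
    · have hall : ∀ i j : ℤ, -1 ≤ i → i ≤ 1 → -1 ≤ j → j ≤ 1 → ¬ (i = 0 ∧ j = 0) → P i j := by
        intro i j k1 k2 k3 k4 hne
        by_contra hcon
        exact hne (h3 i j 0 0 k1 k2 k3 k4 (by norm_num) (by norm_num) (by norm_num) (by norm_num)
          hcon hc)
      have p1 := hall (-1) (-1) (by norm_num) (by norm_num) (by norm_num) (by norm_num) (by norm_num)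
      have p2 := hall (-1) 0 (by norm_num) (by norm_num) (by norm_num) (by norm_num) (by norm_num)
      have p3 := hall (-1) 1 (by norm_num) (by norm_num) (by norm_num) (by norm_num) (by norm_num)
      have p4 := hall 0 (-1) (by norm_num) (by norm_num) (by norm_num) (by norm_num) (by norm_num)
      have p6 := hall 0 1 (by norm_num) (by norm_num) (by norm_num) (by norm_num) (by norm_num)
      have p7 := hall 1 (-1) (by norm_num) (by norm_num) (by norm_num) (by norm_num) (by norm_num)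
      have p8 := hall 1 0 (by norm_num) (by norm_num) (by norm_num) (by norm_num) (by norm_num)
      have p9 := hall 1 1 (by norm_num) (by norm_num) (by norm_num) (by norm_num) (by norm_num)
      have q1 := a1 p1 p4
      have q3 := a3 p3 p6
      have q4 := a4 p4 p7
      have q6 := a6 p6 p9
      have r1 := b1 p1 p2
      have r3 := b3 p7 p8
      have r4 := b4 p2 p3
      have r6 := b6 p8 p9
      clear a1 a2 a3 a4 a5 a6 b1 b2 b3 b4 b5 b6 h1 h2 h3 hall
      have e : (i = -1 ∨ i = 0 ∨ i = 1) ∧ (j = -1 ∨ j = 0 ∨ j = 1) := by omega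
      obtain ⟨rfl | rfl | rfl, rfl | rfl | rfl⟩ := e
      · exact r1.trans (r4.trans (q3.trans q6))
      · exact r4.trans (q3.trans q6)
      · exact q3.trans q6
      · exact q4.trans (r3.trans r6)
      · exact absurd hP hc
      · exact q6
      · exact r3.trans r6
      · exact r6
      · exact Iff.rfl
  intro i j i' j' k1 k2 k3 k4 k5 k6 k7 k8 hP hP'
  rw [key i j k1 k2 k3 k4 hP, key i' j' k5 k6 k7 k8 hP']

theorem core_color {Λ ω b : Finset Cell} (hb : b ∈ Cl Λ ω) : ∀ k : ℕ,
    (∀ s, Good ω k s → ∀ x y, Core ω k s x → Core ω k s y → (x ∈ b ↔ y ∈ b)) ∧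
    (∀ s t, t ∈ nb s → Good ω k s → Good ω k t → ∀ x y, Core ω k s x → Core ω k t y →
      (x ∈ b ↔ y ∈ b)) := by
  intro k
  induction k with
  | zero =>
    constructor
    · intro s _ x y hx hy
      have hx' : x = s := hx
      have hy' : y = s := hy
      rw [hx', hy']
    · intro s t hst hs ht x y hx hy
      have hx' : x = s := hx
      have hy' : y = t := hy
      rw [hx', hy']
      exact Cl_color hb hs ht hst
  | succ k ih =>
    obtain ⟨ih1, ih2⟩ := ih
    have A : ∀ u, Good ω (k + 1) u → ∀ x y, Core ω (k + 1) u x → Core ω (k + 1) u y →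
        (x ∈ b ↔ y ∈ b) := by
      intro u hu x y hx hy
      obtain ⟨s, hs, hsg, hsx⟩ := hx
      obtain ⟨t, ht, htg, hty⟩ := hy
      have hmem : ∀ i j : ℤ, -1 ≤ i → i ≤ 1 → -1 ≤ j → j ≤ 1 →
          ((3 * u.1 + i, 3 * u.2 + j) : Cell) ∈ sub u := by
        intro i j h1 h2 h3 h4
        rw [mem_sub]
        dsimp only
        omega
      have hRR : ∀ v : Cell, Good ω k v → ∀ z, Core ω k v z →
          ((∃ z', Core ω k v z' ∧ z' ∈ b) ↔ z ∈ b) := by
        intro v hv z hz
        constructor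
        · rintro ⟨z', hz', hzb⟩
          exact (ih1 v hv z' z hz' hz).1 hzb
        · intro hzb
          exact ⟨z, hz, hzb⟩
      have G := grid (fun i j => Good ω k (3 * u.1 + i, 3 * u.2 + j))
        (fun i j => ∃ z, Core ω k (3 * u.1 + i, 3 * u.2 + j) z ∧ z ∈ b)
        (by
          intro i j _ _ _ _ hP hP'
          obtain ⟨z, hz⟩ := core_nonempty k _ hP
          obtain ⟨z', hz'⟩ := core_nonempty k _ hP'
          rw [hRR _ hP z hz, hRR _ hP' z' hz']
          refine ih2 _ _ ?_ hP hP' z z' hz hz'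
          rw [mem_nb]
          left
          ext <;> dsimp only <;> ring)
        (by
          intro i j _ _ _ _ hP hP'
          obtain ⟨z, hz⟩ := core_nonempty k _ hP
          obtain ⟨z', hz'⟩ := core_nonempty k _ hP'
          rw [hRR _ hP z hz, hRR _ hP' z' hz']
          refine ih2 _ _ ?_ hP hP' z z' hz hz'
          rw [mem_nb]
          right; right; left
          ext <;> dsimp only <;> ring)
        (by
          intro i j i' j' k1 k2 k3 k4 k5 k6 k7 k8 hP hP'
          have := hu _ (hmem i j k1 k2 k3 k4) _ (hmem i' j' k5 k6 k7 k8) hP hP'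
          rw [Prod.mk.injEq] at this
          omega)
      have hs' := mem_sub.1 hs
      have ht' := mem_sub.1 ht
      have G' := G (s.1 - 3 * u.1) (s.2 - 3 * u.2) (t.1 - 3 * u.1) (t.2 - 3 * u.2)
        (by omega) (by omega) (by omega) (by omega) (by omega) (by omega) (by omega) (by omega)
      have es : ((3 * u.1 + (s.1 - 3 * u.1), 3 * u.2 + (s.2 - 3 * u.2)) : Cell) = s := by
        ext <;> dsimp only <;> ring
      have et : ((3 * u.1 + (t.1 - 3 * u.1), 3 * u.2 + (t.2 - 3 * u.2)) : Cell) = t := by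
        ext <;> dsimp only <;> ring
      rw [es, et] at G'
      rw [← hRR s hsg x hsx, ← hRR t htg y hty]
      exact G' hsg htg
    have B : ∀ s t : Cell, Good ω (k + 1) s → Good ω (k + 1) t → ∀ e f : ℤ → Cell,
        (∀ j, -1 ≤ j → j ≤ 1 → e j ∈ sub s ∧ f j ∈ sub t ∧ f j ∈ nb (e j)) →
        (∀ i j, e i = e j → i = j) → (∀ i j, f i = f j → i = j) →
        ∀ x y, Core ω (k + 1) s x → Core ω (k + 1) t y → (x ∈ b ↔ y ∈ b) := by
      intro s t hs ht e f hef he hf x y hx hy
      have key : ∃ j : ℤ, -1 ≤ j ∧ j ≤ 1 ∧ Good ω k (e j) ∧ Good ω k (f j) := by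
        by_contra hcon
        push Not at hcon
        have m1 := hef (-1) (by norm_num) (by norm_num)
        have m2 := hef 0 (by norm_num) (by norm_num)
        have m3 := hef 1 (by norm_num) (by norm_num)
        have n1 := hcon (-1) (by norm_num) (by norm_num)
        have n2 := hcon 0 (by norm_num) (by norm_num)
        have n3 := hcon 1 (by norm_num) (by norm_num)
        have E12 : ¬ (¬ Good ω k (e (-1)) ∧ ¬ Good ω k (e 0)) := fun h => by
          have := he _ _ (hs _ m1.1 _ m2.1 h.1 h.2); omega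
        have E13 : ¬ (¬ Good ω k (e (-1)) ∧ ¬ Good ω k (e 1)) := fun h => by
          have := he _ _ (hs _ m1.1 _ m3.1 h.1 h.2); omega
        have E23 : ¬ (¬ Good ω k (e 0) ∧ ¬ Good ω k (e 1)) := fun h => by
          have := he _ _ (hs _ m2.1 _ m3.1 h.1 h.2); omega
        have F12 : ¬ (¬ Good ω k (f (-1)) ∧ ¬ Good ω k (f 0)) := fun h => by
          have := hf _ _ (ht _ m1.2.1 _ m2.2.1 h.1 h.2); omega
        have F13 : ¬ (¬ Good ω k (f (-1)) ∧ ¬ Good ω k (f 1)) := fun h => by
          have := hf _ _ (ht _ m1.2.1 _ m3.2.1 h.1 h.2); omega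
        have F23 : ¬ (¬ Good ω k (f 0) ∧ ¬ Good ω k (f 1)) := fun h => by
          have := hf _ _ (ht _ m2.2.1 _ m3.2.1 h.1 h.2); omega
        by_cases a1 : Good ω k (e (-1))
        · have c1 := n1 a1
          by_cases a2 : Good ω k (e 0)
          · exact F12 ⟨c1, n2 a2⟩
          · by_cases a3 : Good ω k (e 1)
            · exact F13 ⟨c1, n3 a3⟩
            · exact E23 ⟨a2, a3⟩
        · by_cases a2 : Good ω k (e 0)
          · by_cases a3 : Good ω k (e 1)
            · exact F23 ⟨n2 a2, n3 a3⟩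
            · exact E13 ⟨a1, a3⟩
          · exact E12 ⟨a1, a2⟩
      obtain ⟨j, hj1, hj2, hje, hjf⟩ := key
      obtain ⟨m1, m2, m3⟩ := hef j hj1 hj2
      obtain ⟨z, hz⟩ := core_nonempty k _ hje
      obtain ⟨z', hz'⟩ := core_nonempty k _ hjf
      rw [A s hs x z hx ⟨_, m1, hje, hz⟩, ih2 _ _ m3 hje hjf z z' hz hz',
        A t ht z' y ⟨_, m2, hjf, hz'⟩ hy]
    have C : ∀ s t : Cell, (t = (s.1 + 1, s.2) ∨ t = (s.1, s.2 + 1)) → Good ω (k + 1) s →
        Good ω (k + 1) t → ∀ x y, Core ω (k + 1) s x → Core ω (k + 1) t y →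
        (x ∈ b ↔ y ∈ b) := by
      intro s t hst hs ht
      rcases hst with rfl | rfl
      · apply B s _ hs ht (fun j => (3 * s.1 + 1, 3 * s.2 + j))
          (fun j => (3 * s.1 + 2, 3 * s.2 + j))
        · intro j _ _
          refine ⟨?_, ?_, ?_⟩
          · rw [mem_sub]; dsimp only; omega
          · rw [mem_sub]; dsimp only; omega
          · rw [mem_nb]; left; ext <;> dsimp only <;> ring
        · intro i j hij
          rw [Prod.mk.injEq] at hij
          omega
        · intro i j hij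
          rw [Prod.mk.injEq] at hij
          omega
      · apply B s _ hs ht (fun j => (3 * s.1 + j, 3 * s.2 + 1))
          (fun j => (3 * s.1 + j, 3 * s.2 + 2))
        · intro j _ _
          refine ⟨?_, ?_, ?_⟩
          · rw [mem_sub]; dsimp only; omega
          · rw [mem_sub]; dsimp only; omega
          · rw [mem_nb]; right; right; left; ext <;> dsimp only <;> ring
        · intro i j hij
          rw [Prod.mk.injEq] at hij
          omega
        · intro i j hij
          rw [Prod.mk.injEq] at hij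
          omega
    refine ⟨A, ?_⟩
    intro s t hst hs ht x y hx hy
    rw [mem_nb] at hst
    rcases hst with h | h | h | h
    · exact C s t (Or.inl h) hs ht x y hx hy
    · refine (C t s (Or.inl ?_) ht hs y x hy hx).symm
      rw [h]; ext <;> dsimp only <;> ring
    · exact C s t (Or.inr h) hs ht x y hx hy
    · refine (C t s (Or.inr ?_) ht hs y x hy hx).symm
      rw [h]; ext <;> dsimp only <;> ring

/-- The cells of a box. -/
def InBox (k : ℕ) (b x : Cell) : Prop :=
  (2 * 3 ^ k * b.1 - 3 ^ k < 2 * x.1 ∧ 2 * x.1 < 2 * 3 ^ k * b.1 + 3 ^ k) ∧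
  (2 * 3 ^ k * b.2 - 3 ^ k < 2 * x.2 ∧ 2 * x.2 < 2 * 3 ^ k * b.2 + 3 ^ k)

theorem InBox.of_sub {k : ℕ} {b s x : Cell} (hs : s ∈ sub b) (hx : InBox k s x) :
    InBox (k + 1) b x := by
  rw [mem_sub] at hs
  unfold InBox at hx ⊢
  have h3 : (0 : ℤ) < 3 ^ k := by positivity
  have e1 : (3 : ℤ) ^ k * (3 * b.1 - 1) ≤ 3 ^ k * s.1 := mul_le_mul_of_nonneg_left hs.1.1 h3.le
  have e2 : (3 : ℤ) ^ k * s.1 ≤ 3 ^ k * (3 * b.1 + 1) := mul_le_mul_of_nonneg_left hs.1.2 h3.le
  have e3 : (3 : ℤ) ^ k * (3 * b.2 - 1) ≤ 3 ^ k * s.2 := mul_le_mul_of_nonneg_left hs.2.1 h3.le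
  have e4 : (3 : ℤ) ^ k * s.2 ≤ 3 ^ k * (3 * b.2 + 1) := mul_le_mul_of_nonneg_left hs.2.2 h3.le
  rw [pow_succ]
  refine ⟨⟨?_, ?_⟩, ?_, ?_⟩ <;> nlinarith [hx.1.1, hx.1.2, hx.2.1, hx.2.2]

theorem InBox.unique {k : ℕ} {s t x : Cell} (hs : InBox k s x) (ht : InBox k t x) : s = t := by
  unfold InBox at hs ht
  have h3 : (0 : ℤ) < 3 ^ k := by positivity
  have key : ∀ a b : ℤ, 2 * 3 ^ k * a - 3 ^ k < 2 * 3 ^ k * b + 3 ^ k → a ≤ b := by
    intro a b hab
    by_contra hcon
    push Not at hcon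
    have h4 : (3 : ℤ) ^ k * (b + 1) ≤ 3 ^ k * a := mul_le_mul_of_nonneg_left hcon h3.le
    nlinarith
  ext
  · exact le_antisymm (key _ _ (hs.1.1.trans ht.1.2)) (key _ _ (ht.1.1.trans hs.1.2))
  · exact le_antisymm (key _ _ (hs.2.1.trans ht.2.2)) (key _ _ (ht.2.1.trans hs.2.2))

/-- The witnesses for bad boxes. -/
def Wit : ℕ → Cell → Finset (Finset Cell)
  | 0, b => {{b}}
  | k + 1, b => ((sub b ×ˢ sub b).filter (fun p => p.1 ≠ p.2)).biUnion
      (fun p => ((Wit k p.1) ×ˢ (Wit k p.2)).image (fun q => q.1 ∪ q.2))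

theorem mem_Wit_succ {k : ℕ} {b : Cell} {S : Finset Cell} : S ∈ Wit (k + 1) b ↔
    ∃ s ∈ sub b, ∃ t ∈ sub b, s ≠ t ∧ ∃ U ∈ Wit k s, ∃ V ∈ Wit k t, U ∪ V = S := by
  rw [Wit, Finset.mem_biUnion]
  constructor
  · rintro ⟨p, hp, hS⟩
    rw [Finset.mem_filter, Finset.mem_product] at hp
    rw [Finset.mem_image] at hS
    obtain ⟨q, hq, rfl⟩ := hS
    rw [Finset.mem_product] at hq
    exact ⟨p.1, hp.1.1, p.2, hp.1.2, hp.2, q.1, hq.1, q.2, hq.2, rfl⟩
  · rintro ⟨s, hs, t, ht, hne, U, hU, V, hV, rfl⟩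
    refine ⟨(s, t), ?_, ?_⟩
    · rw [Finset.mem_filter, Finset.mem_product]
      exact ⟨⟨hs, ht⟩, hne⟩
    · rw [Finset.mem_image]
      refine ⟨(U, V), ?_, rfl⟩
      rw [Finset.mem_product]
      exact ⟨hU, hV⟩

theorem Wit_inBox (k : ℕ) : ∀ (b : Cell) (S : Finset Cell), S ∈ Wit k b →
    ∀ x ∈ S, InBox k b x := by
  induction k with
  | zero =>
    intro b S hS x hx
    have hS' : S = {b} := by simpa [Wit] using hS
    rw [hS', Finset.mem_singleton] at hx
    rw [hx]
    unfold InBox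
    simp only [pow_zero, mul_one]
    omega
  | succ k ih =>
    intro b S hS x hx
    rw [mem_Wit_succ] at hS
    obtain ⟨s, hs, t, ht, -, U, hU, V, hV, hUV⟩ := hS
    rw [← hUV, Finset.mem_union] at hx
    rcases hx with hx | hx
    · exact InBox.of_sub hs (ih s U hU x hx)
    · exact InBox.of_sub ht (ih t V hV x hx)

theorem Wit_card (k : ℕ) : ∀ (b : Cell) (S : Finset Cell), S ∈ Wit k b → S.card = 2 ^ k := by
  induction k with
  | zero =>
    intro b S hS
    have hS' : S = {b} := by simpa [Wit] using hS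
    rw [hS']
    simp
  | succ k ih =>
    intro b S hS
    rw [mem_Wit_succ] at hS
    obtain ⟨s, hs, t, ht, hne, U, hU, V, hV, hUV⟩ := hS
    rw [← hUV, Finset.card_union_of_disjoint, ih s U hU, ih t V hV, pow_succ]
    · ring
    · rw [Finset.disjoint_left]
      intro x hx hx'
      exact hne (InBox.unique (Wit_inBox k s U hU x hx) (Wit_inBox k t V hV x hx'))

theorem Wit_count (k : ℕ) : ∀ b : Cell, 81 * (Wit k b).card ≤ 81 ^ (2 ^ k) := by
  induction k with
  | zero => intro b; simp [Wit]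
  | succ k ih =>
    intro b
    have h1 : (Wit (k + 1) b).card ≤ ∑ p ∈ (sub b ×ˢ sub b).filter (fun p => p.1 ≠ p.2),
        (Wit k p.1).card * (Wit k p.2).card := by
      refine Finset.card_biUnion_le.trans ?_
      apply Finset.sum_le_sum
      intro p _
      refine Finset.card_image_le.trans ?_
      rw [Finset.card_product]
    have h2 : 81 * 81 * (Wit (k + 1) b).card ≤
        ∑ p ∈ (sub b ×ˢ sub b).filter (fun p => p.1 ≠ p.2), (81 ^ (2 ^ k)) * (81 ^ (2 ^ k)) := by
      calc 81 * 81 * (Wit (k + 1) b).card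
          ≤ 81 * 81 * ∑ p ∈ (sub b ×ˢ sub b).filter (fun p => p.1 ≠ p.2),
            (Wit k p.1).card * (Wit k p.2).card := Nat.mul_le_mul_left _ h1
        _ = ∑ p ∈ (sub b ×ˢ sub b).filter (fun p => p.1 ≠ p.2),
            (81 * (Wit k p.1).card) * (81 * (Wit k p.2).card) := by
            rw [Finset.mul_sum]
            apply Finset.sum_congr rfl
            intro p _
            ring
        _ ≤ _ := Finset.sum_le_sum fun p _ => Nat.mul_le_mul (ih _) (ih _)
    have h3 : ((sub b ×ˢ sub b).filter (fun p => p.1 ≠ p.2)).card ≤ 81 := by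
      refine (Finset.card_filter_le _ _).trans ?_
      rw [Finset.card_product]
      exact Nat.mul_le_mul (card_sub_le b) (card_sub_le b)
    rw [Finset.sum_const, smul_eq_mul] at h2
    have h4 : ((sub b ×ˢ sub b).filter (fun p => p.1 ≠ p.2)).card *
        (81 ^ (2 ^ k) * 81 ^ (2 ^ k)) ≤ 81 * (81 ^ (2 ^ k) * 81 ^ (2 ^ k)) :=
      Nat.mul_le_mul_right _ h3
    have h5 : 81 * (81 * (Wit (k + 1) b).card) ≤ 81 * (81 ^ (2 ^ k) * 81 ^ (2 ^ k)) := by
      rw [← mul_assoc]
      exact h2.trans h4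
    have h6 := Nat.le_of_mul_le_mul_left h5 (by norm_num)
    calc 81 * (Wit (k + 1) b).card ≤ 81 ^ (2 ^ k) * 81 ^ (2 ^ k) := h6
      _ = 81 ^ (2 ^ (k + 1)) := by rw [← pow_add, pow_succ]; congr 1; ring

theorem bad_witness {ω : Finset Cell} : ∀ (k : ℕ) (b : Cell), ¬ Good ω k b →
    ∃ S ∈ Wit k b, Disjoint S ω
  | 0, b, h => by
    refine ⟨{b}, by simp [Wit], ?_⟩
    rw [Finset.disjoint_singleton_left]
    exact h
  | k + 1, b, h => by
    have h' : ∃ s ∈ sub b, ∃ t ∈ sub b, ¬ Good ω k s ∧ ¬ Good ω k t ∧ s ≠ t := by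
      by_contra hcon
      push Not at hcon
      exact h (fun s hs t ht h1 h2 => hcon s hs t ht h1 h2)
    obtain ⟨s, hs, t, ht, h1, h2, hne⟩ := h'
    obtain ⟨U, hU, hU'⟩ := bad_witness k s h1
    obtain ⟨V, hV, hV'⟩ := bad_witness k t h2
    refine ⟨U ∪ V, ?_, ?_⟩
    · rw [mem_Wit_succ]
      exact ⟨s, hs, t, ht, hne, U, hU, V, hV, rfl⟩
    · rw [Finset.disjoint_union_left]
      exact ⟨hU', hV'⟩

/-- The box of level `k` around the origin. -/
noncomputable def bx (k : ℕ) : Finset Cell :=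
  (Finset.Icc (-(3 ^ k : ℤ)) (3 ^ k) ×ˢ Finset.Icc (-(3 ^ k : ℤ)) (3 ^ k)).filter
    (fun x => (-(3 ^ k) < 2 * x.1 ∧ 2 * x.1 < 3 ^ k) ∧ (-(3 ^ k) < 2 * x.2 ∧ 2 * x.2 < 3 ^ k))

theorem mem_bx {k : ℕ} {x : Cell} : x ∈ bx k ↔
    (-(3 ^ k) < 2 * x.1 ∧ 2 * x.1 < 3 ^ k) ∧ (-(3 ^ k) < 2 * x.2 ∧ 2 * x.2 < 3 ^ k) := by
  unfold bx
  rw [Finset.mem_filter, Finset.mem_product, Finset.mem_Icc, Finset.mem_Icc]
  have h3 : (0 : ℤ) < 3 ^ k := by positivity
  constructor
  · exact fun h => h.2
  · intro h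
    refine ⟨?_, h⟩
    omega

theorem bx_mono {k l : ℕ} (h : k ≤ l) : bx k ⊆ bx l := by
  intro x hx
  rw [mem_bx] at hx ⊢
  have h3 : (3 : ℤ) ^ k ≤ 3 ^ l := pow_le_pow_right₀ (by norm_num) h
  omega

theorem core_zero {ω : Finset Cell} (K : ℕ) (hg : ∀ k ≤ K, Good ω k 0) :
    ∀ k ≤ K, Core ω k 0 0 := by
  intro k hk
  induction k with
  | zero => rfl
  | succ k ih =>
    refine ⟨0, ?_, hg k (by omega), ih (by omega)⟩
    rw [mem_sub]
    simp

/-- If all boxes around the origin are good then the origin is occupied and of the first colour. -/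
theorem zero_of_good {ω b : Finset Cell} {K : ℕ} (hb : b ∈ Cl (bx K) ω)
    (hg : ∀ k ≤ K, Good ω k 0) : (0 : Cell) ∈ ω ∧ (0 : Cell) ∉ b := by
  have h0 := core_zero K hg K le_rfl
  refine ⟨core_mem K 0 0 (hg K le_rfl) h0, ?_⟩
  intro hcon
  obtain ⟨x, hx, hx1⟩ := core_left K 0 (hg K le_rfl)
  have hxb : x ∈ b := ((core_color hb K).1 0 (hg K le_rfl) 0 x h0 hx).1 hcon
  have h1 := ((mem_Cl.1 hb).2 x hxb (x.1 - 1, x.2) (by simp [nb])).1
  rw [mem_bx] at h1
  have h2 : 2 * x.1 = - 3 ^ K + 1 := by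
    rw [hx1]
    simp
  dsimp only at h1
  omega

/-- The weight of the colourings for which the origin is not occupied by the first colour. -/
noncomputable def Zbad (lam : ℝ) (K : ℕ) : ℝ :=
  ∑ ω ∈ (bx K).powerset, lam ^ ω.card *
    (((Cl (bx K) ω).filter (fun b => ¬ ((0 : Cell) ∈ ω ∧ (0 : Cell) ∉ b))).card : ℝ)

theorem Zbad_le {lam : ℝ} (h : 2592 ≤ lam) (K : ℕ) :
    Zbad lam K ≤ 1 / 81 * Zw lam (bx K) ∅ := by
  classical
  have hl : 0 < lam := by linarith
  set r : ℝ := 81 * (16 / lam) with hr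
  have hr0 : 0 < r := by positivity
  have hr1 : r ≤ 1 / 2 := by
    rw [hr]
    have : 16 / lam ≤ 16 / 2592 := div_le_div_of_nonneg_left (by norm_num) (by norm_num) h
    linarith
  -- step 1
  have s1 : Zbad lam K ≤ ∑ ω ∈ (bx K).powerset, ∑ k ∈ Finset.range (K + 1), ∑ S ∈ Wit k 0,
      (if Disjoint S ω then lam ^ ω.card * ((Cl (bx K) ω).card : ℝ) else 0) := by
    unfold Zbad
    apply Finset.sum_le_sum
    intro ω hω
    have hnn : ∀ k ∈ Finset.range (K + 1), 0 ≤ ∑ S ∈ Wit k 0,
        (if Disjoint S ω then lam ^ ω.card * ((Cl (bx K) ω).card : ℝ) else 0) := by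
      intro k _
      apply Finset.sum_nonneg
      intro S _
      split_ifs
      · positivity
      · exact le_rfl
    by_cases hg : ∀ k ≤ K, Good ω k 0
    · have h1 : (Cl (bx K) ω).filter (fun b => ¬ ((0 : Cell) ∈ ω ∧ (0 : Cell) ∉ b)) = ∅ := by
        rw [Finset.filter_eq_empty_iff]
        intro b hb
        rw [not_not]
        exact zero_of_good hb hg
      rw [h1, Finset.card_empty, Nat.cast_zero, mul_zero]
      exact Finset.sum_nonneg hnn
    · push Not at hg
      obtain ⟨k, hk, hkg⟩ := hg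
      obtain ⟨S, hS, hSd⟩ := bad_witness k 0 hkg
      calc lam ^ ω.card *
            (((Cl (bx K) ω).filter (fun b => ¬ ((0 : Cell) ∈ ω ∧ (0 : Cell) ∉ b))).card : ℝ)
          ≤ lam ^ ω.card * ((Cl (bx K) ω).card : ℝ) := by
            apply mul_le_mul_of_nonneg_left _ (by positivity)
            exact_mod_cast Finset.card_filter_le _ _
        _ = (if Disjoint S ω then lam ^ ω.card * ((Cl (bx K) ω).card : ℝ) else 0) := by
            rw [if_pos hSd]
        _ ≤ ∑ S ∈ Wit k 0,
            (if Disjoint S ω then lam ^ ω.card * ((Cl (bx K) ω).card : ℝ) else 0) := by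
            refine Finset.single_le_sum (f := fun S => if Disjoint S ω then
              lam ^ ω.card * ((Cl (bx K) ω).card : ℝ) else 0) ?_ hS
            intro S _
            split_ifs
            · positivity
            · exact le_rfl
        _ ≤ _ := Finset.single_le_sum (f := fun k => ∑ S ∈ Wit k 0,
            (if Disjoint S ω then lam ^ ω.card * ((Cl (bx K) ω).card : ℝ) else 0)) hnn
            (Finset.mem_range.2 (by omega))
  -- step 2
  have s2 : ∑ ω ∈ (bx K).powerset, ∑ k ∈ Finset.range (K + 1), ∑ S ∈ Wit k 0,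
      (if Disjoint S ω then lam ^ ω.card * ((Cl (bx K) ω).card : ℝ) else 0) =
      ∑ k ∈ Finset.range (K + 1), ∑ S ∈ Wit k 0, Zw lam (bx K) S := by
    rw [Finset.sum_comm]
    apply Finset.sum_congr rfl
    intro k _
    rw [Finset.sum_comm]
    apply Finset.sum_congr rfl
    intro S _
    unfold Zw
    rw [Finset.sum_filter]
  have s3 : ∀ k ∈ Finset.range (K + 1), ∑ S ∈ Wit k 0, Zw lam (bx K) S ≤
      1 / 81 * (1 / 2) ^ (k + 1) * Zw lam (bx K) ∅ := by
    intro k hk
    rw [Finset.mem_range] at hk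
    have hZ : 0 ≤ Zw lam (bx K) ∅ := Zw_nonneg hl.le _ _
    calc ∑ S ∈ Wit k 0, Zw lam (bx K) S
        ≤ ∑ S ∈ Wit k 0, (16 / lam) ^ (2 ^ k) * Zw lam (bx K) ∅ := by
          apply Finset.sum_le_sum
          intro S hS
          rw [← Wit_card k 0 S hS]
          apply Zw_le hl
          intro x hx
          apply bx_mono (show k ≤ K by omega)
          have := Wit_inBox k 0 S hS x hx
          unfold InBox at this
          rw [mem_bx]
          simpa using this
      _ = (Wit k 0).card * ((16 / lam) ^ (2 ^ k) * Zw lam (bx K) ∅) := by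
          rw [Finset.sum_const, nsmul_eq_mul]
      _ ≤ (81 ^ (2 ^ k) / 81) * ((16 / lam) ^ (2 ^ k) * Zw lam (bx K) ∅) := by
          apply mul_le_mul_of_nonneg_right _ (by positivity)
          rw [le_div_iff₀ (by norm_num)]
          have := Wit_count k 0
          have h2 : ((81 * (Wit k 0).card : ℕ) : ℝ) ≤ ((81 ^ (2 ^ k) : ℕ) : ℝ) := by
            exact_mod_cast this
          push_cast at h2
          linarith
      _ = 1 / 81 * r ^ (2 ^ k) * Zw lam (bx K) ∅ := by
          rw [hr, mul_pow]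
          ring
      _ ≤ 1 / 81 * (1 / 2) ^ (k + 1) * Zw lam (bx K) ∅ := by
          apply mul_le_mul_of_nonneg_right _ hZ
          apply mul_le_mul_of_nonneg_left _ (by norm_num)
          calc r ^ (2 ^ k) ≤ (1 / 2) ^ (2 ^ k) := pow_le_pow_left₀ hr0.le hr1 _
            _ ≤ (1 / 2) ^ (k + 1) := by
                apply pow_le_pow_of_le_one (by norm_num) (by norm_num)
                exact Nat.lt_two_pow_self
  have s4 : ∑ k ∈ Finset.range (K + 1), (1 / 81 : ℝ) * (1 / 2) ^ (k + 1) ≤ 1 / 81 := by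
    have : ∀ n : ℕ, ∑ k ∈ Finset.range n, (1 / 81 : ℝ) * (1 / 2) ^ (k + 1) =
        1 / 81 * (1 - (1 / 2) ^ n) := by
      intro n
      induction n with
      | zero => simp
      | succ n ih =>
        rw [Finset.sum_range_succ, ih]
        ring
    rw [this]
    have h5 : (0 : ℝ) ≤ (1 / 2) ^ (K + 1) := by positivity
    nlinarith
  calc Zbad lam K ≤ ∑ k ∈ Finset.range (K + 1), ∑ S ∈ Wit k 0, Zw lam (bx K) S := by
        rw [← s2]; exact s1
    _ ≤ ∑ k ∈ Finset.range (K + 1), 1 / 81 * (1 / 2) ^ (k + 1) * Zw lam (bx K) ∅ :=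
        Finset.sum_le_sum s3
    _ = (∑ k ∈ Finset.range (K + 1), (1 / 81 : ℝ) * (1 / 2) ^ (k + 1)) * Zw lam (bx K) ∅ := by
        rw [Finset.sum_mul]
    _ ≤ 1 / 81 * Zw lam (bx K) ∅ := mul_le_mul_of_nonneg_right s4 (Zw_nonneg hl.le _ _)

end Pool.Agent.Y726.Kc
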