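import Pool.Agent.Y726.KCM.Gibbs

/-!
# Infinite volume limits
-/

set_option autoImplicit false

open MeasureTheory ProbabilityTheory Filter Topology unitInterval
open scoped NNReal ENNReal Nat

namespace Pool.Agent.Y726.Kc

/-- the finite volume measure -/
noncomputable def muF (lam : ℝ) (s : ℤ) (K : ℕ) : Measure (Config 3) :=
  ∑ p ∈ VV (bx K), ENNReal.ofReal (wgt lam p / ZZ lam (bx K)) • Measure.dirac (conf s (bx K) p)

section

variable {lam : ℝ} (hl : 0 < lam)

include hl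

theorem ZZ_pos (Λ : Finset Cell) : 0 < ZZ lam Λ := by
  rw [ZZ_eq]
  exact Zw_pos hl.le Λ

theorem wgt_div_nonneg (Λ : Finset Cell) (p : Finset Cell × Finset Cell) :
    0 ≤ wgt lam p / ZZ lam Λ := by
  have := ZZ_pos hl Λ
  unfold wgt
  positivity

theorem sum_wgt_div (Λ : Finset Cell) : ∑ p ∈ VV Λ, wgt lam p / ZZ lam Λ = 1 := by
  rw [← Finset.sum_div]
  exact div_self (ZZ_pos hl Λ).ne'

theorem isProb_muF (s : ℤ) (K : ℕ) : IsProbabilityMeasure (muF lam s K) := by
  constructor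
  unfold muF
  rw [Measure.finsetSum_apply]
  simp only [Measure.smul_apply, measure_univ, smul_eq_mul, mul_one]
  rw [← ENNReal.ofReal_sum_of_nonneg (fun p _ => wgt_div_nonneg hl _ p), sum_wgt_div hl,
    ENNReal.ofReal_one]

theorem integral_muF (s : ℤ) (K : ℕ) (f : C(Config 3, ℝ)) :
    ∫ η, f η ∂(muF lam s K) = ∑ p ∈ VV (bx K), wgt lam p / ZZ lam (bx K) *
      f (conf s (bx K) p) := by
  unfold muF
  rw [integral_finsetSum_measure]
  · apply Finset.sum_congr rfl
    intro p _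
    rw [integral_smul_measure, integral_dirac, ENNReal.toReal_ofReal (wgt_div_nonneg hl _ p),
      smul_eq_mul]
  · intro p _
    exact (integrable_C _ f).smul_measure ENNReal.ofReal_ne_top

theorem integral_LF {q : I} (hlam : lam * q = 1 - q) (s : ℤ) (K : ℕ) (D : Finset (Site 3))
    (hD : ∀ x ∈ D, cell x ∈ bx K ∧ ∀ e ∈ nb (cell x), e ∈ bx K) (f : C(Config 3, ℝ)) :
    ∫ η, LF (FA 3) q D f η ∂(muF lam s K) = 0 := by
  rw [integral_muF hl]
  have h1 : ∀ p ∈ VV (bx K), wgt lam p / ZZ lam (bx K) * LF (FA 3) q D f (conf s (bx K) p) =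
      ∑ x ∈ D, (ZZ lam (bx K))⁻¹ * (wgt lam p * (wt (FA 3) q x (conf s (bx K) p) *
        (f (flipAt (conf s (bx K) p) x) - f (conf s (bx K) p)))) := by
    intro p _
    rw [LF_apply, ContinuousMap.coe_sum, Finset.sum_apply, Finset.mul_sum]
    apply Finset.sum_congr rfl
    intro x _
    rw [Lx_apply]
    ring
  rw [Finset.sum_congr rfl h1, Finset.sum_comm]
  apply Finset.sum_eq_zero
  intro x hx
  rw [← Finset.mul_sum, balance hlam x (hD x hx).1 (hD x hx).2 f, mul_zero]

omit hl in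
theorem eventually_mem_bx (c : Cell) : ∀ᶠ K : ℕ in atTop, c ∈ bx K := by
  have h1 : Tendsto (fun K : ℕ => (3 : ℤ) ^ K) atTop atTop :=
    tendsto_pow_atTop_atTop_of_one_lt (by norm_num)
  filter_upwards [h1.eventually_gt_atTop (2 * |c.1|), h1.eventually_gt_atTop (2 * |c.2|)] with K h2 h3
  rw [mem_bx]
  have h4 := abs_lt.1 (show |2 * c.1| < 3 ^ K by rw [abs_mul]; simpa using h2)
  have h5 := abs_lt.1 (show |2 * c.2| < 3 ^ K by rw [abs_mul]; simpa using h3)
  exact ⟨h4, h5⟩

omit hl in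
theorem eventually_inner (D : Finset (Site 3)) :
    ∀ᶠ K : ℕ in atTop, ∀ x ∈ D, cell x ∈ bx K ∧ ∀ e ∈ nb (cell x), e ∈ bx K := by
  rw [Filter.eventually_all_finset]
  intro x _
  refine (eventually_mem_bx _).and ?_
  rw [Filter.eventually_all_finset]
  intro e _
  exact eventually_mem_bx e

/-- the coordinate functions -/
noncomputable def coord (x : Site 3) : C(Config 3, ℝ) :=
  ⟨fun η => if η x then (1 : ℝ) else 0,
    (continuous_of_discreteTopology (f := fun b : Bool => if b then (1 : ℝ) else 0)).comp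
      (continuous_apply x)⟩

omit hl in
theorem coord_apply (x : Site 3) (η : Config 3) : coord x η = if η x then (1 : ℝ) else 0 := rfl

theorem integral_const_of {s : ℤ} {K : ℕ} {f : C(Config 3, ℝ)} {a : ℝ}
    (h : ∀ p ∈ VV (bx K), f (conf s (bx K) p) = a) : ∫ η, f η ∂(muF lam s K) = a := by
  rw [integral_muF hl, Finset.sum_congr rfl (g := fun p => wgt lam p / ZZ lam (bx K) * a)]
  · rw [← Finset.sum_mul, sum_wgt_div hl, one_mul]
  · intro p hp
    rw [h p hp]

theorem exists_limit (s : ℤ) : ∃ μ : Measure (Config 3), IsProbabilityMeasure μ ∧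
    ∀ f : C(Config 3, ℝ), Tendsto (fun K => ∫ η, f η ∂(muF lam s K)) (hyperfilter ℕ : Filter ℕ)
      (𝓝 (∫ η, f η ∂μ)) := by
  have hp := fun K => isProb_muF hl s K
  let u : ℕ → ProbabilityMeasure (Config 3) := fun K => ⟨muF lam s K, hp K⟩
  obtain ⟨μ, -, hμ⟩ := isCompact_univ.ultrafilter_le_nhds ((hyperfilter ℕ).map u) (by simp)
  have h1 : Tendsto u (hyperfilter ℕ : Filter ℕ) (𝓝 μ) := hμ
  refine ⟨μ, inferInstance, ?_⟩
  intro f
  rw [ProbabilityMeasure.tendsto_iff_forall_integral_tendsto] at h1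
  exact h1 (BoundedContinuousFunction.mkOfCompact f)

end

end Pool.Agent.Y726.Kc
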