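import Pool.Agent.Y726.KCM.Defs

/-!
# The operators of a kinetically constrained model
-/

set_option autoImplicit false

open MeasureTheory ProbabilityTheory Filter Topology unitInterval
open scoped NNReal ENNReal

namespace Pool.Agent.Y726.Kc

variable {d : ℕ}

theorem continuous_of_dependsOn {D : Finset (Site d)} {f : Config d → ℝ}
    (h : DependsOn f (D : Set (Site d))) : Continuous f := by
  obtain ⟨g, rfl⟩ := dependsOn_iff_exists_comp.1 h
  have h1 : Continuous g := continuous_of_discreteTopology
  refine h1.comp ?_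
  fun_prop

/-- The box of radius `r` around `x`. -/
noncomputable def ballF (r : ℕ) (x : Site d) : Finset (Site d) :=
  Fintype.piFinset (fun i => Finset.Icc (x i - r) (x i + r))

theorem mem_ballF {r : ℕ} {x y : Site d} : y ∈ ballF r x ↔ ∀ i, x i - r ≤ y i ∧ y i ≤ x i + r := by
  simp [ballF]

theorem self_mem_ballF (r : ℕ) (x : Site d) : x ∈ ballF r x := by
  rw [mem_ballF]
  intro i
  omega

theorem mem_ballF_of_norm_le {r : ℕ} {x y : Site d} (h : ‖y - x‖ ≤ r) : y ∈ ballF r x := by
  rw [mem_ballF]
  intro i
  have h1 := (norm_le_pi_norm (y - x) i).trans h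
  rw [Pi.sub_apply, Int.norm_eq_abs] at h1
  have h2 : |y i - x i| ≤ (r : ℤ) := by exact_mod_cast h1
  rw [abs_le] at h2
  omega

theorem card_ballF (r : ℕ) (x : Site d) : (ballF r x).card = (2 * r + 1) ^ d := by
  unfold ballF
  rw [Fintype.card_piFinset]
  simp only [Int.card_Icc]
  rw [Finset.prod_congr rfl (g := fun _ => 2 * r + 1)]
  · simp
  · intro i _
    omega

theorem flipAt_flipAt (η : Config d) (x : Site d) : flipAt (flipAt η x) x = η := by
  unfold flipAt
  simp

theorem flipAt_self (η : Config d) (x : Site d) : flipAt η x x = !η x := by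
  simp [flipAt]

theorem flipAt_of_ne (η : Config d) {x y : Site d} (h : y ≠ x) : flipAt η x y = η y := by
  simp [flipAt, h]

variable (K : KCM d) (q : I)

theorem bound_nonneg : 0 ≤ K.bound :=
  (K.c_nonneg 0 (fun _ => true)).trans (K.c_le 0 (fun _ => true))

/-- The rate at which the spin at `x` is flipped. -/
noncomputable def wt (x : Site d) (η : Config d) : ℝ :=
  K.c x η * (if η x then (q : ℝ) else 1 - (q : ℝ))

theorem wt_nonneg (x : Site d) (η : Config d) : 0 ≤ wt K q x η := by
  unfold wt
  have h1 := q.2.1
  have h2 := q.2.2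
  apply mul_nonneg (K.c_nonneg x η)
  split_ifs <;> linarith

theorem wt_le (x : Site d) (η : Config d) : wt K q x η ≤ K.bound := by
  unfold wt
  have h1 := q.2.1
  have h2 := q.2.2
  have h3 : (if η x then (q : ℝ) else 1 - (q : ℝ)) ≤ 1 := by
    split_ifs <;> linarith
  have h4 : 0 ≤ (if η x then (q : ℝ) else 1 - (q : ℝ)) := by
    split_ifs <;> linarith
  calc K.c x η * (if η x then (q : ℝ) else 1 - (q : ℝ)) ≤ K.c x η * 1 :=
        mul_le_mul_of_nonneg_left h3 (K.c_nonneg x η)
    _ ≤ K.bound := by rw [mul_one]; exact K.c_le x η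

theorem wt_dependsOn (x : Site d) : DependsOn (wt K q x) (ballF K.r x : Set (Site d)) := by
  intro η η' h
  unfold wt
  have h1 : K.c x η = K.c x η' := by
    apply K.c_local
    intro y _ hy
    exact h y (by exact_mod_cast mem_ballF_of_norm_le hy)
  rw [h1, h x (by exact_mod_cast self_mem_ballF K.r x)]

/-- The flip rate as a continuous function. -/
noncomputable def wC (x : Site d) : C(Config d, ℝ) :=
  ⟨wt K q x, continuous_of_dependsOn (wt_dependsOn K q x)⟩

/-- The flip as a continuous map. -/
def flipC (x : Site d) : C(Config d, Config d) :=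
  ⟨fun η => flipAt η x, by
    unfold flipAt
    have : Continuous (fun η : Config d => !η x) :=
      (continuous_of_discreteTopology (f := fun b : Bool => !b)).comp (continuous_apply x)
    exact continuous_id.update x this⟩

/-- The part of the generator at `x`. -/
noncomputable def Lx (x : Site d) : C(Config d, ℝ) →L[ℝ] C(Config d, ℝ) :=
  LinearMap.mkContinuous
    { toFun := fun f => wC K q x * (f.comp (flipC x) - f)
      map_add' := by
        intro f g
        ext η
        simp only [ContinuousMap.mul_apply, ContinuousMap.sub_apply, ContinuousMap.comp_apply,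
          ContinuousMap.add_apply]
        ring
      map_smul' := by
        intro a f
        ext η
        simp only [ContinuousMap.mul_apply, ContinuousMap.sub_apply, ContinuousMap.comp_apply,
          ContinuousMap.smul_apply, smul_eq_mul, RingHom.id_apply]
        ring }
    (2 * K.bound) (by
      intro f
      have hb := bound_nonneg K
      rw [ContinuousMap.norm_le _ (by positivity)]
      intro η
      simp only [LinearMap.coe_mk, AddHom.coe_mk, ContinuousMap.mul_apply,
        ContinuousMap.sub_apply, ContinuousMap.comp_apply, norm_mul, Real.norm_eq_abs]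
      have h1 : |wC K q x η| ≤ K.bound := by
        have h0 : wC K q x η = wt K q x η := rfl
        rw [h0, abs_of_nonneg (wt_nonneg K q x η)]
        exact wt_le K q x η
      have h2 : |f (flipC x η) - f η| ≤ 2 * ‖f‖ := by
        calc |f (flipC x η) - f η| ≤ |f (flipC x η)| + |f η| := abs_sub _ _
          _ ≤ ‖f‖ + ‖f‖ := add_le_add (f.norm_coe_le_norm _) (f.norm_coe_le_norm _)
          _ = 2 * ‖f‖ := by ring
      calc |wC K q x η| * |f (flipC x η) - f η| ≤ K.bound * (2 * ‖f‖) :=
            mul_le_mul h1 h2 (abs_nonneg _) hb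
        _ = 2 * K.bound * ‖f‖ := by ring)

theorem Lx_apply (x : Site d) (f : C(Config d, ℝ)) (η : Config d) :
    Lx K q x f η = wt K q x η * (f (flipAt η x) - f η) := rfl

theorem norm_Lx_le (x : Site d) (f : C(Config d, ℝ)) : ‖Lx K q x f‖ ≤ 2 * K.bound * ‖f‖ :=
  (Lx K q x).le_of_opNorm_le
    (LinearMap.mkContinuous_norm_le _ (by have := bound_nonneg K; positivity) _) f

/-- The generator restricted to the sites in `Λ`. -/
noncomputable def LF (Λ : Finset (Site d)) : C(Config d, ℝ) →L[ℝ] C(Config d, ℝ) :=
  ∑ x ∈ Λ, Lx K q x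

theorem LF_apply (Λ : Finset (Site d)) (f : C(Config d, ℝ)) :
    LF K q Λ f = ∑ x ∈ Λ, Lx K q x f := by
  simp [LF]

theorem Lx_zero {D : Finset (Site d)} {f : C(Config d, ℝ)}
    (h : DependsOn f (D : Set (Site d))) {x : Site d} (hx : x ∉ D) : Lx K q x f = 0 := by
  ext η
  rw [Lx_apply]
  have : f (flipAt η x) = f η := by
    apply h
    intro y hy
    apply flipAt_of_ne
    rintro rfl
    exact hx (by exact_mod_cast hy)
  rw [this, sub_self, mul_zero]
  rfl

theorem LF_eq {D Λ : Finset (Site d)} {f : C(Config d, ℝ)}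
    (h : DependsOn f (D : Set (Site d))) (hD : D ⊆ Λ) : LF K q Λ f = LF K q D f := by
  rw [LF_apply, LF_apply]
  symm
  apply Finset.sum_subset hD
  intro x _ hx
  exact Lx_zero K q h hx

theorem gen_eq_LF {D Λ : Finset (Site d)} {f : C(Config d, ℝ)}
    (h : DependsOn f (D : Set (Site d))) (hD : D ⊆ Λ) (η : Config d) :
    gen K q f η = LF K q Λ f η := by
  unfold gen
  rw [LF_apply, finsum_eq_sum_of_support_subset (s := Λ)]
  · rw [ContinuousMap.coe_sum, Finset.sum_apply]
    rfl
  · intro x hx
    rw [Function.mem_support] at hx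
    by_contra hcon
    apply hx
    have h1 : x ∉ D := fun h2 => hcon (by exact_mod_cast hD h2)
    have h2 := congrArg (fun g : C(Config d, ℝ) => g η) (Lx_zero K q h h1)
    exact h2

theorem Lx_dependsOn {D : Finset (Site d)} {f : C(Config d, ℝ)}
    (h : DependsOn f (D : Set (Site d))) (x : Site d) :
    DependsOn (Lx K q x f) ((D ∪ ballF K.r x : Finset (Site d)) : Set (Site d)) := by
  intro η η' hη
  rw [Lx_apply, Lx_apply]
  have h1 : wt K q x η = wt K q x η' := by
    apply wt_dependsOn K q x
    intro y hy
    apply hη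
    rw [Finset.coe_union]
    exact Or.inr hy
  have h2 : f η = f η' := by
    apply h
    intro y hy
    apply hη
    rw [Finset.coe_union]
    exact Or.inl hy
  have h3 : f (flipAt η x) = f (flipAt η' x) := by
    apply h
    intro y hy
    have h4 : η y = η' y := hη y (by rw [Finset.coe_union]; exact Or.inl hy)
    by_cases hyx : y = x
    · rw [hyx] at h4 ⊢
      rw [flipAt_self, flipAt_self, h4]
    · rw [flipAt_of_ne _ hyx, flipAt_of_ne _ hyx, h4]
  rw [h1, h2, h3]

end Pool.Agent.Y726.Kc
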