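import Pool.Agent.Y726.KCM.Ops
import Pool.Agent.Y726.KCM.Abs

/-!
# Powers of the generator on local functions, finite volume semigroups
-/

set_option autoImplicit false

open MeasureTheory ProbabilityTheory Filter Topology unitInterval
open scoped NNReal ENNReal Nat

namespace Pool.Agent.Y726.Kc

variable {d : ℕ} (K : KCM d) (q : I)

/-- the number of sites in a box of radius `r` -/
noncomputable def nu : ℝ := (((2 * K.r + 1) ^ d : ℕ) : ℝ)

theorem one_le_nu : 1 ≤ nu K := by
  unfold nu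
  exact_mod_cast Nat.one_le_pow _ _ (by omega)

/-- the growth constant -/
noncomputable def kap : ℝ := 4 * K.bound * nu K

theorem kap_nonneg : 0 ≤ kap K := by
  have h1 := bound_nonneg K
  have h2 := one_le_nu K
  unfold kap
  positivity

theorem norm_LF_pow_le' (Λ : Finset (Site d)) (n : ℕ) : ∀ (s : ℕ) (D : Finset (Site d))
    (f : C(Config d, ℝ)), D.card ≤ s → DependsOn f (D : Set (Site d)) →
    ‖((LF K q Λ) ^ n) f‖ ≤
      (2 * K.bound) ^ n * (∏ k ∈ Finset.range n, ((s : ℝ) + k * nu K)) * ‖f‖ := by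
  have hb := bound_nonneg K
  have hnu := one_le_nu K
  induction n with
  | zero =>
    intro s D f _ _
    simp
  | succ n ih =>
    intro s D f hs hf
    have h1 : LF K q Λ f = ∑ x ∈ Λ ∩ D, Lx K q x f := by
      rw [LF_apply]
      symm
      apply Finset.sum_subset Finset.inter_subset_left
      intro x hx hx'
      apply Lx_zero K q hf
      intro h
      exact hx' (Finset.mem_inter.2 ⟨hx, h⟩)
    rw [pow_succ, mul_apply_eq_comp, h1, map_sum]
    have h2 : ∀ x ∈ Λ ∩ D, ‖((LF K q Λ) ^ n) (Lx K q x f)‖ ≤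
        (2 * K.bound) ^ n * (∏ k ∈ Finset.range n, (((s + (2 * K.r + 1) ^ d : ℕ) : ℝ) +
          k * nu K)) * (2 * K.bound * ‖f‖) := by
      intro x _
      refine (ih (s + (2 * K.r + 1) ^ d) _ _ ?_ (Lx_dependsOn K q hf x)).trans ?_
      · refine (Finset.card_union_le _ _).trans ?_
        rw [card_ballF]
        omega
      · apply mul_le_mul_of_nonneg_left (norm_Lx_le K q x f)
        apply mul_nonneg (by positivity)
        apply Finset.prod_nonneg
        intro k _
        positivity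
    have h3 : ∏ k ∈ Finset.range (n + 1), ((s : ℝ) + k * nu K) =
        s * ∏ k ∈ Finset.range n, (((s + (2 * K.r + 1) ^ d : ℕ) : ℝ) + k * nu K) := by
      rw [Finset.prod_range_succ']
      rw [mul_comm]
      congr 1
      · simp
      · apply Finset.prod_congr rfl
        intro k _
        unfold nu
        push_cast
        ring
    calc ‖∑ x ∈ Λ ∩ D, ((LF K q Λ) ^ n) (Lx K q x f)‖
        ≤ ∑ x ∈ Λ ∩ D, ‖((LF K q Λ) ^ n) (Lx K q x f)‖ := norm_sum_le _ _
      _ ≤ ∑ x ∈ Λ ∩ D, (2 * K.bound) ^ n * (∏ k ∈ Finset.range n,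
            (((s + (2 * K.r + 1) ^ d : ℕ) : ℝ) + k * nu K)) * (2 * K.bound * ‖f‖) :=
          Finset.sum_le_sum h2
      _ = (Λ ∩ D).card * ((2 * K.bound) ^ n * (∏ k ∈ Finset.range n,
            (((s + (2 * K.r + 1) ^ d : ℕ) : ℝ) + k * nu K)) * (2 * K.bound * ‖f‖)) := by
          rw [Finset.sum_const, nsmul_eq_mul]
      _ ≤ s * ((2 * K.bound) ^ n * (∏ k ∈ Finset.range n,
            (((s + (2 * K.r + 1) ^ d : ℕ) : ℝ) + k * nu K)) * (2 * K.bound * ‖f‖)) := by
          apply mul_le_mul_of_nonneg_right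
          · have : (Λ ∩ D).card ≤ s := (Finset.card_le_card Finset.inter_subset_right).trans hs
            exact_mod_cast this
          · apply mul_nonneg _ (by positivity)
            apply mul_nonneg (by positivity)
            apply Finset.prod_nonneg
            intro k _
            positivity
      _ = (2 * K.bound) ^ (n + 1) * (∏ k ∈ Finset.range (n + 1), ((s : ℝ) + k * nu K)) * ‖f‖ := by
          rw [h3, pow_succ]
          ring

theorem prod_le (s n : ℕ) (ν : ℝ) (hν : 1 ≤ ν) :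
    ∏ k ∈ Finset.range n, ((s : ℝ) + k * ν) ≤ ν ^ n * (n ! * 2 ^ (s + n)) := by
  have h1 : ∏ k ∈ Finset.range n, ((s : ℝ) + k * ν) ≤ ν ^ n * (s.ascFactorial n : ℝ) := by
    induction n with
    | zero => simp
    | succ n ih =>
      rw [Finset.prod_range_succ, Nat.ascFactorial_succ]
      push_cast
      have h2 : (s : ℝ) + n * ν ≤ ν * (s + n) := by
        have : (s : ℝ) * 1 ≤ s * ν := mul_le_mul_of_nonneg_left hν (by positivity)
        nlinarith
      calc (∏ k ∈ Finset.range n, ((s : ℝ) + k * ν)) * (s + n * ν)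
          ≤ (ν ^ n * (s.ascFactorial n : ℝ)) * (ν * (s + n)) :=
            mul_le_mul ih h2 (by positivity) (by positivity)
        _ = ν ^ (n + 1) * ((s + n) * (s.ascFactorial n : ℝ)) := by
            rw [pow_succ]
            ring
  refine h1.trans (mul_le_mul_of_nonneg_left ?_ (by positivity))
  have h2 : s.ascFactorial n ≤ n ! * 2 ^ (s + n) := by
    rw [Nat.ascFactorial_eq_factorial_mul_choose']
    apply Nat.mul_le_mul_left
    refine (Nat.choose_le_two_pow _ _).trans ?_
    exact Nat.pow_le_pow_right (by norm_num) (by omega)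
  exact_mod_cast h2

theorem norm_LF_pow_le (Λ : Finset (Site d)) (n : ℕ) (D : Finset (Site d))
    (f : C(Config d, ℝ)) (hf : DependsOn f (D : Set (Site d))) :
    ‖((LF K q Λ) ^ n) f‖ ≤ n ! * (2 ^ D.card * kap K ^ n * ‖f‖) := by
  have hb := bound_nonneg K
  have hnu := one_le_nu K
  refine (norm_LF_pow_le' K q Λ n D.card D f le_rfl hf).trans ?_
  calc (2 * K.bound) ^ n * (∏ k ∈ Finset.range n, ((D.card : ℝ) + k * nu K)) * ‖f‖
      ≤ (2 * K.bound) ^ n * (nu K ^ n * (n ! * 2 ^ (D.card + n))) * ‖f‖ := by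
        apply mul_le_mul_of_nonneg_right _ (norm_nonneg _)
        apply mul_le_mul_of_nonneg_left (prod_le _ _ _ hnu) (by positivity)
    _ = n ! * (2 ^ D.card * kap K ^ n * ‖f‖) := by
        unfold kap
        rw [pow_add, show (4 : ℝ) * K.bound * nu K = (2 * K.bound) * nu K * 2 by ring,
          mul_pow (2 * K.bound * nu K), mul_pow (2 * K.bound)]
        ring

/-- the enlargement of a finite set of sites -/
noncomputable def enl (D : Finset (Site d)) : Finset (Site d) := D.biUnion (ballF K.r)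

theorem subset_enl (D : Finset (Site d)) : D ⊆ enl K D := by
  intro x hx
  exact Finset.mem_biUnion.2 ⟨x, hx, self_mem_ballF _ _⟩

theorem subset_enl_iter (n : ℕ) : ∀ (D : Finset (Site d)), D ⊆ (enl K)^[n] D := by
  induction n with
  | zero => intro D; exact Finset.Subset.refl _
  | succ n ih =>
    intro D
    rw [Function.iterate_succ_apply]
    exact (subset_enl K D).trans (ih _)

theorem LF_dependsOn {D : Finset (Site d)} {f : C(Config d, ℝ)}
    (h : DependsOn f (D : Set (Site d))) (Λ : Finset (Site d)) :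
    DependsOn (LF K q Λ f) ((enl K D : Finset (Site d)) : Set (Site d)) := by
  intro η η' hη
  rw [LF_apply, ContinuousMap.coe_sum, Finset.sum_apply, Finset.sum_apply]
  apply Finset.sum_congr rfl
  intro x _
  by_cases hx : x ∈ D
  · apply Lx_dependsOn K q h x
    intro y hy
    apply hη
    have hy' : y ∈ D ∪ ballF K.r x := by exact_mod_cast hy
    rw [Finset.mem_union] at hy'
    rcases hy' with hy' | hy'
    · exact_mod_cast subset_enl K D hy'
    · exact_mod_cast Finset.mem_biUnion.2 ⟨x, hx, hy'⟩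
  · rw [Lx_zero K q h hx]
    rfl

theorem LF_pow_dependsOn (Λ : Finset (Site d)) (n : ℕ) : ∀ {D : Finset (Site d)}
    {f : C(Config d, ℝ)}, DependsOn f (D : Set (Site d)) →
    DependsOn (((LF K q Λ) ^ n) f) (((enl K)^[n] D : Finset (Site d)) : Set (Site d)) := by
  induction n with
  | zero => intro D f h; simpa using h
  | succ n ih =>
    intro D f h
    rw [pow_succ, mul_apply_eq_comp, Function.iterate_succ_apply]
    exact ih (LF_dependsOn K q h Λ)

theorem LF_pow_stab (n : ℕ) : ∀ {D : Finset (Site d)} {f : C(Config d, ℝ)},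
    DependsOn f (D : Set (Site d)) → ∀ {Λ Λ' : Finset (Site d)}, (enl K)^[n] D ⊆ Λ →
    (enl K)^[n] D ⊆ Λ' → ((LF K q Λ) ^ n) f = ((LF K q Λ') ^ n) f := by
  induction n with
  | zero => intro D f _ Λ Λ' _ _; simp
  | succ n ih =>
    intro D f h Λ Λ' h1 h2
    rw [pow_succ, pow_succ, mul_apply_eq_comp, mul_apply_eq_comp]
    have h3 := subset_enl_iter K (n + 1) D
    rw [LF_eq K q h (h3.trans h1), LF_eq K q h (h3.trans h2)]
    rw [Function.iterate_succ_apply] at h1 h2
    exact ih (LF_dependsOn K q h D) h1 h2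

/-- the finite boxes -/
noncomputable def boxF (d m : ℕ) : Finset (Site d) := ballF m 0

theorem eventually_subset_boxF (F : Finset (Site d)) : ∀ᶠ m in atTop, F ⊆ boxF d m := by
  classical
  induction F using Finset.induction_on with
  | empty => simp
  | insert x F _ ih =>
    have hx : ∀ᶠ m in atTop, x ∈ boxF d m := by
      have h1 : ∀ i, ∀ᶠ m : ℕ in atTop, (0 : ℤ) - m ≤ x i ∧ x i ≤ 0 + m := by
        intro i
        filter_upwards [eventually_ge_atTop (x i).natAbs] with m hm
        omega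
      filter_upwards [eventually_all.2 h1] with m hm
      unfold boxF
      rw [mem_ballF]
      exact hm
    filter_upwards [hx, ih] with m h1 h2
    exact Finset.insert_subset h1 h2

/-- The finite volume semigroup. -/
noncomputable def TF (Λ : Finset (Site d)) (t : ℝ) : C(Config d, ℝ) →L[ℝ] C(Config d, ℝ) :=
  expE (t • LF K q Λ)

theorem hasSum_TF (Λ : Finset (Site d)) (t : ℝ) (f : C(Config d, ℝ)) :
    HasSum (fun n : ℕ => ((n ! : ℝ)⁻¹ * t ^ n) • ((LF K q Λ) ^ n) f) (TF K q Λ t f) :=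
  hasSum_expE (LF K q Λ) t f

theorem TF_zero (Λ : Finset (Site d)) (f : C(Config d, ℝ)) : TF K q Λ 0 f = f :=
  expE_zero (LF K q Λ) f

theorem TF_add (Λ : Finset (Site d)) (s t : ℝ) (f : C(Config d, ℝ)) :
    TF K q Λ (s + t) f = TF K q Λ s (TF K q Λ t f) :=
  expE_add (LF K q Λ) s t f

/-- positivity of the shifted generator -/
theorem shift_nonneg (Λ : Finset (Site d)) (f : C(Config d, ℝ)) (hf : ∀ η, 0 ≤ f η)
    (η : Config d) : 0 ≤ ((LF K q Λ + (Λ.card * K.bound) • (1 : C(Config d, ℝ) →L[ℝ] C(Config d, ℝ)))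
      f) η := by
  have h1 : ((LF K q Λ + (Λ.card * K.bound) • (1 : C(Config d, ℝ) →L[ℝ] C(Config d, ℝ))) f) η =
      ∑ x ∈ Λ, (wt K q x η * f (flipAt η x) + (K.bound - wt K q x η) * f η) := by
    have h2 : ((LF K q Λ + (Λ.card * K.bound) • (1 : C(Config d, ℝ) →L[ℝ] C(Config d, ℝ))) f) η =
        LF K q Λ f η + (Λ.card * K.bound) * f η := rfl
    rw [h2, LF_apply, ContinuousMap.coe_sum, Finset.sum_apply]
    have h3 : ((Λ.card : ℝ) * K.bound) * f η = ∑ x ∈ Λ, K.bound * f η := by
      rw [Finset.sum_const, nsmul_eq_mul, mul_assoc]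
    rw [h3, ← Finset.sum_add_distrib]
    apply Finset.sum_congr rfl
    intro x _
    rw [Lx_apply]
    ring
  rw [h1]
  apply Finset.sum_nonneg
  intro x _
  have h4 := wt_nonneg K q x η
  have h5 := wt_le K q x η
  have h6 := hf (flipAt η x)
  have h7 := hf η
  have h8 : 0 ≤ (K.bound - wt K q x η) * f η := mul_nonneg (by linarith) h7
  have h9 : 0 ≤ wt K q x η * f (flipAt η x) := mul_nonneg h4 h6
  linarith

theorem TF_nonneg (Λ : Finset (Site d)) (t : ℝ) (ht : 0 ≤ t) (f : C(Config d, ℝ))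
    (hf : ∀ η, 0 ≤ f η) (η : Config d) : 0 ≤ TF K q Λ t f η := by
  unfold TF
  rw [expE_shift (LF K q Λ) t (Λ.card * K.bound) f, ContinuousMap.smul_apply, smul_eq_mul]
  apply mul_nonneg (Real.exp_pos _).le
  set A := LF K q Λ + ((Λ.card : ℝ) * K.bound) • (1 : C(Config d, ℝ) →L[ℝ] C(Config d, ℝ)) with hA
  have h1 := hasSum_expE A t f
  have h2 : HasSum (fun n : ℕ => (((n ! : ℝ)⁻¹ * t ^ n) • (A ^ n) f) η) (expE (t • A) f η) :=
    (ContinuousMap.evalCLM ℝ η).hasSum h1
  have h3 : ∀ n : ℕ, ∀ ζ, 0 ≤ ((A ^ n) f) ζ := by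
    intro n
    induction n with
    | zero => intro ζ; exact hf ζ
    | succ n ih =>
      intro ζ
      rw [pow_succ', mul_apply_eq_comp]
      exact shift_nonneg K q Λ _ ih ζ
  refine h2.nonneg ?_
  intro n
  rw [ContinuousMap.smul_apply, smul_eq_mul]
  exact mul_nonneg (by positivity) (h3 n η)

theorem LF_one (Λ : Finset (Site d)) : LF K q Λ 1 = 0 := by
  ext η
  rw [LF_apply, ContinuousMap.coe_sum, Finset.sum_apply]
  apply Finset.sum_eq_zero
  intro x _
  rw [Lx_apply]
  simp

theorem TF_one (Λ : Finset (Site d)) (t : ℝ) : TF K q Λ t 1 = 1 := by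
  have h1 := hasSum_TF K q Λ t 1
  have h2 : HasSum (fun n : ℕ => ((n ! : ℝ)⁻¹ * t ^ n) • ((LF K q Λ) ^ n) 1)
      (((0 ! : ℝ)⁻¹ * t ^ 0) • ((LF K q Λ) ^ 0) 1) := by
    apply hasSum_single 0
    intro n hn
    obtain ⟨m, rfl⟩ := Nat.exists_eq_succ_of_ne_zero hn
    rw [Nat.succ_eq_add_one, pow_succ (LF K q Λ), mul_apply_eq_comp, LF_one, map_zero, smul_zero]
  rw [h1.unique h2]
  simp

theorem norm_TF_le (Λ : Finset (Site d)) (t : ℝ) (ht : 0 ≤ t) (f : C(Config d, ℝ)) :
    ‖TF K q Λ t f‖ ≤ ‖f‖ := by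
  rw [ContinuousMap.norm_le _ (norm_nonneg _)]
  intro η
  rw [Real.norm_eq_abs, abs_le]
  constructor
  · have h := TF_nonneg K q Λ t ht (‖f‖ • 1 + f) (fun ζ => by
      have := f.norm_coe_le_norm ζ
      rw [Real.norm_eq_abs, abs_le] at this
      simp only [ContinuousMap.add_apply, ContinuousMap.smul_apply, ContinuousMap.one_apply,
        smul_eq_mul, mul_one]
      linarith) η
    rw [map_add, map_smul, TF_one] at h
    simp only [ContinuousMap.add_apply, ContinuousMap.smul_apply, ContinuousMap.one_apply,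
        smul_eq_mul, mul_one] at h
    linarith
  · have h := TF_nonneg K q Λ t ht (‖f‖ • 1 - f) (fun ζ => by
      have := f.norm_coe_le_norm ζ
      rw [Real.norm_eq_abs, abs_le] at this
      simp only [ContinuousMap.sub_apply, ContinuousMap.smul_apply, ContinuousMap.one_apply,
        smul_eq_mul, mul_one]
      linarith) η
    rw [map_sub, map_smul, TF_one] at h
    simp only [ContinuousMap.sub_apply, ContinuousMap.smul_apply, ContinuousMap.one_apply,
        smul_eq_mul, mul_one] at h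
    linarith

theorem norm_TF_sub_le (Λ : Finset (Site d)) (t : ℝ) (ht : 0 ≤ t) (f : C(Config d, ℝ)) :
    ‖TF K q Λ t f - f‖ ≤ t * ‖LF K q Λ f‖ :=
  norm_expE_sub_le (LF K q Λ) (fun s hs g => norm_TF_le K q Λ s hs g) t ht f

theorem norm_TF_sub_sub_le (Λ : Finset (Site d)) (t : ℝ) (ht : 0 ≤ t) (f : C(Config d, ℝ)) :
    ‖TF K q Λ t f - f - t • LF K q Λ f‖ ≤ t * (t * ‖LF K q Λ (LF K q Λ f)‖) :=
  norm_expE_sub_sub_le (LF K q Λ) (fun s hs g => norm_TF_le K q Λ s hs g) t ht f

end Pool.Agent.Y726.Kc
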