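import Pool.Agent.Y726.KCM.Limit

/-!
# Properties of the limit measures
-/

set_option autoImplicit false

open MeasureTheory ProbabilityTheory Filter Topology unitInterval
open scoped NNReal ENNReal Nat

namespace Pool.Agent.Y726.Kc

/-- the origin of the cells in layer `z` -/
def org (z : ℤ) : Site 3 := ![0, 0, z]

theorem cell_org (z : ℤ) : cell (org z) = 0 := rfl

theorem zero_mem_bx (K : ℕ) : (0 : Cell) ∈ bx K := by
  rw [mem_bx]
  have : (0 : ℤ) < 3 ^ K := by positivity
  simp [this]

section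

variable {lam : ℝ} (hl : 2592 ≤ lam)

include hl

theorem bad_le (K : ℕ) : ∑ p ∈ VV (bx K) with (0 : Cell) ∉ p.1, wgt lam p / ZZ lam (bx K) ≤
    1 / 81 := by
  have hpos : 0 < lam := by linarith
  have hZ := ZZ_pos hpos (bx K)
  rw [← Finset.sum_div, ZZ_bad, div_le_iff₀ hZ, ZZ_eq]
  exact Zbad_le hl K

theorem coord_A_ge (s : ℤ) (hs : s = 0 ∨ s = 1) (K : ℕ) :
    80 / 81 ≤ ∫ η, coord (org s) η ∂(muF lam s K) := by
  have hpos : 0 < lam := by linarith
  rw [integral_muF hpos]
  have h1 : ∀ p ∈ VV (bx K), wgt lam p / ZZ lam (bx K) * coord (org s) (conf s (bx K) p) =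
      wgt lam p / ZZ lam (bx K) - (if (0 : Cell) ∉ p.1 then wgt lam p / ZZ lam (bx K) else 0) := by
    intro p _
    rw [coord_apply, conf_A (by simpa [org] using hs) (by simp [TA, org]; omega), cell_org]
    by_cases h : (0 : Cell) ∈ p.1
    · simp [h]
    · simp [h, zero_mem_bx K]
  rw [Finset.sum_congr rfl h1, Finset.sum_sub_distrib, sum_wgt_div hpos, ← Finset.sum_filter]
  have := bad_le hl K
  linarith

theorem coord_B_le (s : ℤ) (hs : s = 0 ∨ s = 1) (K : ℕ) :
    ∫ η, coord (org (1 - s)) η ∂(muF lam s K) ≤ 1 / 81 := by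
  have hpos : 0 < lam := by linarith
  rw [integral_muF hpos]
  refine le_trans ?_ (bad_le hl K)
  rw [Finset.sum_filter]
  apply Finset.sum_le_sum
  intro p hp
  rw [mem_VV] at hp
  rw [coord_apply, conf_B (by simp [org]; omega) (by simp [TA, org]), cell_org]
  have hw := wgt_div_nonneg hpos (bx K) p
  by_cases h : (0 : Cell) ∈ p.2
  · have := (hp.2 0 h).1
    simp [h, this]
  · simp only [h, decide_false, Bool.false_eq_true, if_false, mul_zero]
    split_ifs
    · exact le_rfl
    · exact hw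

/-- The limit measures. -/
theorem exists_measure {q : I} (hlam : lam * q = 1 - q) (s : ℤ) (hs : s = 0 ∨ s = 1) :
    ∃ μ : Measure (Config 3), IsProbabilityMeasure μ ∧
      (∀ f : C(Config 3, ℝ), IsLocal f → ∫ η, gen (FA 3) q f η ∂μ = 0) ∧
      (∀ x : Site 3, (x 2 ≤ -2 ∨ 3 ≤ x 2) → ∫ η, coord x η ∂μ = 1) ∧
      (∀ x : Site 3, (x 2 = -1 ∨ x 2 = 2) → ∫ η, coord x η ∂μ = 0) ∧
      (∀ x y : Site 3, (x 2 = 0 ∨ x 2 = 1) → (y 2 = 0 ∨ y 2 = 1) → Near x y →
        ∫ η, (coord x * coord y) η ∂μ = 0) ∧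
      80 / 81 ≤ ∫ η, coord (org s) η ∂μ ∧ ∫ η, coord (org (1 - s)) η ∂μ ≤ 1 / 81 := by
  have hpos : 0 < lam := by linarith
  obtain ⟨μ, hμ, hlim⟩ := exists_limit hpos s
  have hev : ∀ {P : ℕ → Prop}, (∀ᶠ K in atTop, P K) → ∀ᶠ K in (hyperfilter ℕ : Filter ℕ), P K := by
    intro P hP
    apply hyperfilter_le_cofinite
    rwa [Nat.cofinite_eq_atTop]
  refine ⟨μ, hμ, ?_, ?_, ?_, ?_, ?_, ?_⟩
  · rintro f ⟨D, hD⟩
    have h1 := hlim (LF (FA 3) q D f)
    have h2 : ∫ η, LF (FA 3) q D f η ∂μ = 0 := by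
      refine tendsto_nhds_unique h1 (tendsto_const_nhds.congr' ?_)
      filter_upwards [hev (eventually_inner D)] with K hK
      exact (integral_LF hpos hlam s K D hK f).symm
    rw [← h2]
    apply integral_congr_ae
    exact Eventually.of_forall fun η => gen_eq_LF (FA 3) q hD (Finset.Subset.refl D) η
  · intro x hx
    refine tendsto_nhds_unique (hlim (coord x)) (tendsto_const_nhds.congr' ?_)
    refine Eventually.of_forall fun K => ?_
    refine (integral_const_of hpos fun p _ => ?_).symm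
    rw [coord_apply, conf_true hx, if_pos rfl]
  · intro x hx
    refine tendsto_nhds_unique (hlim (coord x)) (tendsto_const_nhds.congr' ?_)
    refine Eventually.of_forall fun K => ?_
    refine (integral_const_of hpos fun p _ => ?_).symm
    rw [coord_apply, conf_false hx]
    simp
  · intro x y hx hy hxy
    refine tendsto_nhds_unique (hlim (coord x * coord y)) (tendsto_const_nhds.congr' ?_)
    refine Eventually.of_forall fun K => ?_
    refine (integral_const_of hpos fun p hp => ?_).symm
    rw [mem_VV] at hp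
    have key : ∀ u v : Site 3, (u 2 = 0 ∨ u 2 = 1) → (v 2 = 0 ∨ v 2 = 1) → Near u v → TA s u →
        coord u (conf s (bx K) p) * coord v (conf s (bx K) p) = 0 := by
      intro u v hu hv huv hA
      have hB : ¬ TA s v := by rw [TA_near huv]; exact not_not.2 hA
      rw [coord_apply, coord_apply, conf_A hu hA, conf_B hv hB]
      by_cases h : cell v ∈ p.2
      · have h3 := hp.2 _ h
        have h4 : cell u ∉ p.1 ∧ cell u ∈ bx K := by
          have huv' := near_iff.1 huv.symm
          rcases huv' with h5 | h5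
          · exact h3.2 _ h5.2
          · rw [h5.1]
            exact ⟨h3.1, hp.1.2 h⟩
        simp [h4.1, h4.2]
      · simp [h]
    rw [ContinuousMap.mul_apply]
    by_cases hA : TA s x
    · exact key x y hx hy hxy hA
    · rw [mul_comm]
      exact key y x hy hx hxy.symm ((TA_near hxy).2 hA)
  · exact ge_of_tendsto (hlim _) (Eventually.of_forall fun K => coord_A_ge hl s hs K)
  · exact le_of_tendsto (hlim _) (Eventually.of_forall fun K => coord_B_le hl s hs K)

end

end Pool.Agent.Y726.Kc
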