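import Pool.Agent.Y726.KCM.Props

/-!
# The stationary measures are not mixtures of the measures `π_β`
-/

set_option autoImplicit false

open MeasureTheory ProbabilityTheory Filter Topology unitInterval
open scoped NNReal ENNReal Nat

namespace Pool.Agent.Y726.Kc

variable {d : ℕ}

theorem IsLocalEvent.dependsOn {S : Set (Config d)} (h : IsLocalEvent S) :
    ∃ D : Finset (Site d), DependsOn (S.indicator (fun _ => (1 : ℝ))) (D : Set (Site d)) := by
  obtain ⟨D, hD⟩ := h
  refine ⟨D, fun η η' hη => ?_⟩
  have h1 : η ∈ S ↔ η' ∈ S := hD η η' (fun x hx => hη x (by exact_mod_cast hx))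
  by_cases h2 : η ∈ S
  · rw [Set.indicator_of_mem h2, Set.indicator_of_mem (h1.1 h2)]
  · rw [Set.indicator_of_notMem h2, Set.indicator_of_notMem (mt h1.2 h2)]

theorem IsLocalEvent.isLocal {S : Set (Config d)} (h : IsLocalEvent S) :
    IsLocal (S.indicator (fun _ => (1 : ℝ))) := h.dependsOn

theorem IsLocalEvent.measurableSet {S : Set (Config d)} (h : IsLocalEvent S) :
    MeasurableSet S := by
  obtain ⟨D, hD⟩ := h.dependsOn
  have h1 : Continuous (S.indicator (fun _ => (1 : ℝ))) := continuous_of_dependsOn hD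
  have h2 : S = (S.indicator (fun _ => (1 : ℝ))) ⁻¹' {1} := by
    ext η
    rw [Set.mem_preimage, Set.mem_singleton_iff]
    by_cases h3 : η ∈ S
    · simp [h3]
    · simp [h3]
  rw [h2]
  exact (isClosed_singleton.preimage h1).measurableSet

theorem mem_boxF_iff {L : ℕ} {x : Site d} : x ∈ boxF d L ↔ x ∈ box d L := by
  unfold boxF box
  rw [mem_ballF, Set.mem_setOf_eq]
  refine forall_congr' fun i => ?_
  rw [abs_le]
  simp

theorem evA_local (K : KCM d) (β : Config d) (L : ℕ) : IsLocalEvent (evA K β L) := by
  refine ⟨boxF d L, fun η η' h => ?_⟩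
  have h1 : fill (box d L) η = fill (box d L) η' := by
    funext x
    unfold fill
    split_ifs with hx
    · exact h x (mem_boxF_iff.2 hx)
    · rfl
  unfold evA closureIn
  rw [Set.mem_setOf_eq, Set.mem_setOf_eq, h1]

theorem evA_measurable (K : KCM d) (β : Config d) (L : ℕ) : MeasurableSet (evA K β L) :=
  (evA_local K β L).measurableSet

theorem eventually_mem_box (x : Site d) : ∀ᶠ L in atTop, x ∈ box d L := by
  filter_upwards [eventually_subset_boxF {x}] with L hL
  exact mem_boxF_iff.1 (hL (Finset.mem_singleton_self x))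

section cond

variable {K : KCM d} {q : I} {β : Config d}

theorem condπ_spec (h : Admissible K q β) {S : Set (Config d)} (hS : IsLocalEvent S) :
    Tendsto (fun L => ((prodπ d q)[|evA K β L]).real S) atTop
      (𝓝 (condπ K q β (S.indicator (fun _ => (1 : ℝ))))) := by
  obtain ⟨l, hl⟩ := h.2 S hS
  have h1 : (fun L => ∫ η, S.indicator (fun _ => (1 : ℝ)) η ∂((prodπ d q)[|evA K β L])) =
      (fun L => ((prodπ d q)[|evA K β L]).real S) := by
    funext L
    exact integral_indicator_one hS.measurableSet
  have h2 : condπ K q β (S.indicator (fun _ => (1 : ℝ))) = l := by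
    unfold condπ
    rw [h1]
    exact hl.limUnder_eq
  rw [h2]
  exact hl

instance : IsProbabilityMeasure (prodπ d q) := by
  unfold prodπ
  infer_instance

theorem cond_isProb (h : Admissible K q β) :
    ∀ᶠ L in atTop, IsProbabilityMeasure ((prodπ d q)[|evA K β L]) := by
  filter_upwards [h.1] with L hL
  exact cond_isProbabilityMeasure hL.ne'

theorem condπ_nonneg (h : Admissible K q β) {S : Set (Config d)} (hS : IsLocalEvent S) :
    0 ≤ condπ K q β (S.indicator (fun _ => (1 : ℝ))) :=
  ge_of_tendsto (condπ_spec h hS) (Eventually.of_forall fun _ => measureReal_nonneg)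

theorem condπ_le_one (h : Admissible K q β) {S : Set (Config d)} (hS : IsLocalEvent S) :
    condπ K q β (S.indicator (fun _ => (1 : ℝ))) ≤ 1 := by
  refine le_of_tendsto (condπ_spec h hS) ?_
  filter_upwards [cond_isProb h] with L hL
  exact measureReal_le_one

/-- if the event contains `A_L(β)` for large `L` then its conditional probability is `1` -/
theorem condπ_eq_one (h : Admissible K q β) {S : Set (Config d)} (hS : IsLocalEvent S)
    (hsub : ∀ᶠ L in atTop, evA K β L ⊆ S) :
    condπ K q β (S.indicator (fun _ => (1 : ℝ))) = 1 := by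
  refine tendsto_nhds_unique (condπ_spec h hS) (tendsto_const_nhds.congr' ?_)
  filter_upwards [cond_isProb h, hsub, h.1] with L hL h1 h2
  have h3 : ((prodπ d q)[|evA K β L]) (evA K β L) = 1 :=
    cond_apply_self h2.ne' (measure_ne_top _ _)
  have h4 : ((prodπ d q)[|evA K β L]) S = 1 :=
    le_antisymm prob_le_one (h3 ▸ measure_mono h1)
  rw [measureReal_def, h4]
  rfl

/-- if the event does not meet `A_L(β)` for large `L` then its conditional probability is `0` -/
theorem condπ_eq_zero (h : Admissible K q β) {S : Set (Config d)} (hS : IsLocalEvent S)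
    (hsub : ∀ᶠ L in atTop, Disjoint (evA K β L) S) :
    condπ K q β (S.indicator (fun _ => (1 : ℝ))) = 0 := by
  refine tendsto_nhds_unique (condπ_spec h hS) (tendsto_const_nhds.congr' ?_)
  filter_upwards [hsub] with L h1
  have h4 : ((prodπ d q)[|evA K β L]) S = 0 := by
    rw [cond_apply (evA_measurable K β L), Set.disjoint_iff_inter_eq_empty.1 h1]
    simp
  rw [measureReal_def, h4]
  rfl

end cond

/-- mixtures: events of probability one -/
theorem ae_eq_one {K : KCM d} {q : I} {μ M : Measure (Config d)} [IsProbabilityMeasure M]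
    (hM : ∀ᵐ β ∂M, closure K β = β ∧ Admissible K q β)
    (hf : ∀ f : Config d → ℝ, IsLocal f → AEMeasurable (fun β => condπ K q β f) M ∧
      ∫ η, f η ∂μ = ∫ β, condπ K q β f ∂M)
    {S : Set (Config d)} (hS : IsLocalEvent S)
    (h1 : ∫ η, S.indicator (fun _ => (1 : ℝ)) η ∂μ = 1) :
    ∀ᵐ β ∂M, condπ K q β (S.indicator (fun _ => (1 : ℝ))) = 1 := by
  obtain ⟨hm, hi⟩ := hf _ hS.isLocal
  rw [h1] at hi
  have h2 : ∀ᵐ β ∂M, 0 ≤ 1 - condπ K q β (S.indicator (fun _ => (1 : ℝ))) := by
    filter_upwards [hM] with β hβ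
    have := condπ_le_one hβ.2 hS
    linarith
  have hint : Integrable (fun β => condπ K q β (S.indicator (fun _ => (1 : ℝ)))) M := by
    refine Integrable.of_bound hm.aestronglyMeasurable 1 ?_
    filter_upwards [hM] with β hβ
    rw [Real.norm_eq_abs, abs_le]
    have := condπ_le_one hβ.2 hS
    have := condπ_nonneg hβ.2 hS
    constructor <;> linarith
  have h3 : ∫ β, (1 - condπ K q β (S.indicator (fun _ => (1 : ℝ)))) ∂M = 0 := by
    rw [integral_sub (integrable_const _) hint, ← hi]
    simp
  rw [integral_eq_zero_iff_of_nonneg_ae h2 ((integrable_const _).sub hint)] at h3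
  filter_upwards [h3] with β hβ
  have : 1 - condπ K q β (S.indicator (fun _ => (1 : ℝ))) = 0 := hβ
  linarith

/-- mixtures: events of probability zero -/
theorem ae_eq_zero {K : KCM d} {q : I} {μ M : Measure (Config d)} [IsProbabilityMeasure M]
    (hM : ∀ᵐ β ∂M, closure K β = β ∧ Admissible K q β)
    (hf : ∀ f : Config d → ℝ, IsLocal f → AEMeasurable (fun β => condπ K q β f) M ∧
      ∫ η, f η ∂μ = ∫ β, condπ K q β f ∂M)
    {S : Set (Config d)} (hS : IsLocalEvent S)
    (h1 : ∫ η, S.indicator (fun _ => (1 : ℝ)) η ∂μ = 0) :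
    ∀ᵐ β ∂M, condπ K q β (S.indicator (fun _ => (1 : ℝ))) = 0 := by
  obtain ⟨hm, hi⟩ := hf _ hS.isLocal
  rw [h1] at hi
  have h2 : ∀ᵐ β ∂M, 0 ≤ condπ K q β (S.indicator (fun _ => (1 : ℝ))) := by
    filter_upwards [hM] with β hβ
    exact condπ_nonneg hβ.2 hS
  have hint : Integrable (fun β => condπ K q β (S.indicator (fun _ => (1 : ℝ)))) M := by
    refine Integrable.of_bound hm.aestronglyMeasurable 1 ?_
    filter_upwards [hM] with β hβ
    rw [Real.norm_eq_abs, abs_le]
    have := condπ_le_one hβ.2 hS
    have := condπ_nonneg hβ.2 hS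
    constructor <;> linarith
  have h3 := hi.symm
  rw [integral_eq_zero_iff_of_nonneg_ae h2 hint] at h3
  filter_upwards [h3] with β hβ
  exact hβ

/-! ### The closure for FA -/

theorem closureIn_le (K : KCM d) {Λ : Set (Site d)} {η : Config d} {x : Site d} (hx : x ∈ Λ)
    (h : closureIn K Λ η x = true) : η x = true := by
  classical
  unfold closureIn at h
  rw [decide_eq_true_iff] at h
  have h0 := h 0
  rw [Function.iterate_zero, id_eq] at h0
  unfold fill at h0
  rwa [if_pos hx] at h0

theorem closureIn_pair {Λ : Set (Site 3)} {η : Config 3} {x y : Site 3} (hx : x ∈ Λ) (hy : y ∈ Λ)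
    (hxy : Near x y) (hηx : η x = true) (hηy : η y = true) :
    closureIn (FA 3) Λ η x = true := by
  classical
  unfold closureIn
  rw [decide_eq_true_iff]
  have key : ∀ n : ℕ, (stepIn (FA 3) Λ)^[n] (fill Λ η) x = true ∧
      (stepIn (FA 3) Λ)^[n] (fill Λ η) y = true := by
    intro n
    induction n with
    | zero =>
      rw [Function.iterate_zero, id_eq]
      unfold fill
      rw [if_pos hx, if_pos hy]
      exact ⟨hηx, hηy⟩
    | succ n ih =>
      rw [Function.iterate_succ_apply']
      generalize (stepIn (FA 3) Λ)^[n] (fill Λ η) = ζ at ih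
      unfold stepIn fill step
      rw [if_pos hx, if_pos hy, if_neg, if_neg]
      · exact ih
      · rw [c_FA_zero hxy.symm ih.1]
        exact lt_irrefl 0
      · rw [c_FA_zero hxy ih.2]
        exact lt_irrefl 0
  exact fun n => (key n).1

theorem exists_near_of_closed {β : Config 3} (h : closure (FA 3) β = β) {x : Site 3}
    (hx : β x = true) : ∃ y, Near x y ∧ β y = true := by
  classical
  by_contra hcon
  push Not at hcon
  have h1 : (FA 3).c x β = 1 := c_FA_one fun y hy => by
    have := hcon y hy
    simpa using this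
  have h2 : closure (FA 3) β x = true := by rw [h]; exact hx
  unfold closure at h2
  rw [decide_eq_true_iff] at h2
  have h3 := h2 1
  rw [Function.iterate_one] at h3
  unfold step at h3
  rw [if_pos (by rw [h1]; exact one_pos)] at h3
  exact Bool.false_ne_true h3

theorem local_one (x : Site 3) : IsLocalEvent {η : Config 3 | η x = true} :=
  ⟨{x}, fun η η' h => by
    rw [Set.mem_setOf_eq, Set.mem_setOf_eq, h x (Finset.mem_singleton_self x)]⟩

theorem local_two (x y : Site 3) : IsLocalEvent {η : Config 3 | η x = true ∧ η y = true} :=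
  ⟨{x, y}, fun η η' h => by
    rw [Set.mem_setOf_eq, Set.mem_setOf_eq, h x (by simp), h y (by simp)]⟩

theorem coord_eq (x : Site 3) :
    (fun η => coord x η) = ({η : Config 3 | η x = true} : Set (Config 3)).indicator
      (fun _ => (1 : ℝ)) := by
  funext η
  rw [coord_apply]
  by_cases h : η x = true
  · rw [Set.indicator_of_mem (by exact h), if_pos h]
  · rw [Set.indicator_of_notMem (by exact h), if_neg h]

theorem coord_mul_eq (x y : Site 3) :
    (fun η => (coord x * coord y) η) =
      ({η : Config 3 | η x = true ∧ η y = true} : Set (Config 3)).indicator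
      (fun _ => (1 : ℝ)) := by
  funext η
  rw [ContinuousMap.mul_apply, coord_apply, coord_apply]
  by_cases h : η x = true ∧ η y = true
  · rw [Set.indicator_of_mem (by exact h), if_pos h.1, if_pos h.2, one_mul]
  · rw [Set.indicator_of_notMem (by exact h)]
    by_cases h1 : η x = true
    · rw [if_neg (fun h2 => h ⟨h1, h2⟩), mul_zero]
    · rw [if_neg h1, zero_mul]

theorem mixture_eq {q : I} {μ : Measure (Config 3)}
    (h3 : ∀ x : Site 3, (x 2 ≤ -2 ∨ 3 ≤ x 2) → ∫ η, coord x η ∂μ = 1)
    (h4 : ∀ x : Site 3, (x 2 = -1 ∨ x 2 = 2) → ∫ η, coord x η ∂μ = 0)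
    (h5 : ∀ x y : Site 3, (x 2 = 0 ∨ x 2 = 1) → (y 2 = 0 ∨ y 2 = 1) → Near x y →
        ∫ η, (coord x * coord y) η ∂μ = 0)
    (hmix : IsMixture (FA 3) q μ) (f : Config 3 → ℝ) (hfl : IsLocal f) :
    ∫ η, f η ∂μ = condπ (FA 3) q β₀ f := by
  obtain ⟨M, hMp, hM, hf⟩ := hmix
  have a3 : ∀ᵐ β ∂M, ∀ x : Site 3, (x 2 ≤ -2 ∨ 3 ≤ x 2) →
      condπ (FA 3) q β (({η : Config 3 | η x = true} : Set (Config 3)).indicator
        (fun _ => (1 : ℝ))) = 1 := by
    rw [ae_all_iff]
    intro x
    by_cases hx : x 2 ≤ -2 ∨ 3 ≤ x 2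
    · have := h3 x hx
      rw [coord_eq] at this
      filter_upwards [ae_eq_one hM hf (local_one x) this] with β hβ _
      exact hβ
    · exact Eventually.of_forall fun β hh => absurd hh hx
  have a4 : ∀ᵐ β ∂M, ∀ x : Site 3, (x 2 = -1 ∨ x 2 = 2) →
      condπ (FA 3) q β (({η : Config 3 | η x = true} : Set (Config 3)).indicator
        (fun _ => (1 : ℝ))) = 0 := by
    rw [ae_all_iff]
    intro x
    by_cases hx : x 2 = -1 ∨ x 2 = 2
    · have := h4 x hx
      rw [coord_eq] at this
      filter_upwards [ae_eq_zero hM hf (local_one x) this] with β hβ _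
      exact hβ
    · exact Eventually.of_forall fun β hh => absurd hh hx
  have a5 : ∀ᵐ β ∂M, ∀ x y : Site 3, (x 2 = 0 ∨ x 2 = 1) → (y 2 = 0 ∨ y 2 = 1) → Near x y →
      condπ (FA 3) q β (({η : Config 3 | η x = true ∧ η y = true} : Set (Config 3)).indicator
        (fun _ => (1 : ℝ))) = 0 := by
    rw [ae_all_iff]
    intro x
    rw [ae_all_iff]
    intro y
    by_cases hx : (x 2 = 0 ∨ x 2 = 1) ∧ (y 2 = 0 ∨ y 2 = 1) ∧ Near x y
    · have := h5 x y hx.1 hx.2.1 hx.2.2
      rw [coord_mul_eq] at this
      filter_upwards [ae_eq_zero hM hf (local_two x y) this] with β hβ _ _ _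
      exact hβ
    · exact Eventually.of_forall fun β hh hh' hh'' => absurd ⟨hh, hh', hh''⟩ hx
  have hβ : ∀ᵐ β ∂M, β = β₀ := by
    filter_upwards [hM, a3, a4, a5] with β hβM b3 b4 b5
    obtain ⟨hcl, hadm⟩ := hβM
    have c3 : ∀ x : Site 3, (x 2 ≤ -2 ∨ 3 ≤ x 2) → β x = true := by
      intro x hx
      by_contra hne
      have hN : Near x ![x 0 + 1, x 1, x 2] := by
        rw [near_iff]
        left
        simp [cell, nb]
      set y : Site 3 := ![x 0 + 1, x 1, x 2] with hy
      have hy2 : y 2 ≤ -2 ∨ 3 ≤ y 2 := by simpa [hy] using hx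
      have e1 := condπ_spec hadm (local_one x)
      have e2 := condπ_spec hadm (local_one y)
      rw [b3 x hx] at e1
      rw [b3 y hy2] at e2
      have e3 : Tendsto (fun L => ((prodπ 3 q)[|evA (FA 3) β L]).real {η : Config 3 | η x = true} +
          ((prodπ 3 q)[|evA (FA 3) β L]).real {η : Config 3 | η y = true}) atTop
          (𝓝 (1 + 1)) := e1.add e2
      have e4 : (1 : ℝ) + 1 ≤ 1 := by
        refine le_of_tendsto e3 ?_
        filter_upwards [eventually_mem_box x, eventually_mem_box y, cond_isProb hadm, hadm.1]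
          with L hLx hLy hLp hL1
        have hd : ((prodπ 3 q)[|evA (FA 3) β L]) ({η : Config 3 | η x = true} ∩
            {η : Config 3 | η y = true}) = 0 := by
          rw [cond_apply (evA_measurable (FA 3) β L)]
          have : evA (FA 3) β L ∩ ({η : Config 3 | η x = true} ∩ {η : Config 3 | η y = true}) =
              ∅ := by
            rw [Set.eq_empty_iff_forall_notMem]
            rintro η ⟨hη1, hη2, hη3⟩
            have h6 := hη1 x hLx
            rw [closureIn_pair hLx hLy hN hη2 hη3] at h6
            exact hne h6.symm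
          rw [this]
          simp
        have hu : ((prodπ 3 q)[|evA (FA 3) β L]) ({η : Config 3 | η x = true} ∪
            {η : Config 3 | η y = true}) + ((prodπ 3 q)[|evA (FA 3) β L])
            ({η : Config 3 | η x = true} ∩ {η : Config 3 | η y = true}) =
            ((prodπ 3 q)[|evA (FA 3) β L]) {η : Config 3 | η x = true} +
            ((prodπ 3 q)[|evA (FA 3) β L]) {η : Config 3 | η y = true} :=
          measure_union_add_inter _ (local_one y).measurableSet
        rw [hd, add_zero] at hu
        rw [measureReal_def, measureReal_def, ← ENNReal.toReal_add (measure_ne_top _ _)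
          (measure_ne_top _ _), ← hu]
        exact ENNReal.toReal_le_of_le_ofReal (by norm_num) (by simpa using prob_le_one)
      norm_num at e4
    have c4 : ∀ x : Site 3, (x 2 = -1 ∨ x 2 = 2) → β x = false := by
      intro x hx
      by_contra hne
      rw [Bool.not_eq_false] at hne
      have h6 := condπ_eq_one hadm (local_one x) (by
        filter_upwards [eventually_mem_box x] with L hL
        intro η hη
        refine closureIn_le (FA 3) hL ?_
        rw [hη x hL]
        exact hne)
      rw [b4 x hx] at h6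
      norm_num at h6
    have c5 : ∀ x : Site 3, (x 2 = 0 ∨ x 2 = 1) → β x = false := by
      intro x hx
      by_contra hne
      rw [Bool.not_eq_false] at hne
      obtain ⟨y, hxy, hy⟩ := exists_near_of_closed hcl hne
      have hy2 : y 2 = 0 ∨ y 2 = 1 := by
        by_contra hcon
        have h7 := near_iff.1 hxy
        have h8 := c4 y (by omega)
        rw [h8] at hy
        exact Bool.false_ne_true hy
      have h6 := condπ_eq_one hadm (local_two x y) (by
        filter_upwards [eventually_mem_box x, eventually_mem_box y] with L hL hL'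
        intro η hη
        refine ⟨closureIn_le (FA 3) hL ?_, closureIn_le (FA 3) hL' ?_⟩
        · rw [hη x hL]
          exact hne
        · rw [hη y hL']
          exact hy)
      rw [b5 x y hx hy2 hxy] at h6
      norm_num at h6
    funext x
    unfold β₀
    by_cases hx : x 2 ≤ -2 ∨ 3 ≤ x 2
    · rw [c3 x hx]
      exact (decide_eq_true hx).symm
    · rw [decide_eq_false hx]
      by_cases hx' : x 2 = -1 ∨ x 2 = 2
      · exact c4 x hx'
      · exact c5 x (by omega)
  rw [(hf f hfl).2]
  rw [integral_congr_ae (g := fun _ => condπ (FA 3) q β₀ f)]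
  · simp
  · filter_upwards [hβ] with β hb
    rw [hb]

end Pool.Agent.Y726.Kc
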