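import Pool.Agent.Y726.KCM.Pow

/-!
# The semigroup of a kinetically constrained model
-/

set_option autoImplicit false

open MeasureTheory ProbabilityTheory Filter Topology unitInterval
open scoped NNReal ENNReal Nat

namespace Pool.Agent.Y726.Kc

variable {d : ℕ}

theorem isLocal_coe {f : C(Config d, ℝ)} {D : Finset (Site d)}
    (h : DependsOn f (D : Set (Site d))) : IsLocal f := ⟨D, h⟩

theorem dependsOn_mono_coe {f : Config d → ℝ} {D D' : Finset (Site d)}
    (h : DependsOn f (D : Set (Site d))) (hD : D ⊆ D') : DependsOn f (D' : Set (Site d)) :=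
  h.mono (by exact_mod_cast hD)

/-- the algebra of the continuous local functions -/
def localAlg (d : ℕ) : Subalgebra ℝ C(Config d, ℝ) where
  carrier := {f | IsLocal f}
  mul_mem' := by
    rintro f g ⟨D, hD⟩ ⟨D', hD'⟩
    refine ⟨D ∪ D', ?_⟩
    have h1 := dependsOn_mono_coe hD (Finset.subset_union_left (s₂ := D'))
    have h2 := dependsOn_mono_coe hD' (Finset.subset_union_right (s₁ := D))
    intro η η' h
    rw [ContinuousMap.mul_apply, ContinuousMap.mul_apply, h1 h, h2 h]
  add_mem' := by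
    rintro f g ⟨D, hD⟩ ⟨D', hD'⟩
    refine ⟨D ∪ D', ?_⟩
    have h1 := dependsOn_mono_coe hD (Finset.subset_union_left (s₂ := D'))
    have h2 := dependsOn_mono_coe hD' (Finset.subset_union_right (s₁ := D))
    intro η η' h
    rw [ContinuousMap.add_apply, ContinuousMap.add_apply, h1 h, h2 h]
  algebraMap_mem' := by
    intro r
    exact ⟨∅, fun η η' _ => rfl⟩

theorem localAlg_dense (d : ℕ) : (localAlg d).topologicalClosure = ⊤ := by
  apply ContinuousMap.subalgebra_topologicalClosure_eq_top_of_separatesPoints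
  intro η η' hne
  obtain ⟨x, hx⟩ := Function.ne_iff.1 hne
  have hdep : DependsOn (fun ζ : Config d => if ζ x then (1 : ℝ) else 0)
      (({x} : Finset (Site d)) : Set (Site d)) := by
    intro ζ ζ' h
    have := h x (by simp)
    dsimp only
    rw [this]
  refine ⟨fun ζ => if ζ x then (1 : ℝ) else 0, ⟨⟨_, continuous_of_dependsOn hdep⟩, ?_, rfl⟩, ?_⟩
  · exact ⟨{x}, hdep⟩
  · dsimp only
    intro h
    apply hx
    cases h1 : η x <;> cases h2 : η' x <;> simp_all

theorem exists_local_near (f : C(Config d, ℝ)) {ε : ℝ} (hε : 0 < ε) :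
    ∃ g : C(Config d, ℝ), IsLocal g ∧ ‖f - g‖ < ε := by
  have h1 : f ∈ (localAlg d).topologicalClosure := by
    rw [localAlg_dense]
    trivial
  rw [← SetLike.mem_coe, Subalgebra.topologicalClosure_coe, Metric.mem_closure_iff] at h1
  obtain ⟨g, hg, hfg⟩ := h1 ε hε
  refine ⟨g, hg, ?_⟩
  rwa [dist_eq_norm] at hfg

variable (K : KCM d) (q : I)

/-- convergence of the finite volume semigroups at time `t` -/
def Conv (t : ℝ) : Prop :=
  ∀ f : C(Config d, ℝ), ∃ g, Tendsto (fun m => TF K q (boxF d m) t f) atTop (𝓝 g)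

/-- the limit of the `n`-th power of the generator applied to a local function -/
noncomputable def Gn (n : ℕ) (D : Finset (Site d)) (f : C(Config d, ℝ)) : C(Config d, ℝ) :=
  ((LF K q ((enl K)^[n] D)) ^ n) f

theorem eventually_Gn (n : ℕ) {D : Finset (Site d)} {f : C(Config d, ℝ)}
    (h : DependsOn f (D : Set (Site d))) :
    ∀ᶠ m in atTop, ((LF K q (boxF d m)) ^ n) f = Gn K q n D f := by
  filter_upwards [eventually_subset_boxF ((enl K)^[n] D)] with m hm
  exact LF_pow_stab K q n h hm (Finset.Subset.refl _)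

theorem norm_Gn_le (n : ℕ) {D : Finset (Site d)} {f : C(Config d, ℝ)}
    (h : DependsOn f (D : Set (Site d))) :
    ‖Gn K q n D f‖ ≤ n ! * (2 ^ D.card * kap K ^ n * ‖f‖) :=
  norm_LF_pow_le K q _ n D f h

theorem bound_term (t : ℝ) (ht : 0 ≤ t) (hk : kap K * t ≤ 1 / 2) (n : ℕ) (D : Finset (Site d))
    (f g : C(Config d, ℝ)) (hg : ‖g‖ ≤ n ! * (2 ^ D.card * kap K ^ n * ‖f‖)) :
    ‖((n ! : ℝ)⁻¹ * t ^ n) • g‖ ≤ 2 ^ D.card * ‖f‖ * (1 / 2) ^ n := by
  have hkn := kap_nonneg K
  have hf : (0 : ℝ) < n ! := by exact_mod_cast Nat.factorial_pos n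
  rw [norm_smul, Real.norm_eq_abs, abs_of_nonneg (by positivity)]
  calc ((n ! : ℝ)⁻¹ * t ^ n) * ‖g‖ ≤ ((n ! : ℝ)⁻¹ * t ^ n) *
        (n ! * (2 ^ D.card * kap K ^ n * ‖f‖)) := mul_le_mul_of_nonneg_left hg (by positivity)
    _ = 2 ^ D.card * ‖f‖ * (kap K * t) ^ n := by
        rw [mul_pow]
        field_simp
    _ ≤ 2 ^ D.card * ‖f‖ * (1 / 2) ^ n := by
        apply mul_le_mul_of_nonneg_left _ (by positivity)
        exact pow_le_pow_left₀ (by positivity) hk n

theorem summable_bound (c : ℝ) : Summable (fun n : ℕ => c * (1 / 2 : ℝ) ^ n) :=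
  (summable_geometric_of_lt_one (by norm_num) (by norm_num)).mul_left c

theorem tendsto_TF_local {t : ℝ} (ht : 0 ≤ t) (hk : kap K * t ≤ 1 / 2) {D : Finset (Site d)}
    {f : C(Config d, ℝ)} (h : DependsOn f (D : Set (Site d))) :
    Tendsto (fun m => TF K q (boxF d m) t f) atTop
      (𝓝 (∑' n : ℕ, ((n ! : ℝ)⁻¹ * t ^ n) • Gn K q n D f)) := by
  have e : (fun m => TF K q (boxF d m) t f) = fun m =>
      ∑' n : ℕ, ((n ! : ℝ)⁻¹ * t ^ n) • ((LF K q (boxF d m)) ^ n) f := by
    funext m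
    exact (hasSum_TF K q (boxF d m) t f).tsum_eq.symm
  rw [e]
  refine tendsto_tsum_of_dominated_convergence
    (bound := fun n => 2 ^ D.card * ‖f‖ * (1 / 2 : ℝ) ^ n) (summable_bound _) ?_ ?_
  · intro n
    refine (tendsto_const_nhds).congr' ?_
    filter_upwards [eventually_Gn K q n h] with m hm
    rw [hm]
  · refine Eventually.of_forall fun m n => ?_
    exact bound_term K t ht hk n D f _ (norm_LF_pow_le K q _ n D f h)

theorem hasSum_Gn {t : ℝ} (ht : 0 ≤ t) (hk : kap K * t ≤ 1 / 2) {D : Finset (Site d)}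
    {f : C(Config d, ℝ)} (h : DependsOn f (D : Set (Site d))) :
    HasSum (fun n : ℕ => ((n ! : ℝ)⁻¹ * t ^ n) • Gn K q n D f)
      (∑' n : ℕ, ((n ! : ℝ)⁻¹ * t ^ n) • Gn K q n D f) := by
  apply Summable.hasSum
  refine Summable.of_norm_bounded (summable_bound (2 ^ D.card * ‖f‖)) ?_
  intro n
  exact bound_term K t ht hk n D f _ (norm_Gn_le K q n h)

/-- Equicontinuous operators which converge on local functions converge on all functions. -/
theorem conv_of_local (T : ℕ → C(Config d, ℝ) →L[ℝ] C(Config d, ℝ)) (hT : ∀ m f, ‖T m f‖ ≤ ‖f‖)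
    (hl : ∀ f : C(Config d, ℝ), IsLocal f → ∃ g, Tendsto (fun m => T m f) atTop (𝓝 g))
    (f : C(Config d, ℝ)) : ∃ g, Tendsto (fun m => T m f) atTop (𝓝 g) := by
  apply cauchySeq_tendsto_of_complete
  rw [Metric.cauchySeq_iff']
  intro ε hε
  obtain ⟨f', hf', hff⟩ := exists_local_near f (show 0 < ε / 4 by positivity)
  obtain ⟨g, hg⟩ := hl f' hf'
  have hc := hg.cauchySeq
  rw [Metric.cauchySeq_iff'] at hc
  obtain ⟨N, hN⟩ := hc (ε / 4) (by positivity)
  refine ⟨N, fun m hm => ?_⟩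
  have h1 := hN m hm
  rw [dist_eq_norm] at h1 ⊢
  have h2 : T m f - T N f = T m (f - f') + (T m f' - T N f') - T N (f - f') := by
    rw [map_sub, map_sub]
    abel
  rw [h2]
  calc ‖T m (f - f') + (T m f' - T N f') - T N (f - f')‖
      ≤ ‖T m (f - f') + (T m f' - T N f')‖ + ‖T N (f - f')‖ := norm_sub_le _ _
    _ ≤ ‖T m (f - f')‖ + ‖T m f' - T N f'‖ + ‖T N (f - f')‖ := by
        gcongr
        exact norm_add_le _ _
    _ < ε := by
        have h3 := hT m (f - f')
        have h4 := hT N (f - f')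
        linarith

theorem conv_small {t : ℝ} (ht : 0 ≤ t) (hk : kap K * t ≤ 1 / 2) : Conv K q t := by
  intro f
  refine conv_of_local (fun m => TF K q (boxF d m) t) (fun m f => norm_TF_le K q _ t ht f) ?_ f
  rintro g ⟨D, hD⟩
  exact ⟨_, tendsto_TF_local K q ht hk hD⟩

theorem tendsto_comp {s : ℝ} (hs : 0 ≤ s) {u : ℕ → C(Config d, ℝ)} {g h : C(Config d, ℝ)}
    (hu : Tendsto u atTop (𝓝 g)) (hg : Tendsto (fun m => TF K q (boxF d m) s g) atTop (𝓝 h)) :
    Tendsto (fun m => TF K q (boxF d m) s (u m)) atTop (𝓝 h) := by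
  have h1 : Tendsto (fun m => TF K q (boxF d m) s (u m) - TF K q (boxF d m) s g) atTop (𝓝 0) := by
    rw [tendsto_zero_iff_norm_tendsto_zero]
    have h2 : Tendsto (fun m => ‖u m - g‖) atTop (𝓝 0) := by
      rw [← tendsto_zero_iff_norm_tendsto_zero]
      simpa using hu.sub_const g
    refine squeeze_zero (fun _ => norm_nonneg _) (fun m => ?_) h2
    rw [← map_sub]
    exact norm_TF_le K q _ s hs _
  have h3 := h1.add hg
  simpa using h3

theorem conv_add {s t : ℝ} (hs : 0 ≤ s) (h1 : Conv K q s) (h2 : Conv K q t) :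
    Conv K q (s + t) := by
  intro f
  obtain ⟨g, hg⟩ := h2 f
  obtain ⟨h, hh⟩ := h1 g
  refine ⟨h, ?_⟩
  have := tendsto_comp K q hs hg hh
  refine this.congr fun m => ?_
  rw [TF_add]

theorem exists_small (t : ℝ) (ht : 0 ≤ t) : ∃ N : ℕ, 0 < N ∧ kap K * (t / N) ≤ 1 / 2 := by
  obtain ⟨N, hN⟩ := exists_nat_gt (2 * (kap K * t))
  have hkn := kap_nonneg K
  have h0 : (0 : ℝ) ≤ 2 * (kap K * t) := by positivity
  have hN0 : (0 : ℝ) < N := lt_of_le_of_lt h0 hN
  refine ⟨N, by exact_mod_cast hN0, ?_⟩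
  rw [← mul_div_assoc, div_le_iff₀ hN0]
  linarith

theorem conv_all {t : ℝ} (ht : 0 ≤ t) : Conv K q t := by
  obtain ⟨N, hN, hk⟩ := exists_small K t ht
  have h1 : Conv K q (t / N) := conv_small K q (by positivity) hk
  have h2 : ∀ n : ℕ, Conv K q (n * (t / N)) := by
    intro n
    induction n with
    | zero =>
      intro f
      refine ⟨f, ?_⟩
      refine tendsto_const_nhds.congr fun m => ?_
      rw [Nat.cast_zero, zero_mul, TF_zero]
    | succ n ih =>
      have := conv_add K q (by positivity) ih h1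
      have e : ((n + 1 : ℕ) : ℝ) * (t / N) = n * (t / N) + t / N := by
        push_cast
        ring
      rw [e]
      exact this
  have h3 := h2 N
  have hN' : (N : ℝ) ≠ 0 := by exact_mod_cast hN.ne'
  rwa [mul_div_cancel₀ _ hN'] at h3

/-- the semigroup on functions -/
noncomputable def P0 (t : ℝ≥0) (f : C(Config d, ℝ)) : C(Config d, ℝ) :=
  (conv_all K q t.2 f).choose

theorem tendsto_P0 (t : ℝ≥0) (f : C(Config d, ℝ)) :
    Tendsto (fun m => TF K q (boxF d m) t f) atTop (𝓝 (P0 K q t f)) :=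
  (conv_all K q t.2 f).choose_spec

theorem norm_P0_le (t : ℝ≥0) (f : C(Config d, ℝ)) : ‖P0 K q t f‖ ≤ ‖f‖ :=
  le_of_tendsto (tendsto_P0 K q t f).norm (Eventually.of_forall fun m => norm_TF_le K q _ t t.2 f)

/-- the semigroup -/
noncomputable def PS (t : ℝ≥0) : C(Config d, ℝ) →L[ℝ] C(Config d, ℝ) :=
  LinearMap.mkContinuous
    { toFun := P0 K q t
      map_add' := by
        intro f g
        refine tendsto_nhds_unique (tendsto_P0 K q t (f + g)) ?_
        refine ((tendsto_P0 K q t f).add (tendsto_P0 K q t g)).congr fun m => ?_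
        rw [map_add]
      map_smul' := by
        intro a f
        refine tendsto_nhds_unique (tendsto_P0 K q t (a • f)) ?_
        refine ((tendsto_P0 K q t f).const_smul a).congr fun m => ?_
        rw [map_smul] }
    1 (fun f => by rw [one_mul]; exact norm_P0_le K q t f)

theorem tendsto_PS (t : ℝ≥0) (f : C(Config d, ℝ)) :
    Tendsto (fun m => TF K q (boxF d m) t f) atTop (𝓝 (PS K q t f)) := tendsto_P0 K q t f

theorem norm_PS_le (t : ℝ≥0) (f : C(Config d, ℝ)) : ‖PS K q t f‖ ≤ ‖f‖ := norm_P0_le K q t f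

theorem eventually_LF {D : Finset (Site d)} {f : C(Config d, ℝ)}
    (h : DependsOn f (D : Set (Site d))) :
    ∀ᶠ m in atTop, LF K q (boxF d m) f = LF K q D f := by
  filter_upwards [eventually_subset_boxF D] with m hm
  exact LF_eq K q h hm

theorem norm_PS_sub_le (t : ℝ≥0) {D : Finset (Site d)} {f : C(Config d, ℝ)}
    (h : DependsOn f (D : Set (Site d))) : ‖PS K q t f - f‖ ≤ t * ‖LF K q D f‖ := by
  refine le_of_tendsto ((tendsto_PS K q t f).sub_const f).norm ?_
  filter_upwards [eventually_LF K q h] with m hm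
  rw [← hm]
  exact norm_TF_sub_le K q _ t t.2 f

theorem norm_PS_sub_sub_le (t : ℝ≥0) {D : Finset (Site d)} {f : C(Config d, ℝ)}
    (h : DependsOn f (D : Set (Site d))) :
    ‖PS K q t f - f - (t : ℝ) • LF K q D f‖ ≤ t * (t * ‖Gn K q 2 D f‖) := by
  refine le_of_tendsto (((tendsto_PS K q t f).sub_const f).sub_const _).norm ?_
  filter_upwards [eventually_LF K q h, eventually_Gn K q 2 h] with m hm hm2
  have h3 := norm_TF_sub_sub_le K q (boxF d m) t t.2 f
  rw [hm] at h3
  have h4 : LF K q (boxF d m) (LF K q D f) = Gn K q 2 D f := by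
    rw [← hm2, pow_two, mul_apply_eq_comp, hm]
  rw [h4] at h3
  exact h3

theorem isSemigroup_PS : IsSemigroup K q (PS K q) where
  zero := by
    ext1 f
    refine tendsto_nhds_unique (tendsto_PS K q 0 f) ?_
    refine tendsto_const_nhds.congr fun m => ?_
    rw [NNReal.coe_zero, TF_zero]
    rfl
  add := by
    intro s t
    ext1 f
    refine tendsto_nhds_unique (tendsto_PS K q (s + t) f) ?_
    have h := tendsto_comp K q s.2 (tendsto_PS K q t f) (tendsto_PS K q s (PS K q t f))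
    refine h.congr fun m => ?_
    rw [NNReal.coe_add, TF_add]
    rfl
  one := by
    intro t
    refine tendsto_nhds_unique (tendsto_PS K q t 1) ?_
    refine tendsto_const_nhds.congr fun m => ?_
    rw [TF_one]
  nonneg := by
    intro t f hf η
    have h1 : Tendsto (fun m => TF K q (boxF d m) t f η) atTop (𝓝 (PS K q t f η)) :=
      ((ContinuousMap.evalCLM ℝ η).continuous.tendsto _).comp (tendsto_PS K q t f)
    exact ge_of_tendsto h1 (Eventually.of_forall fun m => TF_nonneg K q _ t t.2 f (fun ζ => hf ζ) η)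
  cont := by
    intro f
    rw [Metric.tendsto_nhds]
    intro ε hε
    obtain ⟨g, ⟨D, hD⟩, hg⟩ := exists_local_near f (show 0 < ε / 4 by positivity)
    have h1 : Tendsto (fun t : ℝ≥0 => (t : ℝ) * ‖LF K q D g‖) (𝓝 0) (𝓝 0) := by
      have : Tendsto (fun t : ℝ≥0 => (t : ℝ)) (𝓝 0) (𝓝 ((0 : ℝ≥0) : ℝ)) :=
        NNReal.continuous_coe.tendsto 0
      simpa using this.mul_const ‖LF K q D g‖
    have h2 : ∀ᶠ t : ℝ≥0 in 𝓝 0, (t : ℝ) * ‖LF K q D g‖ < ε / 4 :=
      h1.eventually_lt_const (by positivity)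
    filter_upwards [h2] with t ht
    rw [dist_eq_norm]
    have h3 : PS K q t f - f = PS K q t (f - g) + (PS K q t g - g) - (f - g) := by
      rw [map_sub]
      abel
    rw [h3]
    calc ‖PS K q t (f - g) + (PS K q t g - g) - (f - g)‖
        ≤ ‖PS K q t (f - g) + (PS K q t g - g)‖ + ‖f - g‖ := norm_sub_le _ _
      _ ≤ ‖PS K q t (f - g)‖ + ‖PS K q t g - g‖ + ‖f - g‖ := by
          gcongr
          exact norm_add_le _ _
      _ < ε := by
          have h4 := norm_PS_le K q t (f - g)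
          have h5 := norm_PS_sub_le K q t hD
          linarith
  deriv := by
    rintro f g ⟨D, hD⟩ hg
    have hgL : g = LF K q D f := by
      ext η
      rw [hg, gen_eq_LF K q hD (Finset.Subset.refl D)]
    rw [hgL, tendsto_iff_norm_sub_tendsto_zero]
    have h1 : Tendsto (fun t : ℝ≥0 => (t : ℝ) * ‖Gn K q 2 D f‖) (𝓝[≠] 0) (𝓝 0) := by
      have : Tendsto (fun t : ℝ≥0 => (t : ℝ)) (𝓝 0) (𝓝 ((0 : ℝ≥0) : ℝ)) :=
        NNReal.continuous_coe.tendsto 0
      have h2 := (this.mul_const ‖Gn K q 2 D f‖).mono_left (nhdsWithin_le_nhds (s := {0}ᶜ))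
      simpa using h2
    refine squeeze_zero' (Eventually.of_forall fun _ => norm_nonneg _) ?_ h1
    filter_upwards [self_mem_nhdsWithin] with t ht
    have ht0 : (0 : ℝ) < t := by
      have : (t : ℝ≥0) ≠ 0 := ht
      exact_mod_cast pos_iff_ne_zero.2 this
    have h3 : (t : ℝ)⁻¹ • (PS K q t f - f) - LF K q D f =
        (t : ℝ)⁻¹ • (PS K q t f - f - (t : ℝ) • LF K q D f) := by
      rw [smul_sub (t : ℝ)⁻¹ (PS K q t f - f), smul_smul, inv_mul_cancel₀ ht0.ne', one_smul]
    rw [h3, norm_smul, norm_inv, Real.norm_eq_abs, abs_of_pos ht0, inv_mul_le_iff₀ ht0]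
    exact norm_PS_sub_sub_le K q t hD

end Pool.Agent.Y726.Kc
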