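import Mathlib

/-!
# Widom–Rowlinson type colourings of the square lattice

`Cell = ℤ × ℤ`.  For a finite set `Λ` of cells and a set `ω ⊆ Λ` of occupied cells, `Cl Λ ω` is the
set of the colourings of `ω` by two colours (given by the set `b` of the cells of the second
colour), such that neighbouring occupied cells have the same colour and that the cells of the second
colour have all their neighbours in `Λ` (the boundary condition is the first colour).
-/

set_option autoImplicit false

namespace Pool.Agent.Y726.Kc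

/-- The cells of the square lattice. -/
abbrev Cell := ℤ × ℤ

/-- The four neighbours of a cell. -/
def nb (c : Cell) : Finset Cell := {(c.1 + 1, c.2), (c.1 - 1, c.2), (c.1, c.2 + 1), (c.1, c.2 - 1)}

theorem mem_nb {c e : Cell} : e ∈ nb c ↔ e = (c.1 + 1, c.2) ∨ e = (c.1 - 1, c.2) ∨
    e = (c.1, c.2 + 1) ∨ e = (c.1, c.2 - 1) := by
  simp [nb]

theorem nb_comm {c e : Cell} : e ∈ nb c ↔ c ∈ nb e := by
  rw [mem_nb, mem_nb]
  rcases c with ⟨a, b⟩
  rcases e with ⟨a', b'⟩
  simp only [Prod.mk.injEq]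
  omega

theorem nb_ne {c e : Cell} (h : e ∈ nb c) : e ≠ c := by
  rw [mem_nb] at h
  rcases c with ⟨a, b⟩
  rcases e with ⟨a', b'⟩
  simp only [Prod.mk.injEq, ne_eq] at h ⊢
  omega

theorem card_nb (c : Cell) : (nb c).card ≤ 4 := by
  unfold nb
  exact Finset.card_le_four

/-- The colourings of `ω`. -/
def Cl (Λ ω : Finset Cell) : Finset (Finset Cell) :=
  ω.powerset.filter (fun b => ∀ c ∈ b, ∀ e ∈ nb c, e ∈ Λ ∧ (e ∈ ω → e ∈ b))

theorem mem_Cl {Λ ω b : Finset Cell} : b ∈ Cl Λ ω ↔ b ⊆ ω ∧
    ∀ c ∈ b, ∀ e ∈ nb c, e ∈ Λ ∧ (e ∈ ω → e ∈ b) := by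
  simp [Cl]

theorem Cl_color {Λ ω b : Finset Cell} (h : b ∈ Cl Λ ω) {c e : Cell} (hc : c ∈ ω) (he : e ∈ ω)
    (hn : e ∈ nb c) : (c ∈ b ↔ e ∈ b) := by
  rw [mem_Cl] at h
  constructor
  · intro hb
    exact (h.2 c hb e hn).2 he
  · intro hb
    exact (h.2 e hb c (nb_comm.1 hn)).2 hc

theorem empty_mem_Cl (Λ ω : Finset Cell) : ∅ ∈ Cl Λ ω := by
  rw [mem_Cl]
  simp

theorem symmDiff_mem_Cl {Λ ω b b' : Finset Cell} (h : b ∈ Cl Λ ω) (h' : b' ∈ Cl Λ ω) :
    symmDiff b b' ∈ Cl Λ ω := by
  have hc := fun {c e : Cell} (hc : c ∈ ω) (he : e ∈ ω) (hn : e ∈ nb c) => Cl_color h hc he hn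
  have hc' := fun {c e : Cell} (hc : c ∈ ω) (he : e ∈ ω) (hn : e ∈ nb c) => Cl_color h' hc he hn
  rw [mem_Cl] at h h' ⊢
  constructor
  · intro c hcc
    rw [Finset.mem_symmDiff] at hcc
    rcases hcc with hcc | hcc
    · exact h.1 hcc.1
    · exact h'.1 hcc.1
  · intro c hcc e he
    rw [Finset.mem_symmDiff] at hcc
    have hcω : c ∈ ω := by
      rcases hcc with hcc | hcc
      · exact h.1 hcc.1
      · exact h'.1 hcc.1
    constructor
    · rcases hcc with hcc | hcc
      · exact (h.2 c hcc.1 e he).1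
      · exact (h'.2 c hcc.1 e he).1
    · intro heω
      rw [Finset.mem_symmDiff, ← hc hcω heω he, ← hc' hcω heω he]
      exact hcc

/-- The colourings of `ω` with no cell of `T` of the second colour. -/
def ClA (Λ ω T : Finset Cell) : Finset (Finset Cell) := (Cl Λ ω).filter (fun b => Disjoint T b)

theorem card_ClA_insert (Λ ω T : Finset Cell) (y : Cell) :
    (ClA Λ ω T).card ≤ 2 * (ClA Λ ω (insert y T)).card := by
  classical
  by_cases hex : ∃ b₀ ∈ ClA Λ ω T, y ∈ b₀
  · obtain ⟨b₀, hb₀, hy⟩ := hex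
    have h1 : (ClA Λ ω T) = (ClA Λ ω (insert y T)) ∪ (ClA Λ ω T).filter (fun b => y ∈ b) := by
      ext b
      simp only [ClA, Finset.mem_union, Finset.mem_filter, Finset.disjoint_insert_left]
      tauto
    have h2 : ((ClA Λ ω T).filter (fun b => y ∈ b)).card ≤ (ClA Λ ω (insert y T)).card := by
      apply Finset.card_le_card_of_injOn (fun b => symmDiff b b₀)
      · intro b hb
        simp only [ClA, Finset.coe_filter, Finset.mem_filter, Set.mem_ofPred_eq] at hb hb₀ ⊢
        refine ⟨symmDiff_mem_Cl hb.1.1 hb₀.1, ?_⟩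
        rw [Finset.disjoint_insert_left]
        constructor
        · rw [Finset.mem_symmDiff]
          tauto
        · rw [Finset.disjoint_left]
          intro c hc hcc
          rw [Finset.mem_symmDiff] at hcc
          rcases hcc with hcc | hcc
          · exact Finset.disjoint_left.1 hb.1.2 hc hcc.1
          · exact Finset.disjoint_left.1 hb₀.2 hc hcc.1
      · intro b _ b' _ hbb
        exact symmDiff_left_injective b₀ hbb
    calc (ClA Λ ω T).card ≤ (ClA Λ ω (insert y T)).card +
          ((ClA Λ ω T).filter (fun b => y ∈ b)).card := by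
          conv_lhs => rw [h1]
          exact Finset.card_union_le _ _
      _ ≤ 2 * (ClA Λ ω (insert y T)).card := by omega
  · push Not at hex
    have h1 : (ClA Λ ω T) ⊆ (ClA Λ ω (insert y T)) := by
      intro b hb
      have h3 := hex b hb
      simp only [ClA, Finset.mem_filter, Finset.disjoint_insert_left] at hb ⊢
      exact ⟨hb.1, h3, hb.2⟩
    have := Finset.card_le_card h1
    omega

theorem card_Cl_le (Λ ω T : Finset Cell) :
    (Cl Λ ω).card ≤ 2 ^ T.card * (ClA Λ ω T).card := by
  classical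
  induction T using Finset.induction_on with
  | empty => simp [ClA]
  | insert y T hy ih =>
    rw [Finset.card_insert_of_notMem hy, pow_succ, mul_assoc]
    exact ih.trans (Nat.mul_le_mul_left _ (card_ClA_insert Λ ω T y))

theorem card_Cl_insert (Λ ω : Finset Cell) (x : Cell) :
    (Cl Λ ω).card ≤ 16 * (Cl Λ (insert x ω)).card := by
  classical
  have h1 := card_Cl_le Λ ω (nb x)
  have h2 : (ClA Λ ω (nb x)) ⊆ Cl Λ (insert x ω) := by
    intro b hb
    simp only [ClA, Finset.mem_filter] at hb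
    have hb1 := mem_Cl.1 hb.1
    rw [mem_Cl]
    refine ⟨hb1.1.trans (Finset.subset_insert _ _), ?_⟩
    intro c hc e he
    refine ⟨(hb1.2 c hc e he).1, ?_⟩
    intro hee
    rw [Finset.mem_insert] at hee
    rcases hee with rfl | hee
    · exact absurd hc (Finset.disjoint_left.1 hb.2 (nb_comm.1 he))
    · exact (hb1.2 c hc e he).2 hee
  have h3 : 2 ^ (nb x).card ≤ 2 ^ 4 := Nat.pow_le_pow_right (by norm_num) (card_nb x)
  calc (Cl Λ ω).card ≤ 2 ^ (nb x).card * (ClA Λ ω (nb x)).card := h1
    _ ≤ 16 * (Cl Λ (insert x ω)).card :=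
        Nat.mul_le_mul (by simpa using h3) (Finset.card_le_card h2)

/-- The weight of the configurations in which the cells of `S` are empty. -/
noncomputable def Zw (lam : ℝ) (Λ S : Finset Cell) : ℝ :=
  ∑ ω ∈ Λ.powerset with Disjoint S ω, lam ^ ω.card * ((Cl Λ ω).card : ℝ)

theorem Zw_nonneg {lam : ℝ} (h : 0 ≤ lam) (Λ S : Finset Cell) : 0 ≤ Zw lam Λ S :=
  Finset.sum_nonneg fun _ _ => by positivity

theorem Zw_pos {lam : ℝ} (h : 0 ≤ lam) (Λ : Finset Cell) : 0 < Zw lam Λ ∅ := by
  unfold Zw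
  apply Finset.sum_pos'
  · intro _ _
    positivity
  · refine ⟨∅, by simp, ?_⟩
    have : 0 < (Cl Λ ∅).card := Finset.card_pos.2 ⟨∅, empty_mem_Cl _ _⟩
    simp only [Finset.card_empty, pow_zero, one_mul]
    exact_mod_cast this

theorem Zw_insert {lam : ℝ} (h : 0 < lam) (Λ S : Finset Cell) (x : Cell) (hx : x ∈ Λ)
    (hxS : x ∉ S) : Zw lam Λ (insert x S) ≤ 16 / lam * Zw lam Λ S := by
  classical
  unfold Zw
  calc ∑ ω ∈ Λ.powerset with Disjoint (insert x S) ω, lam ^ ω.card * ((Cl Λ ω).card : ℝ)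
      ≤ ∑ ω ∈ Λ.powerset with Disjoint (insert x S) ω,
          16 / lam * (lam ^ (insert x ω).card * ((Cl Λ (insert x ω)).card : ℝ)) := by
        apply Finset.sum_le_sum
        intro ω hω
        rw [Finset.mem_filter, Finset.disjoint_insert_left] at hω
        rw [Finset.card_insert_of_notMem hω.2.1]
        have h2 : ((Cl Λ ω).card : ℝ) ≤ 16 * ((Cl Λ (insert x ω)).card : ℝ) := by
          exact_mod_cast card_Cl_insert Λ ω x
        have h3 : 16 / lam * (lam ^ (ω.card + 1) * ((Cl Λ (insert x ω)).card : ℝ)) =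
            lam ^ ω.card * (16 * ((Cl Λ (insert x ω)).card : ℝ)) := by
          field_simp
          ring
        rw [h3]
        exact mul_le_mul_of_nonneg_left h2 (by positivity)
    _ = 16 / lam * ∑ ω ∈ Λ.powerset with Disjoint (insert x S) ω,
          (lam ^ (insert x ω).card * ((Cl Λ (insert x ω)).card : ℝ)) := by
        rw [Finset.mul_sum]
    _ = 16 / lam * ∑ ω ∈ (Λ.powerset.filter (fun ω => Disjoint (insert x S) ω)).image (insert x),
          (lam ^ ω.card * ((Cl Λ ω).card : ℝ)) := by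
        rw [Finset.sum_image]
        intro ω hω ω' hω' hh
        simp only [Finset.coe_filter, Set.mem_ofPred_eq, Finset.disjoint_insert_left] at hω hω'
        rw [← Finset.erase_insert hω.2.1, ← Finset.erase_insert hω'.2.1, hh]
    _ ≤ 16 / lam * ∑ ω ∈ Λ.powerset with Disjoint S ω, lam ^ ω.card * ((Cl Λ ω).card : ℝ) := by
        apply mul_le_mul_of_nonneg_left _ (by positivity)
        apply Finset.sum_le_sum_of_subset_of_nonneg
        · intro ω' hω'
          rw [Finset.mem_image] at hω'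
          obtain ⟨ω, hω, rfl⟩ := hω'
          rw [Finset.mem_filter, Finset.disjoint_insert_left, Finset.mem_powerset] at hω
          rw [Finset.mem_filter, Finset.mem_powerset, Finset.disjoint_insert_right]
          exact ⟨Finset.insert_subset hx hω.1, hxS, hω.2.2⟩
        · intro _ _ _
          positivity

theorem Zw_le {lam : ℝ} (h : 0 < lam) (Λ S : Finset Cell) (hS : S ⊆ Λ) :
    Zw lam Λ S ≤ (16 / lam) ^ S.card * Zw lam Λ ∅ := by
  classical
  induction S using Finset.induction_on with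
  | empty => simp
  | insert y T hy ih =>
    rw [Finset.insert_subset_iff] at hS
    calc Zw lam Λ (insert y T) ≤ 16 / lam * Zw lam Λ T := Zw_insert h Λ T y hS.1 hy
      _ ≤ 16 / lam * ((16 / lam) ^ T.card * Zw lam Λ ∅) :=
          mul_le_mul_of_nonneg_left (ih hS.2) (by positivity)
      _ = (16 / lam) ^ (insert y T).card * Zw lam Λ ∅ := by
          rw [Finset.card_insert_of_notMem hy, pow_succ]
          ring

end Pool.Agent.Y726.Kc
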